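import Pool.Agent.Lib.MP_727085_co.Moves

set_option autoImplicit false

/-!
# The volume of a simplex
-/

namespace Pool.Agent.Lib.MP_727085_co

open Finset MeasureTheory

variable {k : ℕ}

/-- the standard corner simplex -/
def stdD (k : ℕ) : Set (Fin k → ℝ) := {x | (∀ i, 0 ≤ x i) ∧ ∑ i, x i ≤ 1}

theorem isClosed_stdD (k : ℕ) : IsClosed (stdD k) := by
  have h : stdD k = (⋂ i, {x : Fin k → ℝ | 0 ≤ x i}) ∩ {x | ∑ i, x i ≤ 1} := by
    ext x; simp [stdD]
  rw [h]
  exact (isClosed_iInter fun i => isClosed_le continuous_const (continuous_apply i)).inter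
    (isClosed_le (continuous_finsetSum _ fun i _ => continuous_apply i) continuous_const)

/-- sign change -/
noncomputable def sgn (σ : Fin k → Bool) : (Fin k → ℝ) →ₗ[ℝ] (Fin k → ℝ) :=
  Matrix.toLin' (Matrix.diagonal fun i => if σ i then (-1 : ℝ) else 1)

theorem sgn_apply (σ : Fin k → Bool) (x : Fin k → ℝ) (i : Fin k) :
    sgn σ x i = (if σ i then (-1 : ℝ) else 1) * x i := by
  simp [sgn, Matrix.toLin'_apply, Matrix.mulVec_diagonal]

theorem sgn_det (σ : Fin k → Bool) : |LinearMap.det (sgn σ)| = 1 := by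
  rw [sgn, LinearMap.det_toLin', Matrix.det_diagonal, Finset.abs_prod]
  apply Finset.prod_eq_one
  intro i _
  split_ifs <;> simp

theorem sgn_sgn (σ : Fin k → Bool) (x : Fin k → ℝ) : sgn σ (sgn σ x) = x := by
  funext i
  rw [sgn_apply, sgn_apply]
  split_ifs <;> ring

theorem null_coord (i : Fin k) : volume {x : Fin k → ℝ | x i = 0} = 0 := by
  have h : {x : Fin k → ℝ | x i = 0} =
      ((LinearMap.ker (LinearMap.proj i : (Fin k → ℝ) →ₗ[ℝ] ℝ) : Submodule ℝ (Fin k → ℝ)) :
        Set (Fin k → ℝ)) := by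
    ext x; simp
  rw [h]
  apply Measure.addHaar_submodule
  intro htop
  have h1 : (fun _ => (1 : ℝ)) ∈ (LinearMap.ker (LinearMap.proj i : (Fin k → ℝ) →ₗ[ℝ] ℝ)) := by
    rw [htop]; trivial
  simp at h1

theorem cross_eq (k : ℕ) : {x : Fin k → ℝ | ∑ i, |x i| ≤ 1} = ⋃ σ : Fin k → Bool, sgn σ '' stdD k := by
  ext x
  simp only [Set.mem_iUnion]
  constructor
  · intro hx
    refine ⟨fun i => decide (x i < 0), sgn (fun i => decide (x i < 0)) x, ?_, sgn_sgn _ _⟩
    have h1 : ∀ i, sgn (fun i => decide (x i < 0)) x i = |x i| := by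
      intro i
      rw [sgn_apply]
      by_cases h : x i < 0
      · simp [h, abs_of_neg h]
      · simp [h, abs_of_nonneg (not_lt.1 h)]
    refine ⟨fun i => by rw [h1]; exact abs_nonneg _, ?_⟩
    simp only [h1]
    exact hx
  · rintro ⟨σ, y, hy, rfl⟩
    have h1 : ∀ i, |sgn σ y i| = y i := by
      intro i
      rw [sgn_apply, abs_mul, abs_of_nonneg (hy.1 i)]
      split_ifs <;> simp
    show ∑ i, |sgn σ y i| ≤ 1
    simp only [h1]
    exact hy.2

theorem sgn_disj {σ τ : Fin k → Bool} (h : σ ≠ τ) :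
    volume (sgn σ '' stdD k ∩ sgn τ '' stdD k) = 0 := by
  obtain ⟨i, hi⟩ := Function.ne_iff.1 h
  apply measure_mono_null _ (null_coord i)
  rintro x ⟨⟨y, hy, rfl⟩, ⟨z, hz, hzy⟩⟩
  have h1 := congrFun hzy i
  rw [sgn_apply, sgn_apply] at h1
  show sgn σ y i = 0
  rw [sgn_apply]
  have a := hy.1 i
  have b := hz.1 i
  cases hs : σ i <;> cases ht : τ i <;> simp [hs, ht] at h1 hi ⊢
  · linarith
  · linarith

theorem vol_std (hk : 0 < k) : volume (stdD k) = ENNReal.ofReal (1 / (k.factorial : ℝ)) := by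
  have hne : Nonempty (Fin k) := ⟨⟨0, hk⟩⟩
  have h1 : volume {x : Fin k → ℝ | ∑ i, |x i| ≤ 1} = ENNReal.ofReal (2 ^ k / (k.factorial : ℝ)) := by
    have h := MeasureTheory.volume_sum_rpow_le (ι := Fin k) (p := 1) le_rfl 1
    simp only [Real.rpow_one, div_one, Fintype.card_fin, ENNReal.ofReal_one, one_pow, one_mul] at h
    rw [h]
    congr 1
    have h2 : Real.Gamma (1 + 1) = 1 := by
      have := Real.Gamma_nat_eq_factorial 1
      norm_num at this ⊢
    rw [h2, Real.Gamma_nat_eq_factorial]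
    norm_num
  have hcl : ∀ σ : Fin k → Bool, IsClosed (sgn σ '' stdD k) := by
    intro σ
    have h3 : sgn σ '' stdD k = sgn σ ⁻¹' stdD k := by
      ext x
      constructor
      · rintro ⟨y, hy, rfl⟩
        show sgn σ (sgn σ y) ∈ stdD k
        rw [sgn_sgn]; exact hy
      · intro hx
        exact ⟨sgn σ x, hx, sgn_sgn _ _⟩
    rw [h3]
    exact (isClosed_stdD k).preimage (LinearMap.continuous_of_finiteDimensional _)
  have h4 : volume (⋃ σ : Fin k → Bool, sgn σ '' stdD k) =
      ∑' σ : Fin k → Bool, volume (sgn σ '' stdD k) := by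
    apply measure_iUnion₀
    · intro σ τ h
      exact sgn_disj h
    · intro σ
      exact (hcl σ).measurableSet.nullMeasurableSet
  have h5 : ∀ σ : Fin k → Bool, volume (sgn σ '' stdD k) = volume (stdD k) := by
    intro σ
    rw [Measure.addHaar_image_linearMap, sgn_det]
    simp
  rw [← cross_eq, h1] at h4
  simp only [h5] at h4
  rw [tsum_fintype, Finset.sum_const, Finset.card_univ, Fintype.card_fun, Fintype.card_bool,
    Fintype.card_fin, nsmul_eq_mul] at h4
  push_cast at h4
  have hf : (0 : ℝ) < k.factorial := by exact_mod_cast Nat.factorial_pos k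
  have h6 : ENNReal.ofReal (2 ^ k / (k.factorial : ℝ)) =
      (2 : ENNReal) ^ k * ENNReal.ofReal (1 / (k.factorial : ℝ)) := by
    rw [div_eq_mul_one_div, ENNReal.ofReal_mul (by positivity),
      ENNReal.ofReal_pow (by norm_num)]
    norm_num
  rw [h6] at h4
  have h7 : (2 : ENNReal) ^ k ≠ 0 := by positivity
  have h8 : (2 : ENNReal) ^ k ≠ ⊤ := ENNReal.pow_ne_top (by norm_num)
  exact ((ENNReal.mul_right_inj h7 h8).1 h4).symm

/-- matrix of edges -/
def edgeM (v : Fin (k + 1) → Fin k → ℝ) : Matrix (Fin k) (Fin k) ℝ :=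
  Matrix.of fun i j => v i.succ j - v 0 j

theorem hull_range (v : Fin (k + 1) → Fin k → ℝ) :
    convexHull ℝ (Set.range v) =
      (fun x => v 0 + x) '' (Matrix.toLin' (edgeM v).transpose '' stdD k) := by
  have happ : ∀ x : Fin k → ℝ, ∀ j, (Matrix.toLin' (edgeM v).transpose x) j =
      ∑ i, x i * (v i.succ j - v 0 j) := by
    intro x j
    rw [Matrix.toLin'_apply, Matrix.mulVec, dotProduct]
    apply Finset.sum_congr rfl
    intro i _
    simp [edgeM, mul_comm]
  ext p
  rw [← Set.image_univ, mem_hull_iff_rep]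
  constructor
  · rintro ⟨t, ht, -⟩
    refine ⟨_, ⟨fun i => t i.succ, ⟨fun i => ht.1 _, ?_⟩, rfl⟩, ?_⟩
    · have h1 := ht.2.1
      rw [Fin.sum_univ_succ] at h1
      have h2 := ht.1 0
      linarith
    · funext j
      simp only [Pi.add_apply]
      rw [happ]
      have h1 := congrFun ht.2.2 j
      rw [Finset.sum_apply, Fin.sum_univ_succ] at h1
      simp only [Pi.smul_apply, smul_eq_mul] at h1
      have h2 := ht.2.1
      rw [Fin.sum_univ_succ] at h2
      simp only [mul_sub]
      rw [Finset.sum_sub_distrib, ← Finset.sum_mul]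
      have h3 : ∑ i : Fin k, t i.succ = 1 - t 0 := by linarith
      rw [h3]
      linarith
  · rintro ⟨_, ⟨x, hx, rfl⟩, rfl⟩
    refine ⟨Fin.cons (1 - ∑ i, x i) x, ⟨?_, ?_, ?_⟩, fun i hi => absurd (Set.mem_univ i) hi⟩
    · intro i
      refine Fin.cases ?_ (fun i => ?_) i
      · simp only [Fin.cons_zero]; linarith [hx.2]
      · simp only [Fin.cons_succ]; exact hx.1 i
    · rw [Fin.sum_univ_succ]
      simp
    · funext j
      rw [Finset.sum_apply, Fin.sum_univ_succ]
      simp only [Fin.cons_zero, Fin.cons_succ, Pi.smul_apply, smul_eq_mul, Pi.add_apply]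
      rw [happ]
      simp only [mul_sub]
      rw [Finset.sum_sub_distrib, ← Finset.sum_mul]
      ring

theorem vol_hull (hk : 0 < k) (v : Fin (k + 1) → Fin k → ℝ) :
    volume (convexHull ℝ (Set.range v)) =
      ENNReal.ofReal (|(edgeM v).det| / (k.factorial : ℝ)) := by
  rw [hull_range, Set.image_add_left, measure_preimage_add, Measure.addHaar_image_linearMap,
    LinearMap.det_toLin', Matrix.det_transpose, vol_std hk, ← ENNReal.ofReal_mul (abs_nonneg _)]
  congr 1
  ring

/-- normalized volume of the simplex with vertex set `s` -/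
noncomputable def nvol (k : ℕ) (s : Finset (Fin k → ℝ)) : ℝ :=
  k.factorial * (volume (convexHull ℝ (s : Set (Fin k → ℝ)))).toReal

theorem nvol_nonneg (s : Finset (Fin k → ℝ)) : 0 ≤ nvol k s := by
  unfold nvol; positivity

theorem nvol_eq (hk : 0 < k) (s : Finset (Fin k → ℝ)) (v : Fin (k + 1) → Fin k → ℝ)
    (hv : Set.range v = (s : Set (Fin k → ℝ))) : nvol k s = |(edgeM v).det| := by
  unfold nvol
  rw [← hv, vol_hull hk, ENNReal.toReal_ofReal (by positivity)]
  have hf : (0 : ℝ) < k.factorial := by exact_mod_cast Nat.factorial_pos k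
  field_simp

end Pool.Agent.Lib.MP_727085_co
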