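import Pool.Agent.Lib.MP_727085_co.Radon

set_option autoImplicit false

namespace Pool.Agent.Lib.MP_727085_co

open Finset

variable {d : ℕ}

theorem mem_hull_iff_rep {ι : Type*} [Fintype ι] (w : ι → Fin d → ℝ) (S : Set ι)
    (p : Fin d → ℝ) :
    p ∈ convexHull ℝ (w '' S) ↔ ∃ t, Rep w p t ∧ ∀ i, i ∉ S → t i = 0 := by
  classical
  constructor
  · intro h
    have hconv : Convex ℝ {q : Fin d → ℝ | ∃ t, Rep w q t ∧ ∀ i, i ∉ S → t i = 0} := by
      rintro q1 ⟨t1, h1, z1⟩ q2 ⟨t2, h2, z2⟩ a b ha hb hab
      refine ⟨fun i => a * t1 i + b * t2 i, ⟨?_, ?_, ?_⟩, ?_⟩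
      · intro i
        exact add_nonneg (mul_nonneg ha (h1.1 i)) (mul_nonneg hb (h2.1 i))
      · rw [Finset.sum_add_distrib, ← Finset.mul_sum, ← Finset.mul_sum, h1.2.1, h2.2.1]
        linarith
      · simp only [add_smul, mul_smul]
        rw [Finset.sum_add_distrib, ← Finset.smul_sum, ← Finset.smul_sum, h1.2.2, h2.2.2]
      · intro i hi
        simp [z1 i hi, z2 i hi]
    refine (convexHull_min ?_ hconv) h
    rintro q ⟨i, hi, rfl⟩
    refine ⟨Pi.single i 1, ⟨?_, ?_, ?_⟩, ?_⟩
    · intro j
      by_cases hj : j = i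
      · subst hj; simp
      · simp [Pi.single_eq_of_ne hj]
    · simp
    · rw [Finset.sum_eq_single i]
      · simp
      · intro j _ hj; simp [Pi.single_eq_of_ne hj]
      · simp
    · intro j hj
      have : j ≠ i := by rintro rfl; exact hj hi
      simp [Pi.single_eq_of_ne this]
  · rintro ⟨t, ht, hz⟩
    rw [← ht.2.2]
    have h1 : ∑ i, t i • w i = ∑ i ∈ univ.filter (fun i => i ∈ S), t i • w i := by
      rw [Finset.sum_filter]
      apply Finset.sum_congr rfl
      intro i _
      by_cases hi : i ∈ S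
      · simp [hi]
      · simp [hi, hz i hi]
    have h2 : ∑ i ∈ univ.filter (fun i => i ∈ S), t i = 1 := by
      rw [← ht.2.1, Finset.sum_filter]
      apply Finset.sum_congr rfl
      intro i _
      by_cases hi : i ∈ S
      · simp [hi]
      · simp [hi, hz i hi]
    rw [h1]
    apply (convex_convexHull ℝ (w '' S)).sum_mem
    · intro i _; exact ht.1 i
    · exact h2
    · intro i hi
      simp only [Finset.mem_filter, Finset.mem_univ, true_and] at hi
      exact subset_convexHull ℝ _ ⟨i, hi, rfl⟩

open Classical in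
/-- indicator with values in `ZMod 2` -/
noncomputable def chi (P : Prop) : ZMod 2 := if P then 1 else 0

theorem chi_true {P : Prop} (h : P) : chi P = 1 := if_pos h
theorem chi_false {P : Prop} (h : ¬ P) : chi P = 0 := if_neg h
theorem chi_congr {P Q : Prop} (h : P ↔ Q) : chi P = chi Q := by rw [propext h]

/-- general position of `p` with respect to a set of points. -/
def GenPos (d : ℕ) (L : Set (Fin d → ℝ)) (p : Fin d → ℝ) : Prop :=
  ∀ A : Finset (Fin d → ℝ), (A : Set (Fin d → ℝ)) ⊆ L → A.card ≤ d →
    p ∉ convexHull ℝ (A : Set (Fin d → ℝ))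

theorem parity_simplex (s : Finset (Fin d → ℝ)) (hs : s.card = d + 1)
    (mu : (Fin d → ℝ) → (Fin d → ℝ)) (w' p : Fin d → ℝ) (L : Set (Fin d → ℝ))
    (hgen : GenPos d L p) (hw : w' ∈ L) (hmu : ∀ x ∈ s, mu x ∈ L) :
    chi (p ∈ convexHull ℝ (mu '' (s : Set (Fin d → ℝ)))) +
      ∑ x ∈ s, chi (p ∈ convexHull ℝ (insert w' (mu '' ((s.erase x : Finset (Fin d → ℝ)) :
        Set (Fin d → ℝ))))) = 0 := by
  classical
  let w : Option s → Fin d → ℝ := fun o => o.elim w' (fun x => mu x)
  have hcard : Fintype.card (Option s) = d + 2 := by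
    rw [Fintype.card_option, Fintype.card_coe, hs]
  have hL : ∀ o, w o ∈ L := by
    rintro (_ | x)
    · exact hw
    · exact hmu x x.2
  have hG : Gen w p := by
    intro t ht i j hi hj
    by_contra hij
    have h1 : p ∈ convexHull ℝ (w '' ({i, j}ᶜ : Set (Option s))) := by
      rw [mem_hull_iff_rep]
      refine ⟨t, ht, ?_⟩
      intro k hk
      simp only [Set.mem_compl_iff, not_not, Set.mem_insert_iff, Set.mem_singleton_iff] at hk
      rcases hk with rfl | rfl
      · exact hi
      · exact hj
    have h2 : (w '' ({i, j}ᶜ : Set (Option s))) =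
        (((univ \ {i, j} : Finset (Option s)).image w : Finset (Fin d → ℝ)) :
          Set (Fin d → ℝ)) := by
      ext q
      simp
    rw [h2] at h1
    refine hgen _ ?_ ?_ h1
    · intro q hq
      simp only [Finset.coe_image, Set.mem_image] at hq
      obtain ⟨o, -, rfl⟩ := hq
      exact hL o
    · refine (Finset.card_image_le).trans ?_
      have h3 : (univ \ {i, j} : Finset (Option s)).card = Fintype.card (Option s) - 2 := by
        rw [Finset.card_sdiff_of_subset (Finset.subset_univ _), Finset.card_pair hij,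
          Finset.card_univ]
      rw [h3, hcard]
      omega
  have hE := even_omit hcard w p hG
  have hsum : ((univ.filter (fun i => ∃ t, Rep w p t ∧ t i = 0)).card : ZMod 2) = 0 := by
    rw [ZMod.natCast_eq_zero_iff_even]
    convert hE
  have hcast : ((univ.filter (fun i => ∃ t, Rep w p t ∧ t i = 0)).card : ZMod 2) =
      ∑ i : Option s, chi (∃ t, Rep w p t ∧ t i = 0) := by
    rw [Finset.card_eq_sum_ones, Nat.cast_sum, Finset.sum_filter]
    apply Finset.sum_congr rfl
    intro i _
    unfold chi
    split_ifs <;> simp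
  rw [hcast, Fintype.sum_option] at hsum
  have hnone : (∃ t, Rep w p t ∧ t none = 0) ↔
      p ∈ convexHull ℝ (mu '' (s : Set (Fin d → ℝ))) := by
    have h1 : (mu '' (s : Set (Fin d → ℝ))) = w '' ({none}ᶜ : Set (Option s)) := by
      ext q
      constructor
      · rintro ⟨x, hx, rfl⟩
        exact ⟨some ⟨x, hx⟩, by simp, rfl⟩
      · rintro ⟨o, ho, rfl⟩
        cases o with
        | none => simp at ho
        | some x => exact ⟨x, x.2, rfl⟩
    rw [h1, mem_hull_iff_rep]
    constructor
    · rintro ⟨t, ht, h0⟩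
      refine ⟨t, ht, ?_⟩
      intro i hi
      simp only [Set.mem_compl_iff, Set.mem_singleton_iff, not_not] at hi
      rw [hi, h0]
    · rintro ⟨t, ht, h0⟩
      exact ⟨t, ht, h0 none (by simp)⟩
  have hsome : ∀ x : s, (∃ t, Rep w p t ∧ t (some x) = 0) ↔
      p ∈ convexHull ℝ (insert w' (mu '' ((s.erase x : Finset (Fin d → ℝ)) :
        Set (Fin d → ℝ)))) := by
    intro x
    have h1 : (insert w' (mu '' ((s.erase x : Finset (Fin d → ℝ)) : Set (Fin d → ℝ)))) =
        w '' ({some x}ᶜ : Set (Option s)) := by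
      ext q
      constructor
      · rintro (rfl | ⟨y, hy, rfl⟩)
        · exact ⟨none, by simp, rfl⟩
        · have hy' := Finset.mem_coe.1 hy
          rw [Finset.mem_erase] at hy'
          refine ⟨some ⟨y, hy'.2⟩, ?_, rfl⟩
          simp only [Set.mem_compl_iff, Set.mem_singleton_iff, Option.some.injEq]
          intro h
          exact hy'.1 (by rw [← h])
      · rintro ⟨o, ho, rfl⟩
        cases o with
        | none => exact Or.inl rfl
        | some y =>
          refine Or.inr ⟨y, ?_, rfl⟩
          rw [Finset.mem_coe, Finset.mem_erase]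
          refine ⟨?_, y.2⟩
          intro h
          apply ho
          simp only [Set.mem_singleton_iff, Option.some.injEq]
          exact Subtype.ext h
    rw [h1, mem_hull_iff_rep]
    constructor
    · rintro ⟨t, ht, h0⟩
      refine ⟨t, ht, ?_⟩
      intro i hi
      simp only [Set.mem_compl_iff, Set.mem_singleton_iff, not_not] at hi
      rw [hi, h0]
    · rintro ⟨t, ht, h0⟩
      exact ⟨t, ht, h0 (some x) (by simp)⟩
  rw [chi_congr hnone] at hsum
  rw [← Finset.sum_coe_sort s]
  rw [Finset.sum_congr rfl (fun x _ => chi_congr (hsome x))] at hsum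
  exact hsum

end Pool.Agent.Lib.MP_727085_co
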