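import Pool.Agent.Lib.MP_727085_co.Five

set_option autoImplicit false
set_option maxRecDepth 100000

namespace Pool.Agent.Lib.MP_727085_co.C5

open Pool.Agent.Lib.MP_727085_co

theorem l0 : lvlOk 5 21 0 t1 t0 = true := by decide +kernel
theorem l1 : lvlOk 5 21 1 t2 t1 = true := by decide +kernel
theorem l2 : lvlOk 5 21 2 t3 t2 = true := by decide +kernel
theorem l3 : lvlOk 5 21 3 t4 t3 = true := by decide +kernel
theorem l4 : lvlOk 5 21 4 t5 t4 = true := by decide +kernel
theorem l5 : lvlOk 5 21 5 t6 t5 = true := by decide +kernel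
theorem ad : As.all (adOk 5 16 1000) = true := by decide +kernel
theorem lf0 : t6x0.all (leafOk 5 16 1000 19416 ones As) = true := by decide +kernel
theorem lf1 : t6x1.all (leafOk 5 16 1000 19416 ones As) = true := by decide +kernel
theorem lf2 : t6x2.all (leafOk 5 16 1000 19416 ones As) = true := by decide +kernel
theorem lf3 : t6x3.all (leafOk 5 16 1000 19416 ones As) = true := by decide +kernel
theorem lf4 : t6x4.all (leafOk 5 16 1000 19416 ones As) = true := by decide +kernel
theorem lf5 : t6x5.all (leafOk 5 16 1000 19416 ones As) = true := by decide +kernel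
theorem lf6 : t6x6.all (leafOk 5 16 1000 19416 ones As) = true := by decide +kernel
theorem lf7 : t6x7.all (leafOk 5 16 1000 19416 ones As) = true := by decide +kernel

theorem lf : t6.all (leafOk 5 16 1000 19416 ones As) = true := by
  have h : t6.all (leafOk 5 16 1000 19416 ones As) =
      (((t6x0.all (leafOk 5 16 1000 19416 ones As) && t6x1.all (leafOk 5 16 1000 19416 ones As)) &&
      (t6x2.all (leafOk 5 16 1000 19416 ones As) && t6x3.all (leafOk 5 16 1000 19416 ones As))) &&
      ((t6x4.all (leafOk 5 16 1000 19416 ones As) && t6x5.all (leafOk 5 16 1000 19416 ones As)) &&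
      (t6x6.all (leafOk 5 16 1000 19416 ones As) && t6x7.all (leafOk 5 16 1000 19416 ones As)))) :=
    rfl
  rw [h, lf0, lf1, lf2, lf3, lf4, lf5, lf6, lf7]
  rfl

theorem cls : Cls 6 ((sets 5 6 t6).map (toFin 5)) :=
  lvl_step t5 t6 l5 (lvl_step t4 t5 l4 (lvl_step t3 t4 l3 (lvl_step t2 t3 l2
    (lvl_step t1 t2 l1 (lvl_step t0 t1 l0 (cls_zero 5 _))))))

theorem one_perm : pack 16 ((permL 5).map (fun _ => 1)) = one := by
  decide +kernel

theorem ones_spec : ones = pack 16 ((lanes 5).map (fun _ => 1)) := by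
  rw [ones_eq, one_perm]
  have h : 16 * Nat.factorial 5 = 1920 := by decide
  rw [h]
  rfl

theorem lanes_lt : (lanes 5).length < 2 ^ 16 - 1 := by
  rw [lanes_length]
  have h : Nat.factorial 5 = 120 := by decide
  rw [h]
  norm_num

theorem as_ok : ∀ A ∈ As, adOk 5 16 1000 A = true := by
  have h := ad
  rw [List.all_eq_true] at h
  exact h

theorem sum_ok : 66 * 19416 < (As.map (fun A => A.a)).sum * (Nat.factorial 5 * 2 ^ 5) := by
  decide +kernel

/-- At least `67` simplices. -/
theorem lower {T : Finset (Finset (Fin 5 → ℝ))} (hT : Cov 5 T) : 67 ≤ T.card :=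
  triang_lower (w := 16) (Q := 1000) (by norm_num) As as_ok 19416 (sets 5 6 t6) cls
    (leaf_mass (by norm_num) (by norm_num) lanes_lt ones ones_spec As as_ok 19416 t6 lf) 66 sum_ok hT

end Pool.Agent.Lib.MP_727085_co.C5
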