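import Pool.Agent.Lib.MP_727085_co.Count

set_option autoImplicit false

namespace Pool.Agent.Lib.MP_727085_co

open Finset

/-- the first `n` digits in base `b` -/
def digs (b : ℕ) : ℕ → ℕ → List ℕ
  | 0, _ => []
  | n + 1, N => N % b :: digs b n (N / b)

theorem digs_length (b n N : ℕ) : (digs b n N).length = n := by
  induction n generalizing N with
  | zero => rfl
  | succ n ih => rw [digs, List.length_cons, ih]

/-- vertex codes stored in a leaf -/
def codes (d k : ℕ) (q : ℕ × ℕ) : List ℕ := digs (2 ^ d) k q.1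

/-- one level of the classification is complete -/
def lvlOk (d B k : ℕ) (T' T : Tr (ℕ × ℕ)) : Bool :=
  T.all (fun q => stepOk d B (fun t => codes d (k + 1) (T'.get t)) (codes d k q) (2 ^ d) 0 q.2)

/-- vertex sets of the leaves -/
def sets (d k : ℕ) (T : Tr (ℕ × ℕ)) : List (List ℕ) := T.toL.map (codes d k)

theorem lvl_step {d B k : ℕ} (T T' : Tr (ℕ × ℕ)) (h : lvlOk d B k T' T = true)
    (hR : Cls k ((sets d k T).map (toFin d))) : Cls (k + 1) ((sets d (k + 1) T').map (toFin d)) := by
  apply cls_step_table (fun t => codes d (k + 1) (T'.get t)) _ _ hR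
  · intro r hr u hu hur
    unfold sets at hr
    rw [List.mem_map] at hr
    obtain ⟨q, hq, rfl⟩ := hr
    exact stepOk_spec d B _ _ _ _ _ (Tr.all_spec _ T h q hq) u (Nat.zero_le _) (by omega) hur
  · intro t
    exact List.mem_map_of_mem (Tr.get_mem T' t)
  · intro l hl
    unfold sets at hl
    rw [List.mem_map] at hl
    obtain ⟨q, -, rfl⟩ := hl
    exact digs_length _ _ _

theorem cls_zero (d : ℕ) (q : ℕ × ℕ) : Cls 0 ((sets d 0 (.leaf q)).map (toFin d)) := by
  intro S hS
  rw [Finset.card_eq_zero] at hS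
  refine ⟨(1, fun _ => false), ?_⟩
  rw [hS]
  simp [sets, Tr.toL, codes, digs, toFin]

/-- nonzero entries with their indices -/
def sparse : ℕ → List ℕ → List (ℕ × ℕ)
  | _, [] => []
  | i, a :: l => bif Nat.beq a 0 then sparse (i + 1) l else (i, a) :: sparse (i + 1) l

/-- forms stored in a number: threshold and `2 d` coefficients per form, base `32` -/
def forms (d : ℕ) : ℕ → ℕ → List (List (ℕ × ℕ) × ℕ)
  | 0, _ => []
  | m + 1, N => (sparse 0 (digs 32 (2 * d) (N / 32)), N % 32) :: forms d m (N / 32 ^ (2 * d + 1))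

/-- the check of a leaf of the last level -/
def leafOk (d w Q W ones : ℕ) (As : List AD) (q : ℕ × ℕ) : Bool :=
  formsOk d w Q (codes d (d + 1) q) (forms d (d + 1) q.2) &&
    Nat.ble (tot d w Q ones As (forms d (d + 1) q.2)) W

theorem leaf_mass {d w Q : ℕ} (hw : 0 < w) (hQ : 0 < Q) (hd : (lanes d).length < 2 ^ w - 1)
    (ones : ℕ) (hones : ones = pack w ((lanes d).map (fun _ => 1)))
    (As : List AD) (hAs : ∀ A ∈ As, adOk d w Q A = true) (W : ℕ) (T : Tr (ℕ × ℕ))
    (hT : T.all (leafOk d w Q W ones As) = true) :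
    ∀ l ∈ sets d (d + 1) T, mass (realAtoms d Q (As.map (fun A => (A.X, A.a)))) (toFin d l) ≤ W := by
  intro l hl
  unfold sets at hl
  rw [List.mem_map] at hl
  obtain ⟨q, hq, rfl⟩ := hl
  have h1 := Tr.all_spec _ T hT q hq
  unfold leafOk at h1
  rw [Bool.and_eq_true] at h1
  exact (mass_le_tot hw hQ hd ones hones As hAs _ _ h1.1).trans (Nat.le_of_ble_eq_true h1.2)

end Pool.Agent.Lib.MP_727085_co
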