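import Pool.Agent.Lib.MP_727085_co.Vol
import Pool.Agent.Lib.MP_727085_co.Data

set_option autoImplicit false

/-!
# The largest volume of a simplex in the cube
-/

namespace Pool.Agent.Lib.MP_727085_co

open Finset MeasureTheory

variable {k : ℕ}

/-- matrix with a column of ones -/
def bigM (v : Fin (k + 1) → Fin k → ℝ) : Matrix (Fin (k + 1)) (Fin (k + 1)) ℝ :=
  Matrix.of fun i => Fin.cons 1 (v i)

theorem det_bigM (v : Fin (k + 1) → Fin k → ℝ) : (bigM v).det = (edgeM v).det := by
  let A : Matrix (Fin (k + 1)) (Fin (k + 1)) ℝ :=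
    Matrix.of fun i j => bigM v i j + (if i = 0 then 0 else -1) * bigM v 0 j
  have h1 : A.det = (bigM v).det :=
    Matrix.det_eq_of_forall_row_eq_smul_add_const (fun i => if i = 0 then 0 else -1) 0 (by simp)
      (fun i j => rfl)
  rw [← h1, Matrix.det_succ_column_zero, Finset.sum_eq_single 0]
  · have h2 : A 0 0 = 1 := by simp [A, bigM]
    rw [h2]
    simp only [Fin.val_zero, pow_zero, one_mul]
    congr 1
    ext i j
    simp [A, bigM, edgeM, Matrix.submatrix_apply, Fin.succ_ne_zero]
    ring
  · intro i _ hi
    have h2 : A i 0 = 0 := by simp [A, bigM, hi]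
    rw [h2]; ring
  · simp

theorem bigM_update [DecidableEq (Fin (k + 1))] (v : Fin (k + 1) → Fin k → ℝ) (i : Fin (k + 1)) (x : Fin k → ℝ) :
    bigM (Function.update v i x) = (bigM v).updateRow i (Fin.cons 1 x) := by
  ext a b
  by_cases h : a = i
  · subst h
    rw [Matrix.updateRow_self]
    simp [bigM]
  · rw [Matrix.updateRow_ne h]
    simp [bigM, Function.update_of_ne h]

theorem det_update_convex (v : Fin (k + 1) → Fin k → ℝ) (i : Fin (k + 1)) :
    ConvexOn ℝ Set.univ (fun x : Fin k → ℝ => |(edgeM (Function.update v i x)).det|) := by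
  refine ⟨convex_univ, ?_⟩
  intro x _ y _ a b ha hb hab
  simp only [smul_eq_mul]
  have h1 : (edgeM (Function.update v i (a • x + b • y))).det =
      a * (edgeM (Function.update v i x)).det + b * (edgeM (Function.update v i y)).det := by
    rw [← det_bigM, ← det_bigM, ← det_bigM, bigM_update, bigM_update, bigM_update]
    have h2 : (Fin.cons 1 (a • x + b • y) : Fin (k + 1) → ℝ) =
        a • (Fin.cons 1 x : Fin (k + 1) → ℝ) + b • (Fin.cons 1 y : Fin (k + 1) → ℝ) := by
      funext j
      refine Fin.cases ?_ (fun j => ?_) j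
      · simp [hab]
      · simp
    rw [h2, Matrix.det_updateRow_add, Matrix.det_updateRow_smul, Matrix.det_updateRow_smul]
  rw [h1]
  calc |a * (edgeM (Function.update v i x)).det + b * (edgeM (Function.update v i y)).det|
      ≤ |a * (edgeM (Function.update v i x)).det| + |b * (edgeM (Function.update v i y)).det| :=
        abs_add_le _ _
    _ = _ := by rw [abs_mul, abs_mul, abs_of_nonneg ha, abs_of_nonneg hb]

theorem icc_eq_hull : Set.Icc (0 : Fin k → ℝ) 1 = convexHull ℝ (Set.range (toPt : V k → Fin k → ℝ)) := by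
  have h1 : Set.range (toPt : V k → Fin k → ℝ) = Set.pi Set.univ (fun _ => ({0, 1} : Set ℝ)) := by
    ext x
    simp only [Set.mem_range, Set.mem_pi, Set.mem_univ, forall_const, Set.mem_insert_iff,
      Set.mem_singleton_iff]
    constructor
    · rintro ⟨w, rfl⟩ j
      simp only [toPt]
      split_ifs <;> simp
    · intro h
      refine ⟨fun j => decide (x j = 1), ?_⟩
      funext j
      simp only [toPt, decide_eq_true_eq]
      rcases h j with h | h
      · simp [h]
      · simp [h]
  rw [h1, convexHull_pi]
  have h2 : convexHull ℝ ({0, 1} : Set ℝ) = Set.Icc 0 1 := by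
    rw [convexHull_pair, segment_eq_Icc zero_le_one]
  rw [h2, Set.pi_univ_Icc]
  rfl

theorem exists_vertices (v : Fin (k + 1) → Fin k → ℝ) (hv : ∀ i, v i ∈ Set.Icc (0 : Fin k → ℝ) 1) :
    ∃ w : Fin (k + 1) → V k, |(edgeM v).det| ≤ |(edgeM (fun i => toPt (w i))).det| := by
  classical
  have key : ∀ A : Finset (Fin (k + 1)), ∃ u : Fin (k + 1) → Fin k → ℝ,
      (∀ i, u i ∈ Set.Icc (0 : Fin k → ℝ) 1) ∧ (∀ i ∈ A, u i ∈ Set.range (toPt : V k → Fin k → ℝ)) ∧
      |(edgeM v).det| ≤ |(edgeM u).det| := by
    intro A
    induction A using Finset.induction_on with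
    | empty => exact ⟨v, hv, fun i hi => absurd hi (Finset.notMem_empty i), le_rfl⟩
    | insert i A hi ih =>
      obtain ⟨u, hu1, hu2, hu3⟩ := ih
      have h1 : u i ∈ convexHull ℝ (Set.range (toPt : V k → Fin k → ℝ)) := by
        rw [← icc_eq_hull]; exact hu1 i
      obtain ⟨y, hy, hle⟩ := (det_update_convex u i).exists_ge_of_mem_convexHull
        (Set.subset_univ _) h1
      rw [Function.update_eq_self] at hle
      refine ⟨Function.update u i y, ?_, ?_, hu3.trans hle⟩
      · intro a
        by_cases ha : a = i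
        · subst ha
          rw [Function.update_self, icc_eq_hull]
          exact subset_convexHull ℝ _ hy
        · rw [Function.update_of_ne ha]; exact hu1 a
      · intro a ha
        by_cases hai : a = i
        · subst hai
          rw [Function.update_self]; exact hy
        · rw [Function.update_of_ne hai]
          exact hu2 a ((Finset.mem_insert.1 ha).resolve_left hai)
  obtain ⟨u, -, hu2, hu3⟩ := key Finset.univ
  choose w hw using fun i => hu2 i (Finset.mem_univ i)
  refine ⟨w, ?_⟩
  have : (fun i => toPt (w i)) = u := by funext i; exact hw i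
  rw [this]; exact hu3

/-- symmetries preserve volume -/
theorem actR_preserving (g : G k) : MeasurePreserving (actR g : (Fin k → ℝ) → (Fin k → ℝ)) := by
  have h1 : MeasurePreserving (fun (a : Fin k → ℝ) (i : Fin k) =>
      (if g.2 i then fun t : ℝ => 1 - t else id) (a i)) := by
    apply volume_preserving_pi
    intro i
    split_ifs
    · exact volume.measurePreserving_sub_left 1
    · exact MeasurePreserving.id _
  have h2 := volume_measurePreserving_piCongrLeft (fun _ : Fin k => ℝ) g.1.symm
  have h3 := h1.comp h2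
  have h5 : (actR g : (Fin k → ℝ) → (Fin k → ℝ)) = (fun (a : Fin k → ℝ) (i : Fin k) =>
      (if g.2 i then fun t : ℝ => 1 - t else id) (a i)) ∘
      (MeasurableEquiv.piCongrLeft (fun _ : Fin k => ℝ) g.1.symm) := by
    funext x j
    simp only [Function.comp]
    have h4 : (MeasurableEquiv.piCongrLeft (fun _ : Fin k => ℝ) g.1.symm) x j = x (g.1 j) := by
      obtain ⟨i, rfl⟩ := g.1.symm.surjective j
      rw [MeasurableEquiv.coe_piCongrLeft, Equiv.piCongrLeft_apply_apply, Equiv.apply_symm_apply]
    rw [h4]
    unfold actR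
    split_ifs <;> rfl
  rw [h5]
  exact h3

theorem image_act (g : G k) (A : Set (Fin k → ℝ)) : actR g '' A = actR (inv g) ⁻¹' A := by
  ext x
  constructor
  · rintro ⟨y, hy, rfl⟩
    show actR (inv g) (actR g y) ∈ A
    rw [actR_inv_left]; exact hy
  · intro hx
    exact ⟨_, hx, actR_inv_right g x⟩

theorem hull_act (g : G k) (S : Finset (V k)) : hull (S.image (actV g)) = actR g '' hull S := by
  ext x
  constructor
  · intro hx
    refine ⟨actR (inv g) x, ?_, actR_inv_right g x⟩
    rw [← actR_mem_hull_iff g, actR_inv_right]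
    exact hx
  · rintro ⟨y, hy, rfl⟩
    exact (actR_mem_hull_iff g S y).2 hy

/-- normalized volume of the hull of a set of vertices -/
noncomputable def nvolV (S : Finset (V k)) : ℝ := k.factorial * (volume (hull S)).toReal

theorem nvolV_act (g : G k) (S : Finset (V k)) : nvolV (S.image (actV g)) = nvolV S := by
  unfold nvolV
  rw [hull_act, image_act]
  congr 2
  apply (actR_preserving (inv g)).measure_preimage
  have h1 : IsClosed (hull S) := by
    unfold hull
    exact ((S.finite_toSet).image _).isClosed_convexHull ℝ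
  exact h1.measurableSet.nullMeasurableSet

/-- determinant of a list of rows -/
def dt : ℕ → List (List ℤ) → ℤ
  | 0, _ => 1
  | n + 1, L => ((List.range (n + 1)).map (fun j =>
      (fun a : ℤ => bif a == 0 then 0 else
        (bif Nat.beq (j % 2) 0 then a else -a) * dt n (L.tail.map (fun r => r.eraseIdx j)))
      ((L.headD []).getD j 0))).sum

/-- matrix of a list of rows -/
def toM (n : ℕ) (L : List (List ℤ)) : Matrix (Fin n) (Fin n) ℤ :=
  Matrix.of fun i j => (L.getD i []).getD j 0

theorem getD_eraseIdx (r : List ℤ) (n : ℕ) (j : Fin (n + 1)) (i : Fin n) :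
    (r.eraseIdx j).getD i 0 = r.getD (j.succAbove i) 0 := by
  rw [List.getD_eq_getElem?_getD, List.getD_eq_getElem?_getD, List.getElem?_eraseIdx]
  by_cases h : (i : ℕ) < j
  · rw [if_pos h]
    congr 2
    rw [Fin.succAbove_of_castSucc_lt j i (by rw [Fin.lt_def]; simpa using h)]
    simp
  · rw [if_neg h]
    congr 2
    rw [Fin.succAbove_of_le_castSucc j i (by rw [Fin.le_def]; simpa using h)]
    simp

theorem dt_eq (n : ℕ) (L : List (List ℤ)) : dt n L = (toM n L).det := by
  induction n generalizing L with
  | zero => simp [dt]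
  | succ n ih =>
    rw [dt, Matrix.det_succ_row_zero]
    have h0 : ∀ (m : ℕ) (φ : ℕ → ℤ), ((List.range m).map φ).sum = ∑ p : Fin m, φ p := by
      intro m φ
      induction m with
      | zero => simp
      | succ m ihm =>
        rw [List.range_succ, List.map_append, List.sum_append, ihm, Fin.sum_univ_castSucc]
        simp
    rw [h0]
    apply Finset.sum_congr rfl
    intro j _
    have h1 : (toM (n + 1) L).submatrix Fin.succ j.succAbove =
        toM n (L.tail.map (fun r => r.eraseIdx j)) := by
      ext a b
      simp only [Matrix.submatrix_apply, toM, Matrix.of_apply]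
      have h2 : (L.tail.map (fun r => r.eraseIdx (j : ℕ))).getD a [] =
          (L.getD (a.succ : Fin (n + 1)) []).eraseIdx j := by
        rw [List.getD_eq_getElem?_getD, List.getElem?_map, List.getElem?_tail,
          List.getD_eq_getElem?_getD]
        simp only [Fin.val_succ]
        cases L[(a : ℕ) + 1]? <;> simp
      rw [h2, getD_eraseIdx]
    rw [h1, ← ih]
    have h3 : toM (n + 1) L 0 j = (L.headD []).getD j 0 := by
      simp only [toM, Matrix.of_apply]
      cases L <;> simp
    rw [h3]
    have h4 : (-1 : ℤ) ^ (j : ℕ) = if (j : ℕ) % 2 = 0 then 1 else -1 := by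
      rcases Nat.mod_two_eq_zero_or_one (j : ℕ) with h | h
      · rw [if_pos h, Even.neg_one_pow (Nat.even_iff.2 h)]
      · rw [if_neg (by omega), Odd.neg_one_pow (Nat.odd_iff.2 h)]
    rw [h4]
    generalize (L.headD []).getD (j : ℕ) 0 = a
    simp only
    by_cases ha : a = 0
    · subst ha; simp
    · have h5 : (a == 0) = false := by simpa using ha
      rw [h5, cond_false]
      rcases Nat.mod_two_eq_zero_or_one (j : ℕ) with h | h
      · rw [h]; simp
      · rw [h]
        have h6 : Nat.beq 1 0 = false := rfl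
        rw [h6, cond_false]
        simp

/-- rows of the edge matrix of a list of vertex codes -/
def rowsOf (k : ℕ) (l : List ℕ) : List (List ℤ) :=
  l.tail.map (fun n => (List.range k).map (fun j =>
    ((n >>> j) % 2 : ℕ) - (((l.headD 0) >>> j) % 2 : ℕ)))

theorem nvolV_list (hk : 0 < k) (l : List ℕ) (hl : l.length = k + 1) :
    nvolV (toFin k l) = ((dt k (rowsOf k l)).natAbs : ℝ) := by
  have hr : Set.range (fun i : Fin (k + 1) => toPt (decode k (l.getD i 0))) =
      toPt '' ((toFin k l : Finset (V k)) : Set (V k)) := by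
    ext x
    constructor
    · rintro ⟨i, rfl⟩
      refine ⟨_, ?_, rfl⟩
      rw [Finset.mem_coe, toFin, List.mem_toFinset]
      apply List.mem_map_of_mem
      rw [List.getD_eq_getElem _ _ (by rw [hl]; exact i.2)]
      exact List.getElem_mem _
    · rintro ⟨w, hw, rfl⟩
      rw [Finset.mem_coe, toFin, List.mem_toFinset] at hw
      obtain ⟨n, hn, rfl⟩ := List.mem_map.1 hw
      obtain ⟨i, hi, rfl⟩ := List.getElem_of_mem hn
      refine ⟨⟨i, by omega⟩, ?_⟩
      simp only
      rw [List.getD_eq_getElem _ _ hi]
  unfold nvolV hull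
  rw [← hr, vol_hull hk, ENNReal.toReal_ofReal (by positivity)]
  have hf : (0 : ℝ) < k.factorial := by exact_mod_cast Nat.factorial_pos k
  have h1 : (edgeM (fun i : Fin (k + 1) => toPt (decode k (l.getD i 0)))).det =
      ((dt k (rowsOf k l) : ℤ) : ℝ) := by
    rw [dt_eq, show (((toM k (rowsOf k l)).det : ℤ) : ℝ) =
      Int.castRingHom ℝ (toM k (rowsOf k l)).det from rfl, RingHom.map_det]
    congr 1
    ext i j
    simp only [edgeM, Matrix.of_apply, RingHom.mapMatrix_apply, Matrix.map_apply, toM, rowsOf,
      Int.coe_castRingHom]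
    have h2 : (l.tail.map (fun n => (List.range k).map (fun j =>
        ((((n >>> j) % 2 : ℕ) : ℤ) - ((((l.headD 0) >>> j) % 2 : ℕ) : ℤ))))).getD (i : ℕ) [] =
        (List.range k).map (fun j =>
          (((((l.getD ((i : ℕ) + 1) 0) >>> j) % 2 : ℕ) : ℤ) - ((((l.headD 0) >>> j) % 2 : ℕ) : ℤ))) := by
      have hi := i.2
      rw [List.getD_eq_getElem _ _ (by simp [hl]), List.getElem_map, List.getElem_tail,
        List.getD_eq_getElem _ _ (by omega)]
    have h4 : ∀ φ : ℕ → ℤ, ((List.range k).map φ).getD (j : ℕ) 0 = φ j := by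
      intro φ
      rw [List.getD_eq_getElem _ _ (by simp), List.getElem_map, List.getElem_range]
    rw [h2, h4, toPt_decode, toPt_decode]
    have h3 : l.headD 0 = l.getD 0 0 := by cases l <;> simp
    rw [h3, Int.cast_sub, Int.cast_natCast, Int.cast_natCast]
    rfl
  rw [h1, Nat.cast_natAbs, Int.cast_abs]
  field_simp

/-- check of the determinant of a class -/
def detOk (k β : ℕ) (l : List ℕ) : Bool := Nat.ble (dt k (rowsOf k l)).natAbs β

/-- The volume bound for all simplices in the cube. -/
theorem nvol_le (hk : 0 < k) (β : ℕ) (R : List (List ℕ)) (hlen : ∀ l ∈ R, l.length = k + 1)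
    (hR : Cls (k + 1) (R.map (toFin k))) (hdet : ∀ l ∈ R, detOk k β l = true)
    (s : Finset (Fin k → ℝ)) (hs : s.card = k + 1) (hcube : ∀ x ∈ s, x ∈ Set.Icc (0 : Fin k → ℝ) 1) :
    nvol k s ≤ β := by
  classical
  let e := (s.equivFinOfCardEq hs).symm
  let v : Fin (k + 1) → Fin k → ℝ := fun i => (e i : Fin k → ℝ)
  have hv : Set.range v = (s : Set (Fin k → ℝ)) := by
    ext x
    constructor
    · rintro ⟨i, rfl⟩; exact (e i).2
    · intro hx
      exact ⟨e.symm ⟨x, hx⟩, by simp [v]⟩
  rw [nvol_eq hk s v hv]
  obtain ⟨w, hw⟩ := exists_vertices v (fun i => hcube _ (e i).2)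
  refine hw.trans ?_
  by_cases hinj : Function.Injective w
  · have hc : (Finset.univ.image w).card = k + 1 := by
      rw [Finset.card_image_of_injective _ hinj]; simp
    obtain ⟨g, hg⟩ := hR _ hc
    obtain ⟨l, hl, hlS⟩ := List.mem_map.1 hg
    have h1 : |(edgeM (fun i => toPt (w i))).det| = nvolV (Finset.univ.image w) := by
      unfold nvolV hull
      have h2 : toPt '' ((Finset.univ.image w : Finset (V k)) : Set (V k)) =
          Set.range (fun i => toPt (w i)) := by
        ext x; simp
      rw [h2, vol_hull hk, ENNReal.toReal_ofReal (by positivity)]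
      have hf : (0 : ℝ) < k.factorial := by exact_mod_cast Nat.factorial_pos k
      field_simp
    rw [h1, ← nvolV_act g, ← hlS, nvolV_list hk l (hlen l hl)]
    exact_mod_cast Nat.le_of_ble_eq_true (hdet l hl)
  · have h0 : (edgeM (fun i => toPt (w i))).det = 0 := by
      simp only [Function.Injective, not_forall] at hinj
      obtain ⟨i, j, hij, hne⟩ := hinj
      rw [← det_bigM]
      apply Matrix.det_zero_of_row_eq hne
      funext b
      simp only [bigM, Matrix.of_apply, hij]
    rw [h0]; simp

end Pool.Agent.Lib.MP_727085_co
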