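import Pool.Agent.Lib.MP_727085_co.Defs

set_option autoImplicit false

namespace Pool.Agent.Lib.MP_727085_co

open Finset Topology

variable {d : ℕ}

/-- barycentric coordinates of a `d`-simplex in `ℝ^d`. -/
theorem exists_bary (t : Finset (Fin d → ℝ)) (hc : t.card = d + 1)
    (hi : AffineIndependent ℝ (fun x : t => (x : Fin d → ℝ))) :
    ∃ b : AffineBasis t ℝ (Fin d → ℝ), ∀ x : t, b x = (x : Fin d → ℝ) := by
  have htop : affineSpan ℝ (Set.range (fun x : t => (x : Fin d → ℝ))) = ⊤ := by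
    rw [hi.affineSpan_eq_top_iff_card_eq_finrank_add_one]
    simp [hc]
  exact ⟨⟨fun x : t => (x : Fin d → ℝ), hi, htop⟩, fun x => rfl⟩

theorem bary_hull {t : Finset (Fin d → ℝ)} (b : AffineBasis t ℝ (Fin d → ℝ))
    (hb : ∀ x : t, b x = (x : Fin d → ℝ)) (y : Fin d → ℝ) :
    y ∈ convexHull ℝ (t : Set (Fin d → ℝ)) ↔ ∀ x : t, 0 ≤ b.coord x y := by
  have h1 : (t : Set (Fin d → ℝ)) = Set.range b := by
    ext q
    constructor
    · intro hq; exact ⟨⟨q, hq⟩, hb _⟩
    · rintro ⟨x, rfl⟩; rw [hb]; exact x.2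
  rw [h1, b.convexHull_eq_nonneg_coord]
  rfl

/-- an affine function is the combination of its values at the vertices. -/
theorem affine_eq_sum {t : Finset (Fin d → ℝ)} (b : AffineBasis t ℝ (Fin d → ℝ))
    (hb : ∀ x : t, b x = (x : Fin d → ℝ)) (H : (Fin d → ℝ) →ᵃ[ℝ] ℝ) (y : Fin d → ℝ) :
    H y = ∑ x : t, b.coord x y * H x := by
  have h1 : ∑ x : t, b.coord x y • b x = y := b.linear_combination_coord_eq_self y
  have h2 : ∑ x : t, b.coord x y = 1 := b.sum_coord_apply_eq_one y
  have h3 : ∀ z, H z = H.linear z + H 0 := by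
    intro z
    have := H.map_vadd 0 z
    simpa using this
  rw [h3 y]
  conv_lhs => rw [← h1]
  rw [map_sum]
  simp only [map_smul, smul_eq_mul]
  have h4 : ∀ x : t, b.coord x y * H x =
      b.coord x y * H.linear (b x) + b.coord x y * H 0 := by
    intro x
    rw [h3 x, hb x]; ring
  rw [Finset.sum_congr rfl (fun x _ => h4 x), Finset.sum_add_distrib, ← Finset.sum_mul, h2,
    one_mul]

/-- If `H` vanishes at all vertices of `t` but `v`, then `H = H v * (coordinate of v)`. -/
theorem affine_eq_coord {t : Finset (Fin d → ℝ)} (b : AffineBasis t ℝ (Fin d → ℝ))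
    (hb : ∀ x : t, b x = (x : Fin d → ℝ)) (H : (Fin d → ℝ) →ᵃ[ℝ] ℝ) (v : t)
    (hH : ∀ x : t, x ≠ v → H x = 0) (y : Fin d → ℝ) : H y = b.coord v y * H v := by
  rw [affine_eq_sum b hb H y, Finset.sum_eq_single v]
  · intro x _ hx; rw [hH x hx, mul_zero]
  · simp

theorem coord_self {t : Finset (Fin d → ℝ)} (b : AffineBasis t ℝ (Fin d → ℝ))
    (hb : ∀ x : t, b x = (x : Fin d → ℝ)) (v : t) : b.coord v v = 1 := by
  have := b.coord_apply_eq v
  rwa [hb] at this

theorem coord_other {t : Finset (Fin d → ℝ)} (b : AffineBasis t ℝ (Fin d → ℝ))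
    (hb : ∀ x : t, b x = (x : Fin d → ℝ)) (v x : t) (hx : x ≠ v) : b.coord v x = 0 := by
  have := b.coord_apply_ne hx.symm
  rwa [hb] at this

/-- barycentric coordinates outside the support vanish. -/
theorem coord_zero_of_mem {t : Finset (Fin d → ℝ)} (b : AffineBasis t ℝ (Fin d → ℝ))
    (hb : ∀ x : t, b x = (x : Fin d → ℝ)) (A : Set (Fin d → ℝ)) (hA : A ⊆ t) (v : t)
    (hv : (v : Fin d → ℝ) ∉ A) (y : Fin d → ℝ) (hy : y ∈ convexHull ℝ A) : b.coord v y = 0 := by
  have h1 : A ⊆ {z | b.coord v z = 0} := by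
    intro z hz
    have := coord_other b hb v ⟨z, hA hz⟩ (by
      intro h
      apply hv
      rw [← h]; exact hz)
    exact this
  have h2 : Convex ℝ {z | b.coord v z = 0} := by
    have : {z | b.coord v z = 0} = (b.coord v) ⁻¹' {0} := rfl
    rw [this]
    exact (convex_singleton (0 : ℝ)).affine_preimage _
  exact convexHull_min h1 h2 hy

/-- near an interior point of a facet, one side of the facet lies in the simplex. -/
theorem side_mem {t : Finset (Fin d → ℝ)} (b : AffineBasis t ℝ (Fin d → ℝ))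
    (hb : ∀ x : t, b x = (x : Fin d → ℝ)) (v : t) (x0 : Fin d → ℝ)
    (hpos : ∀ x : t, x ≠ v → 0 < b.coord x x0) :
    ∀ᶠ y in 𝓝 x0, 0 ≤ b.coord v y → y ∈ convexHull ℝ (t : Set (Fin d → ℝ)) := by
  have h1 : ∀ᶠ y in 𝓝 x0, ∀ x : t, x ≠ v → 0 < b.coord x y := by
    rw [Filter.eventually_all]
    intro x
    by_cases hx : x = v
    · exact Filter.Eventually.of_forall (fun y h => absurd hx h)
    · have hcont : Continuous (b.coord x) := (b.coord x).continuous_of_finiteDimensional
      filter_upwards [hcont.continuousAt.eventually (lt_mem_nhds (hpos x hx))] with y hy _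
      exact hy
  filter_upwards [h1] with y hy hv
  rw [bary_hull b hb]
  intro x
  by_cases hx : x = v
  · rw [hx]; exact hv
  · exact (hy x hx).le

theorem facet_degree {T : Finset (Finset (Fin d → ℝ))} (hT : IsTriangulation d T)
    (hd : 0 < d) {s : Finset (Fin d → ℝ)} (hs : s ∈ T) {u : Fin d → ℝ} (hu : u ∈ s)
    (h0 : ∀ j, ∃ x ∈ s.erase u, x j ≠ 0) (h1 : ∀ j, ∃ x ∈ s.erase u, x j ≠ 1) :
    (T.filter (fun t => s.erase u ⊆ t)).card = 2 := by
  classical
  set φ := s.erase u with hφ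
  have hφc : φ.card = d := by
    rw [hφ, Finset.card_erase_of_mem hu, hT.card_vertices s hs]; rfl
  -- the cube contains all vertices
  have hcube : ∀ t ∈ T, ∀ x ∈ t, x ∈ Set.Icc (0 : Fin d → ℝ) 1 := by
    intro t ht x hx
    rw [← hT.union_eq]
    exact Set.mem_biUnion ht (subset_convexHull ℝ _ hx)
  have hφs : φ ⊆ s := Finset.erase_subset _ _
  -- the centroid
  set x0 : Fin d → ℝ := (d : ℝ)⁻¹ • ∑ x ∈ φ, x with hx0
  have hdpos : (0 : ℝ) < d := by exact_mod_cast hd
  have hx0j : ∀ j, x0 j = (d : ℝ)⁻¹ * ∑ x ∈ φ, x j := by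
    intro j; simp [hx0, Finset.sum_apply]
  have hin : ∀ j, 0 < x0 j ∧ x0 j < 1 := by
    intro j
    rw [hx0j]
    constructor
    · apply mul_pos (inv_pos.2 hdpos)
      obtain ⟨x, hx, hxj⟩ := h0 j
      apply Finset.sum_pos'
      · intro y hy; exact (hcube s hs y (hφs hy)).1 j
      · exact ⟨x, hx, lt_of_le_of_ne ((hcube s hs x (hφs hx)).1 j) (Ne.symm hxj)⟩
    · obtain ⟨x, hx, hxj⟩ := h1 j
      have : ∑ x ∈ φ, x j < ∑ x ∈ φ, (1 : ℝ) := by
        apply Finset.sum_lt_sum
        · intro y hy; exact (hcube s hs y (hφs hy)).2 j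
        · exact ⟨x, hx, lt_of_le_of_ne ((hcube s hs x (hφs hx)).2 j) hxj⟩
      rw [Finset.sum_const, hφc, nsmul_eq_mul, mul_one] at this
      rw [inv_mul_lt_iff₀ hdpos]
      simpa using this
  -- value of an affine function at the centroid
  have haff : ∀ H : (Fin d → ℝ) →ᵃ[ℝ] ℝ, H x0 = (d : ℝ)⁻¹ * ∑ x ∈ φ, H x := by
    intro H
    have h3 : ∀ z, H z = H.linear z + H 0 := by
      intro z
      have := H.map_vadd 0 z
      simpa using this
    rw [h3 x0, hx0, map_smul, map_sum, smul_eq_mul]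
    rw [Finset.sum_congr rfl (fun x _ => h3 x), Finset.sum_add_distrib, Finset.sum_const, hφc,
      nsmul_eq_mul, mul_add]
    congr 1
    field_simp
  clear_value x0
  -- coordinates of the centroid in a simplex containing φ
  have hcoord : ∀ t ∈ T, φ ⊆ t → ∀ b : AffineBasis t ℝ (Fin d → ℝ),
      (∀ x : t, b x = (x : Fin d → ℝ)) → ∀ x : t, (x : Fin d → ℝ) ∈ φ →
        b.coord x x0 = (d : ℝ)⁻¹ := by
    intro t ht hφt b hb x hx
    rw [haff, Finset.sum_eq_single (x : Fin d → ℝ)]
    · rw [coord_self b hb x, mul_one]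
    · intro y hy hyx
      exact coord_other b hb x ⟨y, hφt hy⟩ (fun h => hyx (by rw [← h]))
    · intro h; exact absurd hx h
  -- simplices containing the centroid contain φ
  obtain ⟨bs, hbs⟩ := exists_bary s (hT.card_vertices s hs) (hT.independent s hs)
  have hx0s : x0 ∈ convexHull ℝ (s : Set (Fin d → ℝ)) := by
    rw [bary_hull bs hbs]
    intro x
    by_cases hx : (x : Fin d → ℝ) ∈ φ
    · rw [hcoord s hs hφs bs hbs x hx]; exact (inv_pos.2 hdpos).le
    · rw [haff]
      apply mul_nonneg (inv_pos.2 hdpos).le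
      apply Finset.sum_nonneg
      intro y hy
      rw [coord_other bs hbs x ⟨y, hφs hy⟩ (fun h => hx (by rw [← h]; exact hy))]
  have hcont : ∀ t ∈ T, x0 ∈ convexHull ℝ (t : Set (Fin d → ℝ)) → φ ⊆ t := by
    intro t ht hxt x hx
    have h2 : x0 ∈ convexHull ℝ ((s : Set (Fin d → ℝ)) ∩ t) := by
      rw [← hT.face_to_face s hs t ht]; exact ⟨hx0s, hxt⟩
    by_contra hcon
    have h3 := coord_zero_of_mem bs hbs _ Set.inter_subset_left ⟨x, hφs hx⟩
      (fun h => hcon h.2) x0 h2
    rw [hcoord s hs hφs bs hbs ⟨x, hφs hx⟩ hx] at h3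
    exact (inv_pos.2 hdpos).ne' h3
  -- the affine function
  let H : (Fin d → ℝ) →ᵃ[ℝ] ℝ := bs.coord ⟨u, hu⟩
  have hHφ : ∀ x ∈ φ, H x = 0 := by
    intro x hx
    exact coord_other bs hbs ⟨u, hu⟩ ⟨x, hφs hx⟩ (fun h => by
      have h4 : x = u := congrArg Subtype.val h
      rw [h4, hφ] at hx
      exact Finset.notMem_erase u s hx)
  have hHu : H u = 1 := coord_self bs hbs ⟨u, hu⟩
  have hHx0 : H x0 = 0 := by
    rw [haff, Finset.sum_eq_zero (fun x hx => hHφ x hx), mul_zero]
  have hHcont : Continuous H := H.continuous_of_finiteDimensional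
  -- the extra vertex
  have hextra : ∀ t ∈ T, φ ⊆ t → ∃ v ∈ t, v ∉ φ ∧ ∀ x ∈ t, x ≠ v → x ∈ φ := by
    intro t ht hφt
    have h5 : (t \ φ).card = 1 := by
      rw [Finset.card_sdiff_of_subset hφt, hφc, hT.card_vertices t ht]; omega
    obtain ⟨v, hv⟩ := Finset.card_eq_one.1 h5
    have hv1 : v ∈ t \ φ := by rw [hv]; simp
    rw [Finset.mem_sdiff] at hv1
    refine ⟨v, hv1.1, hv1.2, ?_⟩
    intro x hx hxv
    by_contra hxφ
    have : x ∈ t \ φ := Finset.mem_sdiff.2 ⟨hx, hxφ⟩
    rw [hv, Finset.mem_singleton] at this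
    exact hxv this
  -- H on a simplex containing φ
  have hHt : ∀ t ∈ T, φ ⊆ t → ∀ b : AffineBasis t ℝ (Fin d → ℝ),
      (∀ x : t, b x = (x : Fin d → ℝ)) → ∀ v : t, (∀ x ∈ t, x ≠ (v : Fin d → ℝ) → x ∈ φ) →
        ∀ y, H y = b.coord v y * H v := by
    intro t ht hφt b hb v hv y
    apply affine_eq_coord b hb H v
    intro x hx
    exact hHφ x (hv x x.2 (fun h => hx (Subtype.ext h)))
  -- uniqueness on a side
  have huniq : ∀ t ∈ T, ∀ t' ∈ T, φ ⊆ t → φ ⊆ t' → ∀ v ∈ t, ∀ v' ∈ t',
      (∀ x ∈ t, x ≠ v → x ∈ φ) → (∀ x ∈ t', x ≠ v' → x ∈ φ) → 0 < H v * H v' → t = t' := by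
    intro t ht t' ht' hφt hφt' v hv v' hv' hvt hvt' hpos
    by_contra hne
    obtain ⟨b, hb⟩ := exists_bary t (hT.card_vertices t ht) (hT.independent t ht)
    obtain ⟨b', hb'⟩ := exists_bary t' (hT.card_vertices t' ht') (hT.independent t' ht')
    have e1 := side_mem b hb ⟨v, hv⟩ x0 (fun x hx => by
      rw [hcoord t ht hφt b hb x (hvt x x.2 (fun h => hx (Subtype.ext h)))]
      exact inv_pos.2 hdpos)
    have e2 := side_mem b' hb' ⟨v', hv'⟩ x0 (fun x hx => by
      rw [hcoord t' ht' hφt' b' hb' x (hvt' x x.2 (fun h => hx (Subtype.ext h)))]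
      exact inv_pos.2 hdpos)
    -- a point near x0 in the direction of v
    have hlim : Filter.Tendsto (fun ε : ℝ => x0 + ε • (v - x0)) (𝓝[>] 0) (𝓝 x0) := by
      have : Filter.Tendsto (fun ε : ℝ => x0 + ε • (v - x0)) (𝓝 0) (𝓝 (x0 + (0 : ℝ) • (v - x0))) :=
        (continuous_const.add (continuous_id.smul continuous_const)).tendsto 0
      rw [zero_smul, add_zero] at this
      exact this.mono_left nhdsWithin_le_nhds
    have e3 := hlim.eventually (e1.and e2)
    obtain ⟨ε, hε, he⟩ := (e3.and self_mem_nhdsWithin).exists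
    have hεpos : (0 : ℝ) < ε := he
    have hHy : H (x0 + ε • (v - x0)) = ε * H v := by
      have h3 : ∀ z, H z = H.linear z + H 0 := by
        intro z
        have := H.map_vadd 0 z
        simpa using this
      have h6 := h3 x0
      have h7 := h3 v
      rw [h3, map_add, map_smul, map_sub, smul_eq_mul]
      rw [hHx0] at h6
      rw [h7]
      linear_combination (ε - 1) * h6
    have hvv : H v ≠ 0 := by
      intro h; rw [h, zero_mul] at hpos; exact lt_irrefl _ hpos
    have hvv' : H v' ≠ 0 := by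
      intro h; rw [h, mul_zero] at hpos; exact lt_irrefl _ hpos
    have m1 : x0 + ε • (v - x0) ∈ convexHull ℝ (t : Set (Fin d → ℝ)) := by
      apply hε.1
      have h8 := hHt t ht hφt b hb ⟨v, hv⟩ hvt (x0 + ε • (v - x0))
      rw [hHy] at h8
      have h9 : b.coord ⟨v, hv⟩ (x0 + ε • (v - x0)) = ε := by
        have h10 : (b.coord ⟨v, hv⟩ (x0 + ε • (v - x0)) - ε) * H v = 0 := by
          simp only at h8
          rw [sub_mul]
          linarith
        rcases mul_eq_zero.1 h10 with h11 | h11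
        · linarith
        · exact absurd h11 hvv
      rw [h9]; exact hεpos.le
    have m2 : x0 + ε • (v - x0) ∈ convexHull ℝ (t' : Set (Fin d → ℝ)) := by
      apply hε.2
      have h8 := hHt t' ht' hφt' b' hb' ⟨v', hv'⟩ hvt' (x0 + ε • (v - x0))
      rw [hHy] at h8
      simp only at h8
      by_contra hneg
      push Not at hneg
      have h12 : (ε * H v) * H v' = b'.coord ⟨v', hv'⟩ (x0 + ε • (v - x0)) * (H v' * H v') := by
        rw [h8]; ring
      have h13 : 0 < (ε * H v) * H v' := by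
        have : (ε * H v) * H v' = ε * (H v * H v') := by ring
        rw [this]; exact mul_pos hεpos hpos
      have h14 : b'.coord ⟨v', hv'⟩ (x0 + ε • (v - x0)) * (H v' * H v') < 0 :=
        mul_neg_of_neg_of_pos hneg (mul_self_pos.2 hvv')
      linarith
    have m3 : x0 + ε • (v - x0) ∈ convexHull ℝ ((t : Set (Fin d → ℝ)) ∩ t') := by
      rw [← hT.face_to_face t ht t' ht']; exact ⟨m1, m2⟩
    have hvt'' : v ∉ t' := by
      intro hcon
      apply hne
      have hsub : t ⊆ t' := by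
        intro x hx
        by_cases hxv : x = v
        · rw [hxv]; exact hcon
        · exact hφt' (hvt x hx hxv)
      exact Finset.eq_of_subset_of_card_le hsub
        (by rw [hT.card_vertices t ht, hT.card_vertices t' ht'])
    have m4 : b.coord ⟨v, hv⟩ (x0 + ε • (v - x0)) = 0 :=
      coord_zero_of_mem b hb _ Set.inter_subset_left ⟨v, hv⟩ (fun h => hvt'' h.2) _ m3
    have h8 := hHt t ht hφt b hb ⟨v, hv⟩ hvt (x0 + ε • (v - x0))
    rw [hHy, m4, zero_mul] at h8
    rcases mul_eq_zero.1 h8 with h | h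
    · exact hεpos.ne' h
    · exact hvv h
  -- existence on the negative side
  obtain ⟨t1, ht1, hφt1, v1, hv1, hvt1, hneg⟩ : ∃ t1 ∈ T, φ ⊆ t1 ∧ ∃ v1 ∈ t1,
      (∀ x ∈ t1, x ≠ v1 → x ∈ φ) ∧ H v1 < 0 := by
    have ev1 : ∀ᶠ y in 𝓝 x0, ∀ t ∈ T, y ∈ convexHull ℝ (t : Set (Fin d → ℝ)) →
        x0 ∈ convexHull ℝ (t : Set (Fin d → ℝ)) := by
      rw [Filter.eventually_all_finset]
      intro t ht
      by_cases hxt : x0 ∈ convexHull ℝ (t : Set (Fin d → ℝ))
      · exact Filter.Eventually.of_forall (fun _ _ => hxt)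
      · have hcl : IsClosed (convexHull ℝ (t : Set (Fin d → ℝ))) :=
          t.finite_toSet.isClosed_convexHull ℝ
        filter_upwards [hcl.isOpen_compl.mem_nhds hxt] with y hy hy'
        exact absurd hy' hy
    have ev2 : ∀ᶠ y in 𝓝 x0, y ∈ Set.Icc (0 : Fin d → ℝ) 1 := by
      have : ∀ᶠ y in 𝓝 x0, ∀ j, 0 < y j ∧ y j < 1 := by
        rw [Filter.eventually_all]
        intro j
        have hc : Continuous (fun y : Fin d → ℝ => y j) := continuous_apply j
        exact (hc.continuousAt.eventually (lt_mem_nhds (hin j).1)).and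
          (hc.continuousAt.eventually (gt_mem_nhds (hin j).2))
      filter_upwards [this] with y hy
      exact ⟨fun j => (hy j).1.le, fun j => (hy j).2.le⟩
    have hlim : Filter.Tendsto (fun ε : ℝ => x0 + ε • (x0 - u)) (𝓝[>] 0) (𝓝 x0) := by
      have : Filter.Tendsto (fun ε : ℝ => x0 + ε • (x0 - u)) (𝓝 0) (𝓝 (x0 + (0 : ℝ) • (x0 - u))) :=
        (continuous_const.add (continuous_id.smul continuous_const)).tendsto 0
      rw [zero_smul, add_zero] at this
      exact this.mono_left nhdsWithin_le_nhds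
    have e3 := hlim.eventually (ev1.and ev2)
    obtain ⟨ε, hε, he⟩ := (e3.and self_mem_nhdsWithin).exists
    have hεpos : (0 : ℝ) < ε := he
    have hHy : H (x0 + ε • (x0 - u)) = - ε := by
      have h3 : ∀ z, H z = H.linear z + H 0 := by
        intro z
        have := H.map_vadd 0 z
        simpa using this
      have h6 := h3 x0
      have h7 := h3 u
      rw [hHx0] at h6
      rw [hHu] at h7
      rw [h3, map_add, map_smul, map_sub, smul_eq_mul]
      linear_combination (-(1 + ε)) * h6 + ε * h7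
    have hmem := hε.2
    rw [← hT.union_eq] at hmem
    obtain ⟨t, ht, hyt⟩ := Set.mem_iUnion₂.1 hmem
    have hφt := hcont t ht (hε.1 t ht hyt)
    obtain ⟨v, hv, -, hvt⟩ := hextra t ht hφt
    refine ⟨t, ht, hφt, v, hv, hvt, ?_⟩
    obtain ⟨b, hb⟩ := exists_bary t (hT.card_vertices t ht) (hT.independent t ht)
    have h8 := hHt t ht hφt b hb ⟨v, hv⟩ hvt (x0 + ε • (x0 - u))
    rw [hHy] at h8
    simp only at h8
    have h9 := (bary_hull b hb _).1 hyt ⟨v, hv⟩
    by_contra hcon
    push Not at hcon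
    have := mul_nonneg h9 hcon
    linarith
  have hfil : T.filter (fun t => φ ⊆ t) = {s, t1} := by
    ext t
    simp only [Finset.mem_filter, Finset.mem_insert, Finset.mem_singleton]
    constructor
    · rintro ⟨ht, hφt⟩
      obtain ⟨v, hv, hvφ, hvt⟩ := hextra t ht hφt
      have hHv : H v ≠ 0 := by
        intro h
        obtain ⟨b, hb⟩ := exists_bary t (hT.card_vertices t ht) (hT.independent t ht)
        have h8 := hHt t ht hφt b hb ⟨v, hv⟩ hvt u
        rw [hHu] at h8
        simp only at h8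
        rw [h, mul_zero] at h8
        exact one_ne_zero h8
      rcases lt_or_gt_of_ne hHv with h | h
      · right
        exact huniq t ht t1 ht1 hφt hφt1 v hv v1 hv1 hvt hvt1 (mul_pos_of_neg_of_neg h hneg)
      · left
        refine huniq t ht s hs hφt hφs v hv u hu hvt ?_ (by rw [hHu, mul_one]; exact h)
        intro x hx hxu
        rw [hφ, Finset.mem_erase]; exact ⟨hxu, hx⟩
    · rintro (rfl | rfl)
      · exact ⟨hs, hφs⟩
      · exact ⟨ht1, hφt1⟩
  rw [hfil, Finset.card_pair]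
  rintro rfl
  -- s on the negative side is impossible
  have hv1u : v1 = u := by
    by_contra hne
    have h3 : v1 ∈ φ := by
      rw [hφ, Finset.mem_erase]; exact ⟨hne, hv1⟩
    have := hHφ v1 h3
    linarith
  rw [hv1u, hHu] at hneg
  linarith

end Pool.Agent.Lib.MP_727085_co
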