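import Pool.Agent.Lib.MP_727085_co.Moves
import Pool.Agent.Lib.MP_727085_co.Facet

set_option autoImplicit false

namespace Pool.Agent.Lib.MP_727085_co

open Finset Topology

variable {d : ℕ}

/-- A relabelling that keeps every face of the cube. -/
def FaceMap (d : ℕ) (mu : (Fin d → ℝ) → (Fin d → ℝ)) : Prop :=
  ∀ v j, (v j = 0 → mu v j = 0) ∧ (v j = 1 → mu v j = 1)

/-- parity of the number of images of simplices that contain `p`. -/
noncomputable def par (T : Finset (Finset (Fin d → ℝ))) (mu : (Fin d → ℝ) → (Fin d → ℝ))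
    (p : Fin d → ℝ) : ZMod 2 :=
  ∑ s ∈ T, chi (p ∈ convexHull ℝ (mu '' (s : Set (Fin d → ℝ))))

theorem not_mem_hull_of_coord (A : Set (Fin d → ℝ)) (j : Fin d) (c : ℝ)
    (hA : ∀ x ∈ A, x j = c) (p : Fin d → ℝ) (hp : p j ≠ c) : p ∉ convexHull ℝ A := by
  intro h
  have hconv : Convex ℝ {x : Fin d → ℝ | x j = c} := by
    intro x hx y hy a b _ _ hab
    have hx' : x j = c := hx
    have hy' : y j = c := hy
    show (a • x + b • y) j = c
    simp only [Pi.add_apply, Pi.smul_apply, smul_eq_mul, hx', hy']
    rw [← add_mul, hab, one_mul]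
  exact hp (convexHull_min (fun x hx => hA x hx) hconv h)

theorem zmod2_two_nsmul (a : ZMod 2) : (2 : ℕ) • a = 0 := by
  revert a; decide

theorem par_update {T : Finset (Finset (Fin d → ℝ))} (hT : IsTriangulation d T) (hd : 0 < d)
    (mu : (Fin d → ℝ) → (Fin d → ℝ)) (hmu : FaceMap d mu) (v w' : Fin d → ℝ)
    (hw : ∀ j, (v j = 0 → w' j = 0) ∧ (v j = 1 → w' j = 1)) (p : Fin d → ℝ)
    (hp : ∀ j, 0 < p j ∧ p j < 1) (L : Set (Fin d → ℝ)) (hgen : GenPos d L p) (hwL : w' ∈ L)
    (hmuL : ∀ s ∈ T, ∀ x ∈ s, mu x ∈ L) :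
    par T (Function.update mu v w') p = par T mu p := by
  classical
  -- the facet function
  let G : Finset (Fin d → ℝ) → ZMod 2 := fun φ =>
    chi (p ∈ convexHull ℝ (insert w' (mu '' (φ : Set (Fin d → ℝ)))))
  have hstep : ∀ s ∈ T, chi (p ∈ convexHull ℝ (Function.update mu v w' '' (s : Set (Fin d → ℝ))))
      + chi (p ∈ convexHull ℝ (mu '' (s : Set (Fin d → ℝ)))) =
      if v ∈ s then ∑ x ∈ s.erase v, G (s.erase x) else 0 := by
    intro s hs
    by_cases hv : v ∈ s
    · rw [if_pos hv]
      have h1 := parity_simplex s (hT.card_vertices s hs) mu w' p L hgen hwL (hmuL s hs)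
      rw [← Finset.add_sum_erase s _ hv] at h1
      have h2 : (Function.update mu v w' '' (s : Set (Fin d → ℝ))) =
          insert w' (mu '' ((s.erase v : Finset (Fin d → ℝ)) : Set (Fin d → ℝ))) := by
        ext q
        constructor
        · rintro ⟨x, hx, rfl⟩
          by_cases hxv : x = v
          · subst hxv; left; simp
          · right
            refine ⟨x, ?_, ?_⟩
            · rw [Finset.mem_coe, Finset.mem_erase]; exact ⟨hxv, hx⟩
            · rw [Function.update_of_ne hxv]
        · rintro (rfl | ⟨x, hx, rfl⟩)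
          · exact ⟨v, hv, by simp⟩
          · rw [Finset.mem_coe, Finset.mem_erase] at hx
            exact ⟨x, hx.2, by rw [Function.update_of_ne hx.1]⟩
      rw [h2]
      have h3 : ∀ a b c : ZMod 2, a + (b + c) = 0 → b + a = c := by decide
      exact h3 _ _ _ h1
    · rw [if_neg hv]
      have h2 : (Function.update mu v w' '' (s : Set (Fin d → ℝ))) =
          mu '' (s : Set (Fin d → ℝ)) := by
        apply Set.image_congr
        intro x hx
        rw [Function.update_of_ne]
        rintro rfl
        exact hv hx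
      rw [h2]
      have h3 : ∀ a : ZMod 2, a + a = 0 := by decide
      exact h3 _
  have hsum : par T (Function.update mu v w') p + par T mu p =
      ∑ s ∈ T, if v ∈ s then ∑ x ∈ s.erase v, G (s.erase x) else 0 := by
    unfold par
    rw [← Finset.sum_add_distrib]
    exact Finset.sum_congr rfl hstep
  have hzero : (∑ s ∈ T, if v ∈ s then ∑ x ∈ s.erase v, G (s.erase x) else 0) = 0 := by
    rw [← Finset.sum_filter]
    have h1 : ∑ s ∈ T.filter (fun s => v ∈ s), ∑ x ∈ s.erase v, G (s.erase x) =
        ∑ q ∈ (T.filter (fun s => v ∈ s)).sigma (fun s => s.erase v), G (q.1.erase q.2) := by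
      rw [Finset.sum_sigma]
    rw [h1, Finset.sum_comp G (fun q : (Σ _ : Finset (Fin d → ℝ), (Fin d → ℝ)) => q.1.erase q.2)]
    apply Finset.sum_eq_zero
    intro φ hφ
    rw [Finset.mem_image] at hφ
    obtain ⟨⟨s0, x0⟩, hq, rfl⟩ := hφ
    rw [Finset.mem_sigma, Finset.mem_filter, Finset.mem_erase] at hq
    obtain ⟨⟨hs0, hv0⟩, hx0v, hx0⟩ := hq
    simp only
    simp only at hs0 hv0 hx0v hx0
    have hvφ : v ∈ s0.erase x0 := Finset.mem_erase.2 ⟨hx0v.symm, hv0⟩
    by_cases hbd : (∃ j, ∀ x ∈ s0.erase x0, x j = 0) ∨ (∃ j, ∀ x ∈ s0.erase x0, x j = 1)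
    · have hG : G (s0.erase x0) = 0 := by
        apply chi_false
        rcases hbd with ⟨j, hj⟩ | ⟨j, hj⟩
        · apply not_mem_hull_of_coord _ j 0 _ p (hp j).1.ne'
          rintro y (rfl | ⟨x, hx, rfl⟩)
          · exact (hw j).1 (hj v hvφ)
          · exact (hmu x j).1 (hj x hx)
        · apply not_mem_hull_of_coord _ j 1 _ p (hp j).2.ne
          rintro y (rfl | ⟨x, hx, rfl⟩)
          · exact (hw j).2 (hj v hvφ)
          · exact (hmu x j).2 (hj x hx)
      rw [hG, smul_zero]
    · push Not at hbd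
      have hdeg := facet_degree hT hd hs0 hx0 hbd.1 hbd.2
      have hcardeq : (((T.filter (fun s => v ∈ s)).sigma (fun s => s.erase v)).filter
          (fun q : (Σ _ : Finset (Fin d → ℝ), (Fin d → ℝ)) =>
            q.1.erase q.2 = s0.erase x0)).card =
          (T.filter (fun t => s0.erase x0 ⊆ t)).card := by
        apply Finset.card_bij (fun q _ => q.1)
        · rintro ⟨s, x⟩ hq
          rw [Finset.mem_filter, Finset.mem_sigma, Finset.mem_filter, Finset.mem_erase] at hq
          rw [Finset.mem_filter]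
          refine ⟨hq.1.1.1, ?_⟩
          rw [← hq.2]
          exact Finset.erase_subset _ _
        · rintro ⟨s, x⟩ hq ⟨s', x'⟩ hq' heq
          rw [Finset.mem_filter, Finset.mem_sigma, Finset.mem_filter, Finset.mem_erase] at hq hq'
          simp only at heq
          subst heq
          have h4 : s.erase x = s.erase x' := hq.2.trans hq'.2.symm
          have h5 : x = x' := by
            by_contra hne
            have : x ∈ s.erase x' := Finset.mem_erase.2 ⟨hne, hq.1.2.2⟩
            rw [← h4] at this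
            exact Finset.notMem_erase x s this
          rw [h5]
        · intro t ht
          rw [Finset.mem_filter] at ht
          have h6 : (t \ (s0.erase x0)).card = 1 := by
            rw [Finset.card_sdiff_of_subset ht.2, Finset.card_erase_of_mem hx0,
              hT.card_vertices t ht.1, hT.card_vertices s0 hs0]
            omega
          obtain ⟨y, hy⟩ := Finset.card_eq_one.1 h6
          have hy1 : y ∈ t \ (s0.erase x0) := by rw [hy]; simp
          rw [Finset.mem_sdiff] at hy1
          have hyv : y ≠ v := by rintro rfl; exact hy1.2 hvφ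
          refine ⟨⟨t, y⟩, ?_, rfl⟩
          rw [Finset.mem_filter, Finset.mem_sigma, Finset.mem_filter, Finset.mem_erase]
          refine ⟨⟨⟨ht.1, ht.2 hvφ⟩, hyv, hy1.1⟩, ?_⟩
          simp only
          ext z
          rw [Finset.mem_erase]
          constructor
          · rintro ⟨hzy, hzt⟩
            by_contra hz
            have : z ∈ t \ (s0.erase x0) := Finset.mem_sdiff.2 ⟨hzt, hz⟩
            rw [hy, Finset.mem_singleton] at this
            exact hzy this
          · intro hz
            refine ⟨?_, ht.2 hz⟩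
            rintro rfl
            exact hy1.2 hz
      rw [hcardeq, hdeg]
      exact zmod2_two_nsmul _
  rw [hzero] at hsum
  have h3 : ∀ a b : ZMod 2, a + b = 0 → a = b := by decide
  exact h3 _ _ hsum

/-- the identity labelling covers a generic point exactly once. -/
theorem par_id {T : Finset (Finset (Fin d → ℝ))} (hT : IsTriangulation d T)
    (p : Fin d → ℝ) (hp : p ∈ Set.Icc (0 : Fin d → ℝ) 1) (L : Set (Fin d → ℝ))
    (hgen : GenPos d L p) (hL : ∀ s ∈ T, ∀ x ∈ s, x ∈ L) : par T id p = 1 := by
  classical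
  rw [← hT.union_eq] at hp
  obtain ⟨s, hs, hps⟩ := Set.mem_iUnion₂.1 hp
  unfold par
  rw [Finset.sum_eq_single s]
  · rw [Set.image_id]; exact chi_true hps
  · intro t ht hts
    rw [Set.image_id]
    apply chi_false
    intro hpt
    have h1 : p ∈ convexHull ℝ ((s : Set (Fin d → ℝ)) ∩ t) := by
      rw [← hT.face_to_face s hs t ht]; exact ⟨hps, hpt⟩
    rw [← Finset.coe_inter] at h1
    refine hgen (s ∩ t) ?_ ?_ h1
    · intro x hx
      rw [Finset.coe_inter] at hx
      exact hL s hs x hx.1
    · have h2 : (s ∩ t).card < s.card := by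
        apply Finset.card_lt_card
        refine ⟨Finset.inter_subset_left, ?_⟩
        intro h
        apply hts
        symm
        apply Finset.eq_of_subset_of_card_le (fun x hx => (Finset.mem_inter.1 (h hx)).2)
        rw [hT.card_vertices s hs, hT.card_vertices t ht]
      rw [hT.card_vertices s hs] at h2
      omega
  · intro h; exact absurd hs h

theorem par_label {T : Finset (Finset (Fin d → ℝ))} (hT : IsTriangulation d T) (hd : 0 < d)
    (lam : (Fin d → ℝ) → (Fin d → ℝ)) (hlam : FaceMap d lam) (p : Fin d → ℝ)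
    (hp : ∀ j, 0 < p j ∧ p j < 1) (L : Set (Fin d → ℝ)) (hgen : GenPos d L p)
    (hL : ∀ s ∈ T, ∀ x ∈ s, x ∈ L ∧ lam x ∈ L) : par T lam p = 1 := by
  classical
  let V : Finset (Fin d → ℝ) := T.biUnion id
  have hVmem : ∀ x ∈ V, x ∈ L ∧ lam x ∈ L := by
    intro x hx
    obtain ⟨s, hs, hxs⟩ := Finset.mem_biUnion.1 hx
    exact hL s hs x hxs
  let mu : Finset (Fin d → ℝ) → (Fin d → ℝ) → (Fin d → ℝ) := fun A x =>
    if x ∈ A then lam x else x
  have hface : ∀ A, FaceMap d (mu A) := by
    intro A v j
    simp only [mu]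
    split_ifs
    · exact hlam v j
    · exact ⟨id, id⟩
  have key : ∀ A : Finset (Fin d → ℝ), A ⊆ V → par T (mu A) p = 1 := by
    intro A
    induction A using Finset.induction_on with
    | empty =>
      intro _
      have h1 : mu ∅ = id := by
        funext x; simp [mu]
      rw [h1]
      exact par_id hT p ⟨fun j => (hp j).1.le, fun j => (hp j).2.le⟩ L hgen
        (fun s hs x hx => (hL s hs x hx).1)
    | insert v A hv ih =>
      intro hsub
      have hA : A ⊆ V := fun x hx => hsub (Finset.mem_insert_of_mem hx)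
      have hvV : v ∈ V := hsub (Finset.mem_insert_self _ _)
      have h1 : mu (insert v A) = Function.update (mu A) v (lam v) := by
        funext x
        by_cases hx : x = v
        · subst hx; simp [mu]
        · rw [Function.update_of_ne hx]
          simp [mu, hx]
      rw [h1, par_update hT hd (mu A) (hface A) v (lam v) (hlam v) p hp L hgen (hVmem v hvV).2,
        ih hA]
      intro s hs x hx
      simp only [mu]
      split_ifs
      · exact (hL s hs x hx).2
      · exact (hL s hs x hx).1
  have h2 := key V (Finset.Subset.refl _)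
  have h3 : par T (mu V) p = par T lam p := by
    unfold par
    apply Finset.sum_congr rfl
    intro s hs
    have h4 : (mu V) '' (s : Set (Fin d → ℝ)) = lam '' (s : Set (Fin d → ℝ)) := by
      apply Set.image_congr
      intro x hx
      have : x ∈ V := Finset.mem_biUnion.2 ⟨s, hs, hx⟩
      simp [mu, this]
    rw [h4]
  rw [← h3]; exact h2

/-- hulls of at most `d` points are null sets. -/
theorem hull_null (A : Finset (Fin d → ℝ)) (hA : A.card ≤ d) :
    MeasureTheory.volume (convexHull ℝ (A : Set (Fin d → ℝ))) = 0 := by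
  classical
  have h1 : affineSpan ℝ (A : Set (Fin d → ℝ)) ≠ ⊤ := by
    intro htop
    rcases Finset.eq_empty_or_nonempty A with rfl | hne
    · simp only [Finset.coe_empty, AffineSubspace.span_empty] at htop
      exact AffineSubspace.bot_ne_top ℝ (Fin d → ℝ) (Fin d → ℝ) htop
    · obtain ⟨n, hn⟩ : ∃ n, A.card = n + 1 := ⟨A.card - 1, by
        have := hne.card_pos; omega⟩
      have h2 : Module.finrank ℝ (vectorSpan ℝ (A.image id : Set (Fin d → ℝ))) ≤ n :=
        finrank_vectorSpan_image_finset_le ℝ id A hn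
      rw [Finset.image_id] at h2
      have h3 : vectorSpan ℝ (A : Set (Fin d → ℝ)) = ⊤ := by
        rw [← direction_affineSpan, htop, AffineSubspace.direction_top]
      rw [h3, finrank_top] at h2
      simp only [Module.finrank_fintype_fun_eq_card, Fintype.card_fin] at h2
      omega
  apply MeasureTheory.measure_mono_null (convexHull_subset_affineSpan _)
  exact MeasureTheory.Measure.addHaar_affineSubspace _ _ h1

/-- points in general position are dense in the cube. -/
theorem exists_generic (L : Finset (Fin d → ℝ)) (p : Fin d → ℝ)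
    (hp : p ∈ Set.Icc (0 : Fin d → ℝ) 1) (U : Set (Fin d → ℝ)) (hU : IsOpen U) (hpU : p ∈ U) :
    ∃ q ∈ U, (∀ j, 0 < q j ∧ q j < 1) ∧ GenPos d (L : Set (Fin d → ℝ)) q := by
  classical
  -- the open cube
  let O : Set (Fin d → ℝ) := {q | ∀ j, 0 < q j ∧ q j < 1}
  have hO : IsOpen O := by
    have : O = ⋂ j, {q : Fin d → ℝ | 0 < q j ∧ q j < 1} := by
      ext q; simp [O]
    rw [this]
    apply isOpen_iInter_of_finite
    intro j
    exact (isOpen_lt continuous_const (continuous_apply j)).inter
      (isOpen_lt (continuous_apply j) continuous_const)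
  have hne : (U ∩ O).Nonempty := by
    have hlim : Filter.Tendsto (fun ε : ℝ => p + ε • ((fun _ => 1 / 2) - p)) (𝓝[>] 0) (𝓝 p) := by
      have : Filter.Tendsto (fun ε : ℝ => p + ε • ((fun _ => 1 / 2) - p)) (𝓝 0)
          (𝓝 (p + (0 : ℝ) • ((fun _ => 1 / 2) - p))) :=
        (continuous_const.add (continuous_id.smul continuous_const)).tendsto 0
      rw [zero_smul, add_zero] at this
      exact this.mono_left nhdsWithin_le_nhds
    have h1 : ∀ᶠ ε : ℝ in 𝓝[>] 0, p + ε • ((fun _ => 1 / 2) - p) ∈ U :=
      hlim.eventually (hU.mem_nhds hpU)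
    have h2 : ∀ᶠ ε : ℝ in 𝓝[>] 0, ε ∈ Set.Ioo (0 : ℝ) 1 := Ioo_mem_nhdsGT one_pos
    obtain ⟨ε, hε, hε2⟩ := (h1.and h2).exists
    refine ⟨_, hε, ?_⟩
    intro j
    have a := hp.1 j
    have b := hp.2 j
    simp only [Pi.zero_apply, Pi.one_apply] at a b
    simp only [Pi.add_apply, Pi.smul_apply, Pi.sub_apply, smul_eq_mul]
    obtain ⟨e1, e2⟩ := hε2
    constructor
    · nlinarith
    · nlinarith
  by_contra hcon
  push Not at hcon
  have hsub : U ∩ O ⊆ ⋃ A ∈ (L.powerset.filter (fun A => A.card ≤ d)),
      convexHull ℝ (A : Set (Fin d → ℝ)) := by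
    intro q hq
    have h1 := hcon q hq.1 hq.2
    unfold GenPos at h1
    push Not at h1
    obtain ⟨A, hA, hAc, hqA⟩ := h1
    refine Set.mem_biUnion (x := A) ?_ hqA
    show A ∈ L.powerset.filter (fun A => A.card ≤ d)
    rw [Finset.mem_filter, Finset.mem_powerset]
    exact ⟨by exact_mod_cast hA, hAc⟩
  have hnull : MeasureTheory.volume (U ∩ O) = 0 := by
    apply MeasureTheory.measure_mono_null hsub
    have h2 : MeasureTheory.volume (⋃ A ∈ ((L.powerset.filter (fun A => A.card ≤ d) :
        Finset (Finset (Fin d → ℝ))) : Set (Finset (Fin d → ℝ))),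
        convexHull ℝ (A : Set (Fin d → ℝ))) = 0 := by
      rw [MeasureTheory.measure_biUnion_null_iff (Finset.countable_toSet _)]
      intro A hA
      rw [Finset.mem_coe, Finset.mem_filter] at hA
      exact hull_null A hA.2
    simpa using h2
  exact ((hU.inter hO).measure_pos MeasureTheory.volume hne).ne' hnull

/-- Every point of the cube lies in a nondegenerate relabelled simplex. -/
theorem label_cover {T : Finset (Finset (Fin d → ℝ))} (hT : IsTriangulation d T) (hd : 0 < d)
    (lam : (Fin d → ℝ) → (Fin d → ℝ)) (hlam : FaceMap d lam) (p : Fin d → ℝ)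
    (hp : p ∈ Set.Icc (0 : Fin d → ℝ) 1) :
    ∃ s ∈ T, ∃ t : Finset (Fin d → ℝ), (∀ y ∈ t, ∃ x ∈ s, lam x = y) ∧ t.card = d + 1 ∧
      AffineIndependent ℝ (fun x : t => (x : Fin d → ℝ)) ∧
      (∀ x ∈ s, lam x ∈ t) ∧ p ∈ convexHull ℝ (t : Set (Fin d → ℝ)) := by
  classical
  by_contra hcon
  push Not at hcon
  let good : Finset (Finset (Fin d → ℝ)) := T.filter (fun s => (s.image lam).card = d + 1 ∧
    AffineIndependent ℝ (fun x : (s.image lam : Finset (Fin d → ℝ)) => (x : Fin d → ℝ)))
  let U : Set (Fin d → ℝ) := ⋂ s ∈ good, (convexHull ℝ ((s.image lam : Finset (Fin d → ℝ)) :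
    Set (Fin d → ℝ)))ᶜ
  have hU : IsOpen U := by
    apply isOpen_biInter_finset
    intro s _
    exact ((s.image lam).finite_toSet.isClosed_convexHull ℝ).isOpen_compl
  have hpU : p ∈ U := by
    apply Set.mem_iInter₂.2
    intro s hs
    rw [Finset.mem_filter] at hs
    have h1 := hcon s hs.1 (s.image lam) (by
      intro y hy
      obtain ⟨x, hx, rfl⟩ := Finset.mem_image.1 hy
      exact ⟨x, hx, rfl⟩) hs.2.1 hs.2.2 (fun x hx => Finset.mem_image_of_mem _ hx)
    exact h1
  let V : Finset (Fin d → ℝ) := T.biUnion id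
  obtain ⟨q, hqU, hq01, hgen⟩ := exists_generic (V ∪ V.image lam) p hp U hU hpU
  have hpar := par_label hT hd lam hlam q hq01 _ hgen (by
    intro s hs x hx
    have hxV : x ∈ V := Finset.mem_biUnion.2 ⟨s, hs, hx⟩
    rw [Finset.mem_coe, Finset.mem_coe, Finset.mem_union, Finset.mem_union]
    exact ⟨Or.inl hxV, Or.inr (Finset.mem_image_of_mem _ hxV)⟩)
  have hex : ∃ s ∈ T, q ∈ convexHull ℝ (lam '' (s : Set (Fin d → ℝ))) := by
    by_contra hno
    push Not at hno
    have : par T lam q = 0 := Finset.sum_eq_zero (fun s hs => chi_false (hno s hs))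
    rw [hpar] at this
    exact one_ne_zero this
  obtain ⟨s, hs, hqs⟩ := hex
  rw [← Finset.coe_image] at hqs
  have hqs' := hqs
  rw [convexHull_eq_union] at hqs'
  simp only [Set.mem_iUnion] at hqs'
  obtain ⟨t, hts, hti, hqt⟩ := hqs'
  have hts' : t ⊆ s.image lam := by exact_mod_cast hts
  have htL : (t : Set (Fin d → ℝ)) ⊆ ((V ∪ V.image lam : Finset (Fin d → ℝ)) :
      Set (Fin d → ℝ)) := by
    intro y hy
    obtain ⟨x, hx, rfl⟩ := Finset.mem_image.1 (hts' hy)
    rw [Finset.mem_coe, Finset.mem_union]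
    exact Or.inr (Finset.mem_image_of_mem _ (Finset.mem_biUnion.2 ⟨s, hs, hx⟩))
  have htc : d + 1 ≤ t.card := by
    by_contra hlt
    push Not at hlt
    exact hgen t htL (by omega) hqt
  have hc1 : (s.image lam).card ≤ d + 1 := by
    rw [← hT.card_vertices s hs]; exact Finset.card_image_le
  have hteq : t = s.image lam := Finset.eq_of_subset_of_card_le hts' (by omega)
  have hgood : s ∈ good := by
    rw [Finset.mem_filter]
    refine ⟨hs, ?_, ?_⟩
    · rw [← hteq]; have := Finset.card_le_card hts'; omega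
    · rw [← hteq]; exact hti
  have := Set.mem_iInter₂.1 hqU s hgood
  exact this hqs

end Pool.Agent.Lib.MP_727085_co
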