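import Pool.Agent.Lib.MP_727085_co.Vol
import Pool.Agent.Lib.MP_727085_co.Cover

set_option autoImplicit false

/-!
# Restriction of a dissection to a facet of the cube
-/

namespace Pool.Agent.Lib.MP_727085_co

open Finset Topology MeasureTheory

variable {k : ℕ}

/-- the value `0` or `1` -/
noncomputable def ev (e : Bool) : ℝ := if e then 1 else 0

open Classical in
/-- the vertices in a facet of the cube -/
noncomputable def fac (j : Fin (k + 1)) (e : Bool) (s : Finset (Fin (k + 1) → ℝ)) :
    Finset (Fin (k + 1) → ℝ) := s.filter (fun x => x j = ev e)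

/-- forgetting a coordinate -/
def dropC (j : Fin (k + 1)) (x : Fin (k + 1) → ℝ) : Fin k → ℝ := fun i => x (j.succAbove i)

open Classical in
/-- the vertices in a facet of the cube, as points of the smaller cube -/
noncomputable def slc (j : Fin (k + 1)) (e : Bool) (s : Finset (Fin (k + 1) → ℝ)) :
    Finset (Fin k → ℝ) := (fac j e s).image (dropC j)

/-- the simplex has a facet in the facet of the cube -/
def IsExt (j : Fin (k + 1)) (e : Bool) (s : Finset (Fin (k + 1) → ℝ)) : Prop :=
  k + 1 ≤ (fac j e s).card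

/-- a nondegenerate simplex in the cube -/
structure Sx (k : ℕ) (s : Finset (Fin k → ℝ)) : Prop where
  card : s.card = k + 1
  ind : AffineIndependent ℝ (fun x : s => (x : Fin k → ℝ))
  cube : ∀ x ∈ s, x ∈ Set.Icc (0 : Fin k → ℝ) 1

/-- inserting a zero coordinate, as a linear map -/
noncomputable def insL (j : Fin (k + 1)) : (Fin k → ℝ) →ₗ[ℝ] (Fin (k + 1) → ℝ) where
  toFun y := Fin.insertNth (α := fun _ => ℝ) j 0 y
  map_add' x y := by
    funext i
    refine Fin.succAboveCases j ?_ (fun i => ?_) i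
    · simp
    · simp
  map_smul' c x := by
    funext i
    refine Fin.succAboveCases j ?_ (fun i => ?_) i
    · simp
    · simp

/-- inserting a coordinate with value `0` or `1` -/
noncomputable def ins (j : Fin (k + 1)) (e : Bool) : (Fin k → ℝ) →ᵃ[ℝ] (Fin (k + 1) → ℝ) where
  toFun y := Fin.insertNth (α := fun _ => ℝ) j (ev e) y
  linear := insL j
  map_vadd' x y := by
    funext i
    refine Fin.succAboveCases j ?_ (fun i => ?_) i
    · simp [insL]
    · simp [insL]

theorem ins_same (j : Fin (k + 1)) (e : Bool) (y : Fin k → ℝ) : ins j e y j = ev e := by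
  simp [ins]

theorem ins_succAbove (j : Fin (k + 1)) (e : Bool) (y : Fin k → ℝ) (i : Fin k) :
    ins j e y (j.succAbove i) = y i := by
  simp [ins]

theorem dropC_ins (j : Fin (k + 1)) (e : Bool) (y : Fin k → ℝ) : dropC j (ins j e y) = y := by
  funext i
  exact ins_succAbove j e y i

theorem ins_dropC (j : Fin (k + 1)) (e : Bool) (x : Fin (k + 1) → ℝ) (hx : x j = ev e) :
    ins j e (dropC j x) = x := by
  funext i
  refine Fin.succAboveCases j ?_ (fun i => ?_) i
  · rw [ins_same, hx]
  · rw [ins_succAbove]; rfl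

theorem ins_injective (j : Fin (k + 1)) (e : Bool) : Function.Injective (ins j e) := by
  intro a b h
  rw [← dropC_ins j e a, ← dropC_ins j e b, h]

theorem mem_fac {j : Fin (k + 1)} {e : Bool} {s : Finset (Fin (k + 1) → ℝ)} {x : Fin (k + 1) → ℝ} :
    x ∈ fac j e s ↔ x ∈ s ∧ x j = ev e := by
  classical
  unfold fac
  rw [Finset.mem_filter]

theorem mem_slc {j : Fin (k + 1)} {e : Bool} {s : Finset (Fin (k + 1) → ℝ)} {y : Fin k → ℝ} :
    y ∈ slc j e s ↔ ins j e y ∈ s := by
  classical
  unfold slc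
  rw [Finset.mem_image]
  constructor
  · rintro ⟨x, hx, rfl⟩
    rw [mem_fac] at hx
    rw [ins_dropC j e x hx.2]; exact hx.1
  · intro h
    exact ⟨_, mem_fac.2 ⟨h, ins_same j e y⟩, dropC_ins j e y⟩

theorem image_slc (j : Fin (k + 1)) (e : Bool) (s : Finset (Fin (k + 1) → ℝ)) :
    ins j e '' (slc j e s : Set (Fin k → ℝ)) = (fac j e s : Set (Fin (k + 1) → ℝ)) := by
  ext x
  constructor
  · rintro ⟨y, hy, rfl⟩
    exact Finset.mem_coe.2 (mem_fac.2 ⟨mem_slc.1 (Finset.mem_coe.1 hy), ins_same j e y⟩)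
  · intro hx
    have h := mem_fac.1 (Finset.mem_coe.1 hx)
    refine ⟨dropC j x, ?_, ins_dropC j e x h.2⟩
    rw [Finset.mem_coe, mem_slc, ins_dropC j e x h.2]; exact h.1

theorem card_slc (j : Fin (k + 1)) (e : Bool) (s : Finset (Fin (k + 1) → ℝ)) :
    (slc j e s).card = (fac j e s).card := by
  classical
  unfold slc
  apply Finset.card_image_of_injOn
  intro x hx y hy h
  rw [Finset.mem_coe, mem_fac] at hx hy
  rw [← ins_dropC j e x hx.2, ← ins_dropC j e y hy.2, h]

theorem hull_slc (j : Fin (k + 1)) (e : Bool) (s : Finset (Fin (k + 1) → ℝ)) (y : Fin k → ℝ) :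
    ins j e y ∈ convexHull ℝ (fac j e s : Set (Fin (k + 1) → ℝ)) ↔
      y ∈ convexHull ℝ (slc j e s : Set (Fin k → ℝ)) := by
  rw [← image_slc, ← AffineMap.image_convexHull]
  constructor
  · rintro ⟨z, hz, h⟩
    rw [← ins_injective j e h]; exact hz
  · intro h; exact ⟨y, h, rfl⟩

/-- distance from the facet of the cube, as an affine function -/
noncomputable def crd (j : Fin (k + 1)) (e : Bool) : (Fin (k + 1) → ℝ) →ᵃ[ℝ] ℝ :=
  (LinearMap.proj j : (Fin (k + 1) → ℝ) →ₗ[ℝ] ℝ).toAffineMap -
    AffineMap.const ℝ (Fin (k + 1) → ℝ) (ev e)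

theorem crd_apply (j : Fin (k + 1)) (e : Bool) (x : Fin (k + 1) → ℝ) : crd j e x = x j - ev e := by
  simp [crd]

theorem fac_card_le {s : Finset (Fin (k + 1) → ℝ)} (hs : Sx (k + 1) s) (j : Fin (k + 1)) (e : Bool) :
    (fac j e s).card ≤ k + 1 := by
  classical
  by_contra hcon
  have hsub : fac j e s ⊆ s := fun x hx => (mem_fac.1 hx).1
  have heq : fac j e s = s := Finset.eq_of_subset_of_card_le hsub (by rw [hs.card]; omega)
  obtain ⟨b, hb⟩ := exists_bary s hs.card hs.ind
  have h1 := affine_eq_sum b hb (crd j e) (fun _ => ev e + 1)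
  have h2 : ∀ x : s, crd j e x = 0 := by
    intro x
    have : (x : Fin (k + 1) → ℝ) ∈ fac j e s := by rw [heq]; exact x.2
    rw [crd_apply, (mem_fac.1 this).2, sub_self]
  rw [Finset.sum_eq_zero (fun x _ => by rw [h2 x, mul_zero]), crd_apply] at h1
  linarith

theorem slc_Sx {s : Finset (Fin (k + 1) → ℝ)} (hs : Sx (k + 1) s) {j : Fin (k + 1)} {e : Bool}
    (h : IsExt j e s) : Sx k (slc j e s) := by
  classical
  refine ⟨?_, ?_, ?_⟩
  · rw [card_slc]
    exact le_antisymm (fac_card_le hs j e) h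
  · let g : slc j e s ↪ s := ⟨fun y => ⟨ins j e y, mem_slc.1 y.2⟩, by
      intro a b hab
      apply Subtype.ext
      apply ins_injective j e
      exact congrArg (fun w : s => (w : Fin (k + 1) → ℝ)) hab⟩
    exact (hs.ind.comp_embedding g).of_comp (ins j e)
  · intro y hy
    have h1 := hs.cube _ (mem_slc.1 hy)
    constructor
    · intro i
      have := h1.1 (j.succAbove i)
      rw [ins_succAbove] at this
      exact this
    · intro i
      have := h1.2 (j.succAbove i)
      rw [ins_succAbove] at this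
      exact this

theorem dis_Sx {T : Finset (Finset (Fin k → ℝ))} (hT : IsDissection k T) {s : Finset (Fin k → ℝ)}
    (hs : s ∈ T) : Sx k s := by
  refine ⟨hT.card_vertices s hs, hT.independent s hs, fun x hx => ?_⟩
  rw [← hT.union_eq]
  exact Set.mem_biUnion hs (subset_convexHull ℝ _ hx)

theorem ins_cube {j : Fin (k + 1)} {e : Bool} {y : Fin k → ℝ} (hy : y ∈ Set.Icc (0 : Fin k → ℝ) 1) :
    ins j e y ∈ Set.Icc (0 : Fin (k + 1) → ℝ) 1 := by
  constructor
  · intro i
    refine Fin.succAboveCases j ?_ (fun i => ?_) i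
    · rw [ins_same]; simp only [Pi.zero_apply, ev]; split_ifs <;> norm_num
    · rw [ins_succAbove]; exact hy.1 i
  · intro i
    refine Fin.succAboveCases j ?_ (fun i => ?_) i
    · rw [ins_same]; simp only [Pi.one_apply, ev]; split_ifs <;> norm_num
    · rw [ins_succAbove]; exact hy.2 i

/-- the hull of the support of the barycentric coordinates -/
theorem supp_hull {s : Finset (Fin k → ℝ)} (b : AffineBasis s ℝ (Fin k → ℝ))
    (hb : ∀ x : s, b x = (x : Fin k → ℝ)) {y : Fin k → ℝ}
    (hy : y ∈ convexHull ℝ (s : Set (Fin k → ℝ))) (A : Finset (Fin k → ℝ))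
    (hA : ∀ x : s, (x : Fin k → ℝ) ∉ A → b.coord x y = 0) (hAs : A ⊆ s) :
    y ∈ convexHull ℝ (A : Set (Fin k → ℝ)) := by
  have hnn := (bary_hull b hb y).1 hy
  have h1 : (A : Set (Fin k → ℝ)) = (fun x : s => (x : Fin k → ℝ)) '' {x | (x : Fin k → ℝ) ∈ A} := by
    ext z
    constructor
    · intro hz; exact ⟨⟨z, hAs hz⟩, hz, rfl⟩
    · rintro ⟨x, hx, rfl⟩; exact hx
  rw [h1, mem_hull_iff_rep]
  refine ⟨fun x => b.coord x y, ⟨hnn, b.sum_coord_apply_eq_one y, ?_⟩, ?_⟩
  · have := b.linear_combination_coord_eq_self y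
    rw [← this]
    apply Finset.sum_congr rfl
    intro x _
    rw [hb, this]
  · intro x hx
    exact hA x hx

/-- points of the simplex in a facet of the cube are in the hull of the vertices there -/
theorem mem_hull_fac {s : Finset (Fin (k + 1) → ℝ)} (hs : Sx (k + 1) s) {j : Fin (k + 1)} {e : Bool}
    {z : Fin (k + 1) → ℝ} (hz : z ∈ convexHull ℝ (s : Set (Fin (k + 1) → ℝ))) (hzj : z j = ev e) :
    z ∈ convexHull ℝ (fac j e s : Set (Fin (k + 1) → ℝ)) := by
  classical
  obtain ⟨b, hb⟩ := exists_bary s hs.card hs.ind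
  have hnn := (bary_hull b hb z).1 hz
  have h1 := affine_eq_sum b hb (crd j e) z
  rw [crd_apply, hzj, sub_self] at h1
  refine supp_hull b hb hz _ ?_ (fun x hx => (mem_fac.1 hx).1)
  intro x hx
  have hxj : (x : Fin (k + 1) → ℝ) j ≠ ev e := fun h => hx (mem_fac.2 ⟨x.2, h⟩)
  have hcube : ∀ y : s, 0 ≤ (y : Fin (k + 1) → ℝ) j ∧ (y : Fin (k + 1) → ℝ) j ≤ 1 :=
    fun y => ⟨(hs.cube y y.2).1 j, (hs.cube y y.2).2 j⟩
  have h2 : ∀ y ∈ (Finset.univ : Finset s), b.coord y z * crd j e y = 0 := by
    cases e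
    · have h3 : ∀ y ∈ (Finset.univ : Finset s), 0 ≤ b.coord y z * crd j false y := by
        intro y _
        apply mul_nonneg (hnn y)
        rw [crd_apply]
        simp only [ev]
        have := (hcube y).1
        simpa using this
      exact (Finset.sum_eq_zero_iff_of_nonneg h3).1 h1.symm
    · have h3 : ∀ y ∈ (Finset.univ : Finset s), b.coord y z * crd j true y ≤ 0 := by
        intro y _
        apply mul_nonpos_of_nonneg_of_nonpos (hnn y)
        rw [crd_apply]
        simp only [ev]
        have := (hcube y).2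
        simpa using this
      exact (Finset.sum_eq_zero_iff_of_nonpos h3).1 h1.symm
  rcases mul_eq_zero.1 (h2 x (Finset.mem_univ x)) with h | h
  · exact h
  · rw [crd_apply] at h
    exact absurd (by linarith) hxj

/-- near an inner point of its facet in a facet of the cube, the simplex fills the cube -/
theorem near_facet {s : Finset (Fin (k + 1) → ℝ)} (hs : Sx (k + 1) s) {j : Fin (k + 1)} {e : Bool}
    (h : IsExt j e s) {y : Fin k → ℝ}
    (hy : y ∈ interior (convexHull ℝ (slc j e s : Set (Fin k → ℝ)))) :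
    ∀ᶠ w in 𝓝 (ins j e y), w ∈ Set.Icc (0 : Fin (k + 1) → ℝ) 1 →
      w ∈ convexHull ℝ (s : Set (Fin (k + 1) → ℝ)) := by
  classical
  have hs' := slc_Sx hs h
  obtain ⟨b, hb⟩ := exists_bary s hs.card hs.ind
  obtain ⟨b', hb'⟩ := exists_bary (slc j e s) hs'.card hs'.ind
  -- positive coordinates
  have hpos : ∀ x : slc j e s, 0 < b'.coord x y := by
    have h1 : (slc j e s : Set (Fin k → ℝ)) = Set.range b' := by
      ext q
      constructor
      · intro hq; exact ⟨⟨q, hq⟩, hb' _⟩
      · rintro ⟨x, rfl⟩; rw [hb']; exact x.2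
    rw [h1, b'.interior_convexHull] at hy
    exact hy
  -- the apex
  have hfc : (fac j e s).card = k + 1 := le_antisymm (fac_card_le hs j e) h
  have hsub : fac j e s ⊆ s := fun x hx => (mem_fac.1 hx).1
  have h5 : (s \ fac j e s).card = 1 := by
    rw [Finset.card_sdiff_of_subset hsub, hfc, hs.card]; omega
  obtain ⟨a, ha⟩ := Finset.card_eq_one.1 h5
  have ha1 : a ∈ s \ fac j e s := by rw [ha]; simp
  rw [Finset.mem_sdiff] at ha1
  have hothers : ∀ x : s, x ≠ ⟨a, ha1.1⟩ → (x : Fin (k + 1) → ℝ) ∈ fac j e s := by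
    intro x hx
    by_contra hxf
    have : (x : Fin (k + 1) → ℝ) ∈ s \ fac j e s := Finset.mem_sdiff.2 ⟨x.2, hxf⟩
    rw [ha, Finset.mem_singleton] at this
    exact hx (Subtype.ext this)
  have haj : a j ≠ ev e := fun h => ha1.2 (mem_fac.2 ⟨ha1.1, h⟩)
  -- coordinates of the inserted point
  have hco : ∀ x : s, b.coord x (ins j e y) =
      ∑ z : slc j e s, b'.coord z y * b.coord x (ins j e z) := by
    intro x
    exact affine_eq_sum b' hb' ((b.coord x).comp (ins j e)) y
  have hposb : ∀ x : s, x ≠ ⟨a, ha1.1⟩ → 0 < b.coord x (ins j e y) := by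
    intro x hx
    have hxf := hothers x hx
    have hxs : dropC j x ∈ slc j e s := by
      rw [mem_slc, ins_dropC j e x (mem_fac.1 hxf).2]; exact x.2
    rw [hco, Finset.sum_eq_single ⟨dropC j x, hxs⟩]
    · simp only
      rw [ins_dropC j e x (mem_fac.1 hxf).2]
      have h6 : b.coord x (x : Fin (k + 1) → ℝ) = 1 := coord_self b hb x
      rw [h6, mul_one]
      exact hpos _
    · intro z _ hz
      have h6 : b.coord x (ins j e z) = 0 := by
        apply coord_other b hb x ⟨ins j e z, mem_slc.1 z.2⟩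
        intro h7
        apply hz
        apply Subtype.ext
        have h8 : ins j e z = (x : Fin (k + 1) → ℝ) :=
          congrArg (fun w : s => (w : Fin (k + 1) → ℝ)) h7
        have h9 : dropC j (ins j e z) = dropC j x := by rw [h8]
        rw [dropC_ins] at h9
        exact h9
      rw [h6, mul_zero]
    · simp
  filter_upwards [side_mem b hb ⟨a, ha1.1⟩ _ hposb] with w hw hwc
  apply hw
  have h9 := affine_eq_coord b hb (crd j e) ⟨a, ha1.1⟩ (fun x hx => by
    rw [crd_apply, (mem_fac.1 (hothers x hx)).2, sub_self]) w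
  simp only [crd_apply] at h9
  have hac := hs.cube a ha1.1
  have c1 := hac.1 j
  have c2 := hac.2 j
  have c3 := hwc.1 j
  have c4 := hwc.2 j
  simp only [Pi.zero_apply, Pi.one_apply] at c1 c2 c3 c4
  by_contra hneg
  push Not at hneg
  cases e
  · simp only [ev] at h9 haj
    have h10 : 0 < a j := lt_of_le_of_ne c1 (by simpa using Ne.symm haj)
    have h11 := mul_neg_of_neg_of_pos hneg h10
    simp at h9
    linarith
  · simp only [ev] at h9 haj
    have h10 : a j - 1 < 0 := by
      have : a j < 1 := lt_of_le_of_ne c2 (by simpa using haj)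
      linarith
    have h11 := mul_pos_of_neg_of_neg hneg h10
    simp at h9
    linarith

/-- simplices of a dissection with overlapping facets in a facet of the cube are equal -/
theorem ext_unique {T : Finset (Finset (Fin (k + 1) → ℝ))} (hT : IsDissection (k + 1) T)
    {s t : Finset (Fin (k + 1) → ℝ)} (hs : s ∈ T) (ht : t ∈ T) {j : Fin (k + 1)} {e : Bool}
    (hse : IsExt j e s) (hte : IsExt j e t) {y : Fin k → ℝ}
    (hys : y ∈ interior (convexHull ℝ (slc j e s : Set (Fin k → ℝ))))
    (hyt : y ∈ interior (convexHull ℝ (slc j e t : Set (Fin k → ℝ)))) : s = t := by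
  classical
  by_contra hne
  have h1 := (near_facet (dis_Sx hT hs) hse hys).and (near_facet (dis_Sx hT ht) hte hyt)
  obtain ⟨U, hU1, hU, hzU⟩ := eventually_nhds_iff.1 h1
  have hyc : y ∈ Set.Icc (0 : Fin k → ℝ) 1 :=
    convexHull_min (fun x hx => (slc_Sx (dis_Sx hT hs) hse).cube x hx) (convex_Icc _ _)
      (interior_subset hys)
  obtain ⟨q, hqU, hq01, -⟩ := exists_generic ∅ _ (ins_cube (j := j) (e := e) hyc) U hU hzU
  let O : Set (Fin (k + 1) → ℝ) := {q | ∀ j, 0 < q j ∧ q j < 1}
  have hO : IsOpen O := by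
    have : O = ⋂ j, {q : Fin (k + 1) → ℝ | 0 < q j ∧ q j < 1} := by
      ext q; simp [O]
    rw [this]
    apply isOpen_iInter_of_finite
    intro j
    exact (isOpen_lt continuous_const (continuous_apply j)).inter
      (isOpen_lt (continuous_apply j) continuous_const)
  have hOc : ∀ w ∈ O, w ∈ Set.Icc (0 : Fin (k + 1) → ℝ) 1 := fun w hw =>
    ⟨fun j => (hw j).1.le, fun j => (hw j).2.le⟩
  have hqs : q ∈ interior (convexHull ℝ (s : Set (Fin (k + 1) → ℝ))) :=
    mem_interior.2 ⟨U ∩ O, fun w hw => (hU1 w hw.1).1 (hOc w hw.2), hU.inter hO, hqU, hq01⟩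
  have hqt : q ∈ interior (convexHull ℝ (t : Set (Fin (k + 1) → ℝ))) :=
    mem_interior.2 ⟨U ∩ O, fun w hw => (hU1 w hw.1).2 (hOc w hw.2), hU.inter hO, hqU, hq01⟩
  exact Set.disjoint_left.1 (hT.interiors s hs t ht hne) hqs hqt

open Classical in
/-- the facets in a facet of the cube -/
noncomputable def restr (j : Fin (k + 1)) (e : Bool) (T : Finset (Finset (Fin (k + 1) → ℝ))) :
    Finset (Finset (Fin k → ℝ)) := (T.filter (fun s => IsExt j e s)).image (slc j e)

theorem exists_interior {s : Finset (Fin k → ℝ)} (hs : Sx k s) :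
    ∃ y, y ∈ interior (convexHull ℝ (s : Set (Fin k → ℝ))) := by
  obtain ⟨b, hb⟩ := exists_bary s hs.card hs.ind
  have h1 : (s : Set (Fin k → ℝ)) = Set.range b := by
    ext q
    constructor
    · intro hq; exact ⟨⟨q, hq⟩, hb _⟩
    · rintro ⟨x, rfl⟩; rw [hb]; exact x.2
  rw [h1]
  exact interior_convexHull_nonempty_iff_affineSpan_eq_top.2 b.tot

theorem slc_injOn {T : Finset (Finset (Fin (k + 1) → ℝ))} (hT : IsDissection (k + 1) T)
    {s t : Finset (Fin (k + 1) → ℝ)} (hs : s ∈ T) (ht : t ∈ T) {j : Fin (k + 1)} {e : Bool}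
    (hse : IsExt j e s) (hte : IsExt j e t) (h : slc j e s = slc j e t) : s = t := by
  obtain ⟨y, hy⟩ := exists_interior (slc_Sx (dis_Sx hT hs) hse)
  exact ext_unique hT hs ht hse hte hy (by rw [← h]; exact hy)

theorem restr_dissection {T : Finset (Finset (Fin (k + 1) → ℝ))} (hT : IsDissection (k + 1) T)
    (j : Fin (k + 1)) (e : Bool) : IsDissection k (restr j e T) := by
  classical
  have hmem : ∀ t ∈ restr j e T, ∃ s ∈ T, IsExt j e s ∧ slc j e s = t := by
    intro t ht
    unfold restr at ht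
    obtain ⟨s, hs, rfl⟩ := Finset.mem_image.1 ht
    rw [Finset.mem_filter] at hs
    exact ⟨s, hs.1, hs.2, rfl⟩
  have hSx : ∀ t ∈ restr j e T, Sx k t := by
    intro t ht
    obtain ⟨s, hs, hse, rfl⟩ := hmem t ht
    exact slc_Sx (dis_Sx hT hs) hse
  refine ⟨fun t ht => (hSx t ht).card, fun t ht => (hSx t ht).ind, ?_, ?_⟩
  · apply Set.Subset.antisymm
    · intro x hx
      obtain ⟨t, ht, hxt⟩ := Set.mem_iUnion₂.1 hx
      exact convexHull_min (fun z hz => (hSx t ht).cube z hz) (convex_Icc _ _) hxt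
    · intro y hy
      by_contra hcon
      have hcl : IsClosed (⋃ t ∈ restr j e T, convexHull ℝ (t : Set (Fin k → ℝ))) := by
        apply Set.Finite.isClosed_biUnion (restr j e T).finite_toSet
        intro t _
        exact t.finite_toSet.isClosed_convexHull ℝ
      obtain ⟨q, hqU, hq01, hgen⟩ := exists_generic (T.biUnion (slc j e)) y hy _ hcl.isOpen_compl
        hcon
      have hqc : q ∈ Set.Icc (0 : Fin k → ℝ) 1 := ⟨fun i => (hq01 i).1.le, fun i => (hq01 i).2.le⟩
      have hz := ins_cube (j := j) (e := e) hqc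
      rw [← hT.union_eq] at hz
      obtain ⟨s, hs, hzs⟩ := Set.mem_iUnion₂.1 hz
      have h1 := (hull_slc j e s q).1 (mem_hull_fac (dis_Sx hT hs) hzs (ins_same j e q))
      by_cases hse : IsExt j e s
      · apply hqU
        refine Set.mem_biUnion (x := slc j e s) ?_ h1
        show slc j e s ∈ restr j e T
        unfold restr
        exact Finset.mem_image_of_mem _ (Finset.mem_filter.2 ⟨hs, hse⟩)
      · refine hgen (slc j e s) ?_ ?_ h1
        · intro x hx
          exact Finset.mem_coe.2 (Finset.mem_biUnion.2 ⟨s, hs, hx⟩)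
        · rw [card_slc]
          unfold IsExt at hse
          omega
  · intro t ht t' ht' hne
    obtain ⟨s, hs, hse, rfl⟩ := hmem t ht
    obtain ⟨s', hs', hse', rfl⟩ := hmem t' ht'
    rw [Set.disjoint_left]
    intro y hy hy'
    apply hne
    rw [ext_unique hT hs hs' hse hse' hy hy']

end Pool.Agent.Lib.MP_727085_co
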