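import Pool.Agent.Lib.MP_727085_co.Data
import Pool.Agent.Lib.MP_727085_co.MaxDet
import Pool.Agent.Lib.MP_727085_co.Restrict

set_option autoImplicit false
set_option maxRecDepth 100000

namespace Pool.Agent.Lib.MP_727085_co

theorem sets_length {d k : ℕ} {T : Tr (ℕ × ℕ)} : ∀ l ∈ sets d k T, l.length = k := by
  intro l hl
  unfold sets at hl
  rw [List.mem_map] at hl
  obtain ⟨q, -, rfl⟩ := hl
  exact digs_length _ _ _

namespace C2

/-- classes of 0 vertices -/
def t0 : Tr (ℕ × ℕ) := (.leaf (0x0, 0x30000100000400000))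

/-- classes of 1 vertices -/
def t1 : Tr (ℕ × ℕ) := (.leaf (0x0, 0x40000040000000000))

/-- classes of 2 vertices -/
def t2 : Tr (ℕ × ℕ) := (.node (.leaf (0x4, 0x10000000000000000)) (.leaf (0xc, 0x100000400000)))

/-- classes of 3 vertices -/
def t3 : Tr (ℕ × ℕ) := (.leaf (0x24, 0))

theorem l0 : lvlOk 2 21 0 t1 t0 = true := by decide +kernel
theorem l1 : lvlOk 2 21 1 t2 t1 = true := by decide +kernel
theorem l2 : lvlOk 2 21 2 t3 t2 = true := by decide +kernel

theorem cls : Cls 3 ((sets 2 3 t3).map (toFin 2)) :=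
  (lvl_step t2 t3 l2 (lvl_step t1 t2 l1 (lvl_step t0 t1 l0 (cls_zero 2 _))))

theorem det_ok : ∀ l ∈ sets 2 3 t3, detOk 2 1 l = true := by
  have h : (sets 2 3 t3).all (detOk 2 1) = true := by decide +kernel
  rw [List.all_eq_true] at h
  exact h

theorem le {s : Finset (Fin 2 → ℝ)} (hs : Sx 2 s) : nvol 2 s ≤ 1 :=
  le_of_le_of_eq (nvol_le (by norm_num) 1 (sets 2 3 t3) sets_length cls det_ok s hs.card hs.cube) (by norm_num)

end C2

namespace C3

/-- classes of 0 vertices -/
def t0 : Tr (ℕ × ℕ) := (.leaf (0x0, 0x150000900003c00018000090000300000c00000))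

/-- classes of 1 vertices -/
def t1 : Tr (ℕ × ℕ) := (.leaf (0x0, 0x300000d00006600005000180000040000000000))

/-- classes of 2 vertices -/
def t2 : Tr (ℕ × ℕ) := (.node (.node (.leaf (0x8, 0x1b0000c00001200003000030000000000000000)) (.leaf (0x38, 0x150000aa0003b0002c8000dc0006c00000))) (.leaf (0x18, 0x2c8001c8000c000035000000000300000c00000)))

/-- classes of 3 vertices -/
def t3 : Tr (ℕ × ℕ) := (.node (.node (.leaf (0x88, 0x48000184000c000030000000000000000000000)) (.leaf (0x158, 0x5f0003c0000000009f000000002700006c00000))) (.leaf (0x188, 0x6000000000132000650004b0001840000000000)))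

/-- classes of 4 vertices -/
def t4 : Tr (ℕ × ℕ) := (.node (.node (.node (.leaf (0x688, 0)) (.leaf (0xf88, 0))) (.leaf (0xa88, 0))) (.node (.node (.leaf (0x888, 0)) (.leaf (0xd58, 0))) (.leaf (0xe88, 0))))

theorem l0 : lvlOk 3 21 0 t1 t0 = true := by decide +kernel
theorem l1 : lvlOk 3 21 1 t2 t1 = true := by decide +kernel
theorem l2 : lvlOk 3 21 2 t3 t2 = true := by decide +kernel
theorem l3 : lvlOk 3 21 3 t4 t3 = true := by decide +kernel

theorem cls : Cls 4 ((sets 3 4 t4).map (toFin 3)) :=
  (lvl_step t3 t4 l3 (lvl_step t2 t3 l2 (lvl_step t1 t2 l1 (lvl_step t0 t1 l0 (cls_zero 3 _)))))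

theorem det_ok : ∀ l ∈ sets 3 4 t4, detOk 3 2 l = true := by
  have h : (sets 3 4 t4).all (detOk 3 2) = true := by decide +kernel
  rw [List.all_eq_true] at h
  exact h

theorem le {s : Finset (Fin 3 → ℝ)} (hs : Sx 3 s) : nvol 3 s ≤ 2 :=
  le_of_le_of_eq (nvol_le (by norm_num) 2 (sets 3 4 t4) sets_length cls det_ok s hs.card hs.cube) (by norm_num)

end C3

namespace C4

/-- classes of 0 vertices -/
def t0 : Tr (ℕ × ℕ) := (.leaf (0x0, 0xb40005400027000120000840003c0001b0000c000054000240000f000060000240000c00003000000))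

/-- classes of 1 vertices -/
def t1 : Tr (ℕ × ℕ) := (.leaf (0x0, 0x240000c44006200018a001860006540032800017001800006140030800006000c00000040000000000))

/-- classes of 2 vertices -/
def t2 : Tr (ℕ × ℕ) := (.node (.node (.leaf (0x10, 0x18c000c000035000190000d20006300005800014000cc00060000038000040000c0000000000000000)) (.leaf (0x70, 0x2338023300119a0078a00461001e5400f280031700000000840004220019e0010b0006640033000000))) (.node (.leaf (0x30, 0x324001f2000f00006000011380135000918001970010b0013200090000186000000000c00003000000)) (.leaf (0xf0, 0x1140008a2007200022b001c9000cb80032f00233801cd000c980031e00324000c640063000000))))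

/-- classes of 3 vertices -/
def t3 : Tr (ℕ × ℕ) := (.node (.node (.node (.leaf (0x210, 0x480001e0400f000060000246000c34006180018c00240000c040060000180000000000000000000000)) (.leaf (0xc30, 0xcc0004484022400000000893805a5402d28007ab0088b005a1402d08007a200000001e6400f3000000))) (.leaf (0xe10, 0x9000000000215000f1000852003c3001258007970084c003c0001238007860048c001e040000000000))) (.node (.node (.leaf (0x610, 0x840003c0001b0800c04006c000300000f58006140054000000000938003060024c000c040000000000)) (.leaf (0xd30, 0x8fc806c0000000011200070f8061500193400d97007090061200194600d86000000024c000c3000000))) (.leaf (0x530, 0xb7e80600001946016840064f805a0002a0000c1700296804e0000000004b4000000012c00033000000))))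

/-- classes of 4 vertices -/
def t4 : Tr (ℕ × ℕ) := (.node (.node (.node (.node (.node (.leaf (0x3210, 0xe40006c000330001800002a0000f0000480000c000240000c00003000000000000000000000000000)) (.leaf (0xe530, 0x113e00000004046022050100f8087e804b0001f9700956807cdc0000001234000000048c00123000000))) (.leaf (0xa610, 0x10800056f803f0001e0000e460000000275800da700e400000000273800d9a0084c0018a40000000000))) (.node (.leaf (0xc210, 0xc00005a0402d0000000009060036b401b58006170090000367401b3800606000c00000000000000000)) (.leaf (0xfe10, 0x38d201c3900e370070f80368e01b1700e3f80713c0366c01b0600d98806c040000000000)))) (.node (.node (.node (.leaf (0x5210, 0x78e003c000183800d9c006c000300000c500060c0054e002a0000000000040000c0000000000000000)) (.leaf (0xed30, 0xcb40000000000001920010658081e80403401fab0106100820c0404601fa2000000060c00303000000))) (.leaf (0xe610, 0xe2780000004508015b1011400056f8036580169700bda00000002a3800c4100a8c0030740000000000))) (.node (.leaf (0xf210, 0x6c04036000180000a86003cb401e580090c00a80003c7401e3800900000e40000000000000000))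 (.leaf (0x9530, 0x127480960002264024100089e80903000000010c40089680900000000010b4000000042c00093000000))))) (.node (.node (.node (.node (.leaf (0x4210, 0x480001e1400f0800606003c000180400c0000480001800000140000800000000000000000000000000)) (.leaf (0xfc30, 0x6b40035700000000d6d00a0c004f10019ba00d6100a00004eb0019a2000000066c00333000000))) (.leaf (0xb610, 0x1152008a0003f5801f840000000723001e8e0121400e4c0000000243800f06006de8036040000000000))) (.node (.leaf (0xd210, 0xd800066000000001680009c6003c340185800794009c0003c040183800784000cc0000000000000000)) (.leaf (0x6530, 0x1248007cdc03e0e0247800f538091200480001e17001d4000000000000036000000000cc00063000000)))) (.node (.node (.leaf (0x7210, 0xa80004e0402700012000084000363401b180078c00000002a740153800300000240000000000000000)) (.leaf (0xf610, 0x713c045500210401152008400033580181400be60000000276c00f1a009d8803c740000000000))) (.node (.leaf (0x7610, 0xbe6005ed003a5001d1000e4c00720002d5801694000000000000162a00ab50057e802a740000000000)) (.leaf (0xa530, 0x13aa0087e8043460270000a1f80000004818013a700a15009120000000139e00000001ef000f3000000))))))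

/-- classes of 5 vertices -/
def t5 : Tr (ℕ × ℕ) := (.node (.node (.node (.node (.node (.leaf (0x43210, 0)) (.leaf (0xfc210, 0))) (.node (.leaf (0xa5210, 0)) (.leaf (0x96530, 0)))) (.node (.node (.leaf (0x94210, 0)) (.leaf (0xca610, 0))) (.leaf (0xc7210, 0)))) (.node (.node (.node (.leaf (0x74210, 0)) (.leaf (0xfd210, 0))) (.node (.leaf (0xe5210, 0)) (.leaf (0xca530, 0)))) (.node (.node (.leaf (0xf4210, 0)) (.leaf (0xfa610, 0))) (.leaf (0xf7210, 0))))) (.node (.node (.node (.node (.leaf (0xc3210, 0)) (.leaf (0xed210, 0))) (.node (.leaf (0xb5210, 0)) (.leaf (0xe9530, 0)))) (.node (.node (.leaf (0xb4210, 0)) (.leaf (0xda610, 0))) (.leaf (0xd7210, 0)))) (.node (.node (.node (.leaf (0x84210, 0)) (.leaf (0xa7610, 0))) (.leaf (0xb7210, 0))) (.node (.node (.leaf (0x65210, 0)) (.leaf (0xeb610, 0))) (.leaf (0xdc210, 0))))))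

theorem l0 : lvlOk 4 21 0 t1 t0 = true := by decide +kernel
theorem l1 : lvlOk 4 21 1 t2 t1 = true := by decide +kernel
theorem l2 : lvlOk 4 21 2 t3 t2 = true := by decide +kernel
theorem l3 : lvlOk 4 21 3 t4 t3 = true := by decide +kernel
theorem l4 : lvlOk 4 21 4 t5 t4 = true := by decide +kernel

theorem cls : Cls 5 ((sets 4 5 t5).map (toFin 4)) :=
  (lvl_step t4 t5 l4 (lvl_step t3 t4 l3 (lvl_step t2 t3 l2 (lvl_step t1 t2 l1 (lvl_step t0 t1 l0 (cls_zero 4 _))))))

theorem det_ok : ∀ l ∈ sets 4 5 t5, detOk 4 3 l = true := by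
  have h : (sets 4 5 t5).all (detOk 4 3) = true := by decide +kernel
  rw [List.all_eq_true] at h
  exact h

theorem le {s : Finset (Fin 4 → ℝ)} (hs : Sx 4 s) : nvol 4 s ≤ 3 :=
  le_of_le_of_eq (nvol_le (by norm_num) 3 (sets 4 5 t5) sets_length cls det_ok s hs.card hs.cube) (by norm_num)

end C4

end Pool.Agent.Lib.MP_727085_co
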