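import Pool.Agent.Lib.MP_727085_co.SixMain
import Pool.Agent.Lib.MP_727085_co.FiveChk
import Pool.Agent.Lib.MP_727085_co.Small

set_option autoImplicit false
set_option maxRecDepth 100000

/-!
# Volume bounds for simplices in the cube
-/

namespace Pool.Agent.Lib.MP_727085_co

open Finset Matrix

variable {k : ℕ}

/-- the sign matrix of a tuple of cube vertices -/
noncomputable def pm (w : Fin (k + 1) → V k) : Matrix (Fin (k + 1)) (Fin (k + 1)) ℝ :=
  Matrix.of fun i => Fin.cons 1 (fun j => 2 * toPt (w i) j - 1)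

theorem det_pm (w : Fin (k + 1) → V k) :
    (pm w).det = 2 ^ k * (edgeM (fun i => toPt (w i))).det := by
  let C : Matrix (Fin (k + 1)) (Fin (k + 1)) ℝ :=
    Matrix.of fun i j => if i = j then (if i = 0 then 1 else 2) else (if i = 0 then -1 else 0)
  have hC : C.det = 2 ^ k := by
    have h1 : C.BlockTriangular id := by
      intro i j hij
      simp only [id] at hij
      have h2 : i ≠ j := fun h => by rw [h] at hij; exact lt_irrefl _ hij
      have h3 : i ≠ 0 := fun h => by rw [h] at hij; exact absurd hij (Fin.not_lt_zero j)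
      simp [C, h2, h3]
    rw [Matrix.det_of_isUpperTriangular h1, Fin.prod_univ_succ]
    simp [C, Fin.succ_ne_zero]
  have h1 : pm w = bigM (fun i => toPt (w i)) * C := by
    ext i j
    rw [Matrix.mul_apply, Fin.sum_univ_succ]
    refine Fin.cases ?_ (fun j => ?_) j
    · simp [pm, bigM, C, Fin.succ_ne_zero]
    · rw [Finset.sum_eq_single j]
      · simp only [pm, bigM, C, Matrix.of_apply, Fin.cons_zero, Fin.cons_succ]
        have h2 : ¬ (0 : Fin (k + 1)) = j.succ := (Fin.succ_ne_zero j).symm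
        simp [h2]
        ring
      · intro l _ hl
        have h2 : ¬ l.succ = j.succ := fun h => hl (Fin.succ_injective _ h)
        simp [C, hl]
      · simp
  rw [h1, Matrix.det_mul, hC, det_bigM, mul_comm]

theorem edge_int (w : Fin (k + 1) → V k) :
    ∃ n : ℤ, (edgeM (fun i => toPt (w i))).det = n := by
  let Z : Matrix (Fin k) (Fin k) ℤ :=
    Matrix.of fun i j => (if w i.succ j then 1 else 0) - (if w 0 j then 1 else 0)
  refine ⟨Z.det, ?_⟩
  rw [show ((Z.det : ℤ) : ℝ) = Int.castRingHom ℝ Z.det from rfl, RingHom.map_det]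
  congr 1
  ext i j
  simp only [edgeM, toPt, Matrix.of_apply, RingHom.mapMatrix_apply, Matrix.map_apply, Z,
    Int.coe_castRingHom]
  push_cast
  rfl

/-- bound of the volume from bounds of sign determinants -/
theorem nvol_le_of (hk : 0 < k) (β : ℕ)
    (h : ∀ w : Fin (k + 1) → V k, (pm w).det ^ 2 < ((β + 1) * 2 ^ k) ^ 2)
    {s : Finset (Fin k → ℝ)} (hs : Sx k s) : nvol k s ≤ β := by
  classical
  let e := (s.equivFinOfCardEq hs.card).symm
  let v : Fin (k + 1) → Fin k → ℝ := fun i => (e i : Fin k → ℝ)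
  have hv : Set.range v = (s : Set (Fin k → ℝ)) := by
    ext x
    constructor
    · rintro ⟨i, rfl⟩; exact (e i).2
    · intro hx
      exact ⟨e.symm ⟨x, hx⟩, by simp [v]⟩
  rw [nvol_eq hk s v hv]
  obtain ⟨w, hw⟩ := exists_vertices v (fun i => hs.cube _ (e i).2)
  refine hw.trans ?_
  obtain ⟨n, hn⟩ := edge_int w
  have h1 := h w
  rw [det_pm, hn, mul_pow, mul_pow] at h1
  have h2 : (0 : ℝ) < (2 ^ k) ^ 2 := by positivity
  rw [mul_comm] at h1
  have h3 : (n : ℝ) ^ 2 < ((β : ℝ) + 1) ^ 2 := lt_of_mul_lt_mul_right h1 h2.le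
  have h4 : |(n : ℝ)| < (β : ℝ) + 1 := by
    exact abs_lt_of_sq_lt_sq h3 (by positivity)
  rw [hn]
  have h5 : |n| < (β : ℤ) + 1 := by exact_mod_cast h4
  have h6 : |n| ≤ (β : ℤ) := by omega
  exact_mod_cast h6

theorem pm_sq (w : Fin (k + 1) → V k) (i j : Fin (k + 1)) : pm w i j ^ 2 = 1 := by
  refine Fin.cases ?_ (fun j => ?_) j
  · simp [pm]
  · simp only [pm, Matrix.of_apply, Fin.cons_succ, toPt]
    split_ifs <;> norm_num

/-- The volume bound from the Hadamard inequality. -/
theorem nvol_had (hk : 0 < k) (β : ℕ) (h : (k + 1) ^ (k + 1) < ((β + 1) * 2 ^ k) ^ 2)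
    {s : Finset (Fin k → ℝ)} (hs : Sx k s) : nvol k s ≤ β := by
  apply nvol_le_of hk β _ hs
  intro w
  refine (had (pm w)).trans_lt ?_
  simp only [pm_sq, Finset.sum_const, Finset.card_univ, Fintype.card_fin, Finset.prod_const,
    nsmul_eq_mul, mul_one]
  exact_mod_cast h

/-- sign of a bit -/
def sg (b : Bool) : ℤ := if b then -1 else 1

theorem sg_xor (a b : Bool) : sg (xor a b) = sg a * sg b := by
  cases a <;> cases b <;> rfl

/-- parity of seven bits -/
def prt (z : Fin 7 → Bool) : Bool := xor (z 0) (xor (z 1) (xor (z 2) (xor (z 3) (xor (z 4) (xor (z 5) (z 6))))))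

theorem sum_sg (z : Fin 7 → Bool) (hz : prt z = false) :
    ∑ l, sg (z l) = 7 ∨ ∑ l, sg (z l) = 3 ∨ ∑ l, sg (z l) = -1 ∨ ∑ l, sg (z l) = -5 := by
  rw [Fin.sum_univ_seven]
  unfold prt at hz
  revert hz
  generalize z 0 = a0
  generalize z 1 = a1
  generalize z 2 = a2
  generalize z 3 = a3
  generalize z 4 = a4
  generalize z 5 = a5
  generalize z 6 = a6
  revert a0 a1 a2 a3 a4 a5 a6
  decide

theorem prt_xor (a b : Fin 7 → Bool) : prt (fun l => xor (a l) (b l)) = xor (prt a) (prt b) := by
  have h4 : ∀ a b c d : Bool, xor (xor a b) (xor c d) = xor (xor a c) (xor b d) := by decide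
  unfold prt
  rw [h4 (a 5) (b 5), h4 (a 4) (b 4), h4 (a 3) (b 3), h4 (a 2) (b 2), h4 (a 1) (b 1),
    h4 (a 0) (b 0)]

/-- the bits of the sign matrix -/
def bt (w : Fin 7 → V 6) (i j : Fin 7) : Bool :=
  (Fin.cons false (fun j => !(w i j)) : Fin 7 → Bool) j

theorem pm_bt (w : Fin 7 → V 6) (i j : Fin 7) : pm w i j = sg (bt w i j) := by
  refine Fin.cases ?_ (fun j => ?_) j
  · simp [pm, bt, sg]
  · simp only [pm, bt, Matrix.of_apply, Fin.cons_succ, toPt, sg]
    cases w i j
    · simp
    · simp; norm_num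

theorem pm_six (w : Fin 7 → V 6) : (pm w).det ^ 2 < 409600 := by
  let R : Fin 7 → Fin 7 → Bool := fun i j => xor (prt (bt w i)) (bt w i j)
  let M : Matrix (Fin 7) (Fin 7) ℝ := Matrix.of fun i j => (sg (R i j) : ℝ)
  let g : Fin 7 → Fin 7 → ℤ := fun i j => ∑ l, sg (R i l) * sg (R j l)
  have hR : ∀ i, prt (R i) = false := by
    intro i
    simp only [prt, R]
    generalize bt w i 0 = a0
    generalize bt w i 1 = a1
    generalize bt w i 2 = a2
    generalize bt w i 3 = a3
    generalize bt w i 4 = a4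
    generalize bt w i 5 = a5
    generalize bt w i 6 = a6
    revert a0 a1 a2 a3 a4 a5 a6
    decide
  have hM : M.det ^ 2 = (pm w).det ^ 2 := by
    have h1 : M = Matrix.diagonal (fun i => (sg (prt (bt w i)) : ℝ)) * pm w := by
      ext i j
      rw [Matrix.diagonal_mul, pm_bt]
      simp only [M, R, Matrix.of_apply]
      rw [sg_xor]
      push_cast
      rfl
    have h2 : (∏ i, (sg (prt (bt w i)) : ℝ)) ^ 2 = 1 := by
      rw [← Finset.prod_pow]
      apply Finset.prod_eq_one
      intro i _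
      unfold sg
      split_ifs <;> norm_num
    rw [h1, Matrix.det_mul, Matrix.det_diagonal, mul_pow, h2, one_mul]
  have hsg : ∀ b, sg b * sg b = 1 := by decide
  have hD : Dat M g := by
    refine ⟨fun i j => ?_, fun i => ?_, fun i j => ?_⟩
    · rw [gram_apply]
      simp only [M, g, Matrix.of_apply]
      push_cast
      rfl
    · simp only [g, hsg]
      simp
    · simp only [g]
      apply Finset.sum_congr rfl
      intro l _
      ring
  have hO : ∀ i j, i ≠ j → g i j = 7 ∨ g i j = 3 ∨ g i j = -1 ∨ g i j = -5 := by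
    intro i j _
    have h1 : g i j = ∑ l, sg (xor (R i l) (R j l)) := by
      simp only [g]
      apply Finset.sum_congr rfl
      intro l _
      exact (sg_xor _ _).symm
    rw [h1]
    apply sum_sg
    show prt (fun l => xor (R i l) (R j l)) = false
    rw [prt_xor, hR i, hR j]
    rfl
  have h1 := seven hD hO
  rw [det_gram, hM] at h1
  exact h1

namespace C6

theorem le {s : Finset (Fin 6 → ℝ)} (hs : Sx 6 s) : nvol 6 s ≤ 9 := by
  have h := nvol_le_of (k := 6) (by norm_num) 9 (fun w => by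
    have := pm_six w
    norm_num
    exact this) hs
  exact_mod_cast h

end C6

namespace C5

theorem det_ok : ∀ l ∈ sets 5 6 t6, detOk 5 5 l = true := by
  have h : t6.all (fun q => detOk 5 5 (codes 5 6 q)) = true := by decide +kernel
  intro l hl
  unfold sets at hl
  rw [List.mem_map] at hl
  obtain ⟨q, hq, rfl⟩ := hl
  exact Tr.all_spec _ t6 h q hq

theorem le {s : Finset (Fin 5 → ℝ)} (hs : Sx 5 s) : nvol 5 s ≤ 5 :=
  le_of_le_of_eq (nvol_le (by norm_num) 5 (sets 5 6 t6) sets_length cls det_ok s hs.card hs.cube)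
    (by norm_num)

end C5

/-- bounds of the volume in dimensions up to ten -/
def beta : ℕ → ℕ
  | 0 => 1
  | 1 => 1
  | 2 => 1
  | 3 => 2
  | 4 => 3
  | 5 => 5
  | 6 => 9
  | 7 => 32
  | 8 => 76
  | 9 => 195
  | _ => 521

theorem beta_bound (k : ℕ) (hk : 0 < k) (hk8 : k ≤ 10) {s : Finset (Fin k → ℝ)} (hs : Sx k s) :
    nvol k s ≤ beta k := by
  interval_cases k
  · exact nvol_had (by norm_num) 1 (by norm_num) hs
  · exact nvol_had (by norm_num) 1 (by norm_num) hs
  · exact nvol_had (by norm_num) 2 (by norm_num) hs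
  · exact nvol_had (by norm_num) 3 (by norm_num) hs
  · exact le_of_le_of_eq (C5.le hs) (by norm_num [beta])
  · exact le_of_le_of_eq (C6.le hs) (by norm_num [beta])
  · exact nvol_had (by norm_num) 32 (by norm_num) hs
  · exact nvol_had (by norm_num) 76 (by norm_num) hs
  · exact nvol_had (by norm_num) 195 (by norm_num) hs
  · exact nvol_had (by norm_num) 521 (by norm_num) hs

theorem beta_mono {i j : ℕ} (hij : i ≤ j) (hj : j ≤ 10) : beta i ≤ beta j := by
  have h : ∀ j ∈ List.range 11, ∀ i ∈ List.range (j + 1), beta i ≤ beta j := by decide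
  exact h j (List.mem_range.2 (by omega)) i (List.mem_range.2 (by omega))

end Pool.Agent.Lib.MP_727085_co
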