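import Pool.Agent.Lib.MP_727085_co.Cover

set_option autoImplicit false

namespace Pool.Agent.Lib.MP_727085_co

open Finset Topology

variable {d : ℕ}

theorem aff_lin (H : (Fin d → ℝ) →ᵃ[ℝ] ℝ) (x v : Fin d → ℝ) (ε : ℝ) :
    H (x + ε • (v - x)) = (1 - ε) * H x + ε * H v := by
  have h3 : ∀ z, H z = H.linear z + H 0 := by
    intro z
    have := H.map_vadd 0 z
    simpa using this
  rw [h3, h3 x, h3 v, map_add, map_smul, map_sub, smul_eq_mul]
  ring

theorem interior_cover {t : Finset (Fin d → ℝ)} (b : AffineBasis t ℝ (Fin d → ℝ))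
    (hb : ∀ x : t, b x = (x : Fin d → ℝ)) (y : Fin d → ℝ) (hpos : ∀ x : t, 0 < b.coord x y) :
    ∀ᶠ z in 𝓝 y, z ∈ convexHull ℝ (t : Set (Fin d → ℝ)) := by
  have h1 : ∀ᶠ z in 𝓝 y, ∀ x : t, 0 < b.coord x z := by
    rw [Filter.eventually_all]
    intro x
    have hcont : Continuous (b.coord x) := (b.coord x).continuous_of_finiteDimensional
    exact hcont.continuousAt.eventually (lt_mem_nhds (hpos x))
  filter_upwards [h1] with z hz
  rw [bary_hull b hb]
  exact fun x => (hz x).le

/-- two simplices meeting face to face along a facet fill a neighbourhood of its inner points. -/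
theorem local_cover {s t : Finset (Fin d → ℝ)} (hsc : s.card = d + 1) (htc : t.card = d + 1)
    (hti : AffineIndependent ℝ (fun x : t => (x : Fin d → ℝ)))
    (hff : convexHull ℝ (s : Set (Fin d → ℝ)) ∩ convexHull ℝ (t : Set (Fin d → ℝ)) ⊆
      convexHull ℝ ((s : Set (Fin d → ℝ)) ∩ (t : Set (Fin d → ℝ))))
    (u : s) (b : AffineBasis s ℝ (Fin d → ℝ))
    (hb : ∀ x : s, b x = (x : Fin d → ℝ)) (y : Fin d → ℝ)
    (hpos : ∀ x : s, x ≠ u → 0 < b.coord x y) (hy0 : b.coord u y = 0) (hts : t ≠ s)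
    (hsub : s.erase u ⊆ t) :
    ∀ᶠ z in 𝓝 y, z ∈ convexHull ℝ (s : Set (Fin d → ℝ)) ∨
      z ∈ convexHull ℝ (t : Set (Fin d → ℝ)) := by
  classical
  obtain ⟨b', hb'⟩ := exists_bary t htc hti
  have hφc : (s.erase u).card = d := by
    rw [Finset.card_erase_of_mem u.2, hsc]; rfl
  have h5 : (t \ (s.erase u)).card = 1 := by
    rw [Finset.card_sdiff_of_subset hsub, hφc, htc]; omega
  obtain ⟨v, hv⟩ := Finset.card_eq_one.1 h5
  have hv1 : v ∈ t \ (s.erase u) := by rw [hv]; simp
  rw [Finset.mem_sdiff] at hv1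
  have hext : ∀ x ∈ t, x ≠ v → x ∈ s.erase u := by
    intro x hx hxv
    by_contra hxφ
    have : x ∈ t \ (s.erase u) := Finset.mem_sdiff.2 ⟨hx, hxφ⟩
    rw [hv, Finset.mem_singleton] at this
    exact hxv this
  have hut : (u : Fin d → ℝ) ∉ t := by
    intro hcon
    apply hts
    symm
    apply Finset.eq_of_subset_of_card_le
    · intro x hx
      by_cases hxu : x = u
      · rw [hxu]; exact hcon
      · exact hsub (Finset.mem_erase.2 ⟨hxu, hx⟩)
    · rw [hsc, htc]
  -- coordinates of `y` with respect to `t`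
  have hpos' : ∀ x : t, x ≠ ⟨v, hv1.1⟩ → 0 < b'.coord x y := by
    intro x hx
    have hxv : (x : Fin d → ℝ) ≠ v := fun h => hx (Subtype.ext h)
    have hxs := hext x x.2 hxv
    rw [Finset.mem_erase] at hxs
    rw [affine_eq_sum b hb (b'.coord x) y, Finset.sum_eq_single ⟨(x : Fin d → ℝ), hxs.2⟩]
    · have h1 : b'.coord x (x : Fin d → ℝ) = 1 := coord_self b' hb' x
      simp only
      rw [h1, mul_one]
      exact hpos _ (fun h => hxs.1 (congrArg Subtype.val h))
    · intro z _ hz
      by_cases hzu : z = u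
      · rw [hzu, hy0, zero_mul]
      · have hzt : (z : Fin d → ℝ) ∈ t :=
          hsub (Finset.mem_erase.2 ⟨fun h => hzu (Subtype.ext h), z.2⟩)
        have h2 : b'.coord x (z : Fin d → ℝ) = 0 := by
          apply coord_other b' hb' x ⟨z, hzt⟩
          intro h
          apply hz
          apply Subtype.ext
          have h' : (z : Fin d → ℝ) = (x : Fin d → ℝ) := congrArg (fun w : t => (w : Fin d → ℝ)) h
          exact h'
        rw [h2, mul_zero]
    · simp
  have e1 := side_mem b hb u y hpos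
  have e2 := side_mem b' hb' ⟨v, hv1.1⟩ y hpos'
  have hH : ∀ z, b.coord u z = b'.coord ⟨v, hv1.1⟩ z * b.coord u v := by
    intro z
    apply affine_eq_coord b' hb' (b.coord u) ⟨v, hv1.1⟩
    intro x hx
    have hxv : (x : Fin d → ℝ) ≠ v := fun h => hx (Subtype.ext h)
    have hxs := hext x x.2 hxv
    rw [Finset.mem_erase] at hxs
    exact coord_other b hb u ⟨x, hxs.2⟩ (fun h => hxs.1 (congrArg Subtype.val h))
  have huu : b.coord u (u : Fin d → ℝ) = 1 := coord_self b hb u
  rcases lt_trichotomy (b.coord u v) 0 with hneg | hzero | hpos2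
  · filter_upwards [e1, e2] with z h1 h2
    by_cases hz : 0 ≤ b.coord u z
    · exact Or.inl (h1 hz)
    · right
      apply h2
      push Not at hz
      rw [hH z] at hz
      by_contra hcon
      push Not at hcon
      have := mul_pos_of_neg_of_neg hcon hneg
      linarith
  · exfalso
    have := hH u
    rw [huu, hzero, mul_zero] at this
    exact one_ne_zero this
  · exfalso
    have hlim : Filter.Tendsto (fun ε : ℝ => y + ε • ((u : Fin d → ℝ) - y)) (𝓝[>] 0) (𝓝 y) := by
      have : Filter.Tendsto (fun ε : ℝ => y + ε • ((u : Fin d → ℝ) - y)) (𝓝 0)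
          (𝓝 (y + (0 : ℝ) • ((u : Fin d → ℝ) - y))) :=
        (continuous_const.add (continuous_id.smul continuous_const)).tendsto 0
      rw [zero_smul, add_zero] at this
      exact this.mono_left nhdsWithin_le_nhds
    obtain ⟨ε, hε, he⟩ := ((hlim.eventually (e1.and e2)).and self_mem_nhdsWithin).exists
    have hεpos : (0 : ℝ) < ε := he
    have hHy : b.coord u (y + ε • ((u : Fin d → ℝ) - y)) = ε := by
      rw [aff_lin, hy0, huu]; ring
    have m1 := hε.1 (by rw [hHy]; exact hεpos.le)
    have m2 := hε.2 (by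
      have h8 := hH (y + ε • ((u : Fin d → ℝ) - y))
      rw [hHy] at h8
      by_contra hcon
      push Not at hcon
      have := mul_neg_of_neg_of_pos hcon hpos2
      linarith)
    have m3 := coord_zero_of_mem b hb _ Set.inter_subset_left u (fun h => hut h.2) _ (hff ⟨m1, m2⟩)
    rw [hHy] at m3
    exact hεpos.ne' m3

theorem span_ne_top (A : Finset (Fin d → ℝ)) (hA : A.card ≤ d) :
    affineSpan ℝ (A : Set (Fin d → ℝ)) ≠ ⊤ := by
  classical
  intro htop
  rcases Finset.eq_empty_or_nonempty A with rfl | hne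
  · simp only [Finset.coe_empty, AffineSubspace.span_empty] at htop
    exact AffineSubspace.bot_ne_top ℝ (Fin d → ℝ) (Fin d → ℝ) htop
  · obtain ⟨n, hn⟩ : ∃ n, A.card = n + 1 := ⟨A.card - 1, by
      have := hne.card_pos; omega⟩
    have h2 : Module.finrank ℝ (vectorSpan ℝ (A.image id : Set (Fin d → ℝ))) ≤ n :=
      finrank_vectorSpan_image_finset_le ℝ id A hn
    rw [Finset.image_id] at h2
    have h3 : vectorSpan ℝ (A : Set (Fin d → ℝ)) = ⊤ := by
      rw [← direction_affineSpan, htop, AffineSubspace.direction_top]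
    rw [h3, finrank_top] at h2
    simp only [Module.finrank_fintype_fun_eq_card, Fintype.card_fin] at h2
    omega

/-- points in general position with respect to `L` seen from `q`. -/
theorem exists_generic_span (L : Finset (Fin d → ℝ)) (q p : Fin d → ℝ)
    (hp : p ∈ Set.Icc (0 : Fin d → ℝ) 1) (U : Set (Fin d → ℝ)) (hU : IsOpen U) (hpU : p ∈ U) :
    ∃ z ∈ U, (∀ j, 0 < z j ∧ z j < 1) ∧ ∀ A : Finset (Fin d → ℝ), A ⊆ L → A.card < d →
      z ∉ affineSpan ℝ (insert q (A : Set (Fin d → ℝ))) := by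
  classical
  obtain ⟨z0, hz0, hz01, -⟩ := exists_generic ∅ p hp U hU hpU
  let O : Set (Fin d → ℝ) := {q | ∀ j, 0 < q j ∧ q j < 1}
  have hO : IsOpen O := by
    have : O = ⋂ j, {q : Fin d → ℝ | 0 < q j ∧ q j < 1} := by
      ext q; simp [O]
    rw [this]
    apply isOpen_iInter_of_finite
    intro j
    exact (isOpen_lt continuous_const (continuous_apply j)).inter
      (isOpen_lt (continuous_apply j) continuous_const)
  have hne : (U ∩ O).Nonempty := ⟨z0, hz0, hz01⟩
  by_contra hcon
  push Not at hcon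
  have hsub : U ∩ O ⊆ ⋃ A ∈ (L.powerset.filter (fun A => A.card < d)),
      (affineSpan ℝ (insert q (A : Set (Fin d → ℝ))) : Set (Fin d → ℝ)) := by
    intro z hz
    obtain ⟨A, hA, hAc, hzA⟩ := hcon z hz.1 hz.2
    refine Set.mem_biUnion (x := A) ?_ hzA
    show A ∈ L.powerset.filter (fun A => A.card < d)
    rw [Finset.mem_filter, Finset.mem_powerset]
    exact ⟨hA, hAc⟩
  have hnull : MeasureTheory.volume (U ∩ O) = 0 := by
    apply MeasureTheory.measure_mono_null hsub
    have h2 : MeasureTheory.volume (⋃ A ∈ ((L.powerset.filter (fun A => A.card < d) :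
        Finset (Finset (Fin d → ℝ))) : Set (Finset (Fin d → ℝ))),
        (affineSpan ℝ (insert q (A : Set (Fin d → ℝ))) : Set (Fin d → ℝ))) = 0 := by
      rw [MeasureTheory.measure_biUnion_null_iff (Finset.countable_toSet _)]
      intro A hA
      rw [Finset.mem_coe, Finset.mem_filter] at hA
      apply MeasureTheory.Measure.addHaar_affineSubspace
      rw [← Finset.coe_insert]
      apply span_ne_top
      exact (Finset.card_insert_le _ _).trans hA.2
    simpa using h2
  exact ((hU.inter hO).measure_pos MeasureTheory.volume hne).ne' hnull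

/-- A nonempty face-to-face family in which every inner facet is shared fills the cube. -/
theorem cube_covered {T : Finset (Finset (Fin d → ℝ))} (hne : T.Nonempty)
    (hcard : ∀ s ∈ T, s.card = d + 1)
    (hind : ∀ s ∈ T, AffineIndependent ℝ (fun x : s => (x : Fin d → ℝ)))
    (hcube : ∀ s ∈ T, ∀ x ∈ s, x ∈ Set.Icc (0 : Fin d → ℝ) 1)
    (hff : ∀ s ∈ T, ∀ t ∈ T, s ≠ t → convexHull ℝ (s : Set (Fin d → ℝ)) ∩
      convexHull ℝ (t : Set (Fin d → ℝ)) ⊆ convexHull ℝ ((s : Set (Fin d → ℝ)) ∩ t))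
    (hdeg : ∀ s ∈ T, ∀ u ∈ s, (∃ j, ∀ x ∈ s.erase u, x j = 0) ∨ (∃ j, ∀ x ∈ s.erase u, x j = 1) ∨
      ∃ t ∈ T, t ≠ s ∧ s.erase u ⊆ t) :
    Set.Icc (0 : Fin d → ℝ) 1 ⊆ ⋃ s ∈ T, convexHull ℝ (s : Set (Fin d → ℝ)) := by
  classical
  intro p0 hp0
  by_contra hp0U
  obtain ⟨s0, hs0⟩ := hne
  have hconv : ∀ s ∈ T, convexHull ℝ (s : Set (Fin d → ℝ)) ⊆ Set.Icc (0 : Fin d → ℝ) 1 :=
    fun s hs => convexHull_min (fun x hx => hcube s hs x hx) (convex_Icc _ _)
  have hUcl : IsClosed (⋃ s ∈ T, convexHull ℝ (s : Set (Fin d → ℝ))) := by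
    apply Set.Finite.isClosed_biUnion T.finite_toSet
    intro s _
    exact s.finite_toSet.isClosed_convexHull ℝ
  set U : Set (Fin d → ℝ) := ⋃ s ∈ T, convexHull ℝ (s : Set (Fin d → ℝ)) with hU
  -- an inner point of a simplex
  obtain ⟨b0, hb0⟩ := exists_bary s0 (hcard s0 hs0) (hind s0 hs0)
  let c0 : Fin d → ℝ := ∑ x : s0, ((d : ℝ) + 1)⁻¹ • (x : Fin d → ℝ)
  have hc0 : ∀ x : s0, 0 < b0.coord x c0 := by
    intro x
    have h1 : c0 = Finset.univ.affineCombination ℝ b0 (fun _ : s0 => ((d : ℝ) + 1)⁻¹) := by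
      rw [Finset.affineCombination_eq_linear_combination]
      · apply Finset.sum_congr rfl
        intro z _
        rw [hb0]
      · rw [Finset.sum_const, Finset.card_univ, Fintype.card_coe, hcard s0 hs0, nsmul_eq_mul]
        push_cast
        have : ((d : ℝ) + 1) ≠ 0 := by positivity
        field_simp
    rw [h1, b0.coord_apply_combination_of_mem (Finset.mem_univ x)]
    · positivity
    · rw [Finset.sum_const, Finset.card_univ, Fintype.card_coe, hcard s0 hs0, nsmul_eq_mul]
      push_cast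
      have : ((d : ℝ) + 1) ≠ 0 := by positivity
      field_simp
  have hc0n := interior_cover b0 hb0 c0 hc0
  have hc0i : c0 ∈ interior (convexHull ℝ (s0 : Set (Fin d → ℝ))) :=
    mem_interior_iff_mem_nhds.2 hc0n
  obtain ⟨q, hqi, hq01, -⟩ := exists_generic ∅ c0 (hconv s0 hs0 (interior_subset hc0i)) _
    isOpen_interior hc0i
  -- a generic point outside
  obtain ⟨p, hpU, hp01, hgen⟩ := exists_generic_span (T.biUnion id) q p0 hp0 Uᶜ hUcl.isOpen_compl
    hp0U
  let γ : ℝ → (Fin d → ℝ) := fun r => p + r • (q - p)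
  have hγc : Continuous γ := continuous_const.add (continuous_id.smul continuous_const)
  let S : Set ℝ := Set.Icc 0 1 ∩ γ ⁻¹' U
  have hScl : IsClosed S := isClosed_Icc.inter (hUcl.preimage hγc)
  have hS1 : (1 : ℝ) ∈ S := by
    refine ⟨⟨zero_le_one, le_rfl⟩, ?_⟩
    show γ 1 ∈ U
    have : γ 1 = q := by simp [γ]
    rw [this]
    exact Set.mem_biUnion hs0 (interior_subset hqi)
  have hSb : BddBelow S := ⟨0, fun r hr => hr.1.1⟩
  have hτ := hScl.csInf_mem ⟨1, hS1⟩ hSb
  set τ := sInf S with hτdef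
  have hτ0 : 0 < τ := by
    rcases lt_or_eq_of_le hτ.1.1 with h | h
    · exact h
    · exfalso
      apply hpU
      have h1 : γ τ ∈ U := hτ.2
      rw [← h] at h1
      have : γ 0 = p := by simp [γ]
      rwa [this] at h1
  -- near the hitting point everything is covered: contradiction
  have hend : ¬ ∀ᶠ z in 𝓝 (γ τ), z ∈ U := by
    intro h
    have h1 : ∀ᶠ r in 𝓝[<] τ, γ r ∈ U :=
      (hγc.continuousAt.eventually h).filter_mono nhdsWithin_le_nhds
    have h2 : ∀ᶠ r in 𝓝[<] τ, r ∈ Set.Ioo 0 τ := Ioo_mem_nhdsLT hτ0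
    obtain ⟨r, hr1, hr2⟩ := (h1.and h2).exists
    have h3 : r ∈ S := ⟨⟨hr2.1.le, hr2.2.le.trans hτ.1.2⟩, hr1⟩
    have h4 := csInf_le hSb h3
    linarith [hr2.2]
  apply hend
  have hγτ : γ τ ∈ U := hτ.2
  obtain ⟨s, hs, hys⟩ := Set.mem_iUnion₂.1 hγτ
  rcases lt_or_eq_of_le hτ.1.2 with hτ1 | hτ1
  swap
  · have : γ τ = q := by rw [hτ1]; simp [γ]
    rw [this]
    filter_upwards [mem_interior_iff_mem_nhds.1 hqi] with z hz
    exact Set.mem_biUnion hs0 hz
  set y := γ τ with hy
  have hy01 : ∀ j, 0 < y j ∧ y j < 1 := by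
    intro j
    have h1 : y j = (1 - τ) * p j + τ * q j := by
      simp only [hy, γ, Pi.add_apply, Pi.smul_apply, Pi.sub_apply, smul_eq_mul]; ring
    rw [h1]
    have a1 := hp01 j
    have a2 := hq01 j
    constructor
    · have := mul_pos (sub_pos.2 hτ1) a1.1
      have := mul_pos hτ0 a2.1
      linarith
    · have := mul_lt_mul_of_pos_left a1.2 (sub_pos.2 hτ1)
      have := mul_lt_mul_of_pos_left a2.2 hτ0
      linarith
  obtain ⟨b, hb⟩ := exists_bary s (hcard s hs) (hind s hs)
  have hnn := (bary_hull b hb y).1 hys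
  -- hull of the support
  have hsupp : ∀ A : Finset (Fin d → ℝ), (∀ x : s, (x : Fin d → ℝ) ∉ A → b.coord x y = 0) →
      A ⊆ s → y ∈ convexHull ℝ (A : Set (Fin d → ℝ)) := by
    intro A hA hAs
    have h1 : (A : Set (Fin d → ℝ)) = (fun x : s => (x : Fin d → ℝ)) '' {x | (x : Fin d → ℝ) ∈ A} := by
      ext z
      constructor
      · intro hz; exact ⟨⟨z, hAs hz⟩, hz, rfl⟩
      · rintro ⟨x, hx, rfl⟩; exact hx
    rw [h1, mem_hull_iff_rep]
    refine ⟨fun x => b.coord x y, ⟨hnn, b.sum_coord_apply_eq_one y, ?_⟩, ?_⟩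
    · have := b.linear_combination_coord_eq_self y
      rw [← this]
      apply Finset.sum_congr rfl
      intro x _
      rw [hb, this]
    · intro x hx
      exact hA x hx
  have hle : ∀ x1 x2 : s, b.coord x1 y = 0 → b.coord x2 y = 0 → x1 = x2 := by
    intro x1 x2 h1 h2
    by_contra hne12
    have hA := hsupp ((s.erase x1).erase x2) (by
      intro x hx
      rw [Finset.mem_erase, Finset.mem_erase] at hx
      by_cases e1 : x = x1
      · rw [e1]; exact h1
      · by_cases e2 : x = x2
        · rw [e2]; exact h2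
        · exfalso
          exact hx ⟨fun h => e2 (Subtype.ext h), fun h => e1 (Subtype.ext h), x.2⟩)
      ((Finset.erase_subset _ _).trans (Finset.erase_subset _ _))
    have hcA : ((s.erase x1).erase x2).card < d := by
      rw [Finset.card_erase_of_mem (Finset.mem_erase.2 ⟨fun h => hne12 (Subtype.ext h.symm), x2.2⟩),
        Finset.card_erase_of_mem x1.2, hcard s hs]
      have hd : 0 < d := by
        rcases Nat.eq_zero_or_pos d with h0 | h0
        · exfalso
          apply hne12
          have h3 : s.card = 1 := by rw [hcard s hs, h0]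
          apply Subtype.ext
          exact Finset.card_le_one.1 h3.le x1 x1.2 x2 x2.2
        · exact h0
      omega
    refine hgen _ ?_ hcA ?_
    · intro x hx
      exact Finset.mem_biUnion.2 ⟨s, hs, (Finset.mem_erase.1 (Finset.mem_erase.1 hx).2).2⟩
    · have h3 : y ∈ affineSpan ℝ (insert q (((s.erase x1).erase x2 : Finset (Fin d → ℝ)) :
          Set (Fin d → ℝ))) :=
        affineSpan_mono ℝ (Set.subset_insert _ _) (convexHull_subset_affineSpan _ hA)
      have h4 : q ∈ affineSpan ℝ (insert q (((s.erase x1).erase x2 : Finset (Fin d → ℝ)) :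
          Set (Fin d → ℝ))) := subset_affineSpan ℝ _ (Set.mem_insert _ _)
      have h5 := AffineMap.lineMap_mem (1 / (1 - τ)) h4 h3
      have h6 : AffineMap.lineMap q y (1 / (1 - τ)) = p := by
        have h7 : (1 - τ) ≠ 0 := (sub_pos.2 hτ1).ne'
        funext j
        simp only [AffineMap.lineMap_apply, vsub_eq_sub, vadd_eq_add, Pi.add_apply, Pi.smul_apply,
          Pi.sub_apply, smul_eq_mul, hy, γ]
        field_simp
        ring
      rwa [h6] at h5
  by_cases hall : ∀ x : s, 0 < b.coord x y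
  · filter_upwards [interior_cover b hb y hall] with z hz
    exact Set.mem_biUnion hs hz
  · push Not at hall
    obtain ⟨u, hu⟩ := hall
    have hu0 : b.coord u y = 0 := le_antisymm hu (hnn u)
    have hpos : ∀ x : s, x ≠ u → 0 < b.coord x y := by
      intro x hx
      rcases lt_or_eq_of_le (hnn x) with h | h
      · exact h
      · exact absurd (hle x u h.symm hu0) hx
    have hyφ := hsupp (s.erase u) (by
      intro x hx
      rw [Finset.mem_erase] at hx
      have : x = u := by
        by_contra hxu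
        exact hx ⟨fun h => hxu (Subtype.ext h), x.2⟩
      rw [this]; exact hu0) (Finset.erase_subset _ _)
    rcases hdeg s hs u u.2 with ⟨j, hj⟩ | ⟨j, hj⟩ | ⟨t, ht, hts, hsub⟩
    · exact absurd hyφ (not_mem_hull_of_coord _ j 0 (fun x hx => hj x hx) y (hy01 j).1.ne')
    · exact absurd hyφ (not_mem_hull_of_coord _ j 1 (fun x hx => hj x hx) y (hy01 j).2.ne)
    · filter_upwards [local_cover (hcard s hs) (hcard t ht) (hind t ht) (hff s hs t ht hts.symm)
        u b hb y hpos hu0 hts hsub] with z hz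
      rcases hz with hz | hz
      · exact Set.mem_biUnion hs hz
      · exact Set.mem_biUnion ht hz

end Pool.Agent.Lib.MP_727085_co
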