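import Pool.Agent.Lib.MP_727085_co.Chain
import Pool.Agent.Lib.MP_727085_co.Betas

set_option autoImplicit false

/-!
# Certificates for lower bounds on the size of dissections
-/

namespace Pool.Agent.Lib.MP_727085_co.Cert

open Finset Pool.Agent.Lib.MP_727085_co

/-- A functional of a simplex: a combination of its volume and the volumes of its chains of
facets in faces of the cube. -/
noncomputable def Psi (c : ℕ → ℤ) : (k : ℕ) → Finset (Fin k → ℝ) → ℝ
  | 0, _ => 0
  | k + 1, s => (c (k + 1) : ℝ) * nvol (k + 1) s + ∑ p ∈ exts s, Psi c k (slc p.1 p.2 s)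

/-- the sum of the functional over a dissection -/
def total (c : ℕ → ℤ) : ℕ → ℤ
  | 0 => 0
  | k + 1 => c (k + 1) * (k + 1).factorial + 2 * (k + 1) * total c k

theorem sum_Psi (c : ℕ → ℤ) (k : ℕ) (T : Finset (Finset (Fin k → ℝ))) (hT : IsDissection k T) :
    ∑ s ∈ T, Psi c k s = total c k := by
  induction k with
  | zero => simp [Psi, total]
  | succ k ih =>
    simp only [Psi, total]
    rw [Finset.sum_add_distrib, ← Finset.mul_sum, sum_nvol hT,
      sum_exts hT (Psi c k) (total c k) (fun T' h => ih T' h)]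
    push_cast
    ring

/-- volume bound by the number of facets in facets of the cube -/
theorem nvol_beta (k : ℕ) (hk : k + 1 ≤ 10) {s : Finset (Fin (k + 1) → ℝ)} (hs : Sx (k + 1) s) :
    nvol (k + 1) s ≤ beta (k + 1 - (exts s).card) := by
  induction k with
  | zero =>
    have h1 := beta_bound 1 (by norm_num) (by norm_num) hs
    have h2 : beta (0 + 1 - (exts s).card) = beta 1 := by
      rcases Nat.eq_zero_or_pos (exts s).card with h | h
      · rw [h]
      · have : 0 + 1 - (exts s).card = 0 := by omega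
        rw [this]; rfl
    rw [h2]; exact h1
  | succ k ih =>
    rcases Nat.eq_zero_or_pos (exts s).card with h | h
    · rw [h]
      exact beta_bound (k + 1 + 1) (by omega) hk hs
    · obtain ⟨p, hp⟩ := Finset.card_pos.1 h
      have hps := mem_exts.1 hp
      have h1 := nvol_slc (Nat.succ_pos k) hs hps
      have h2 := ih (by omega) (slc_Sx hs hps)
      have h3 := exts_card_slc hs hp
      refine h1.trans (h2.trans ?_)
      exact_mod_cast beta_mono (by omega) (by omega)

/-- the affine bounds hold in dimension `k` -/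
def Bd (c : ℕ → ℤ) (k : ℕ) (L : List (ℤ × ℤ)) : Prop :=
  ∀ s : Finset (Fin (k + 1) → ℝ), Sx (k + 1) s → Psi c (k + 1) s ≤
    ((L.getD (exts s).card (0, 0)).1 : ℝ) + ((L.getD (exts s).card (0, 0)).2 : ℝ) * nvol (k + 1) s

/-- numeric check for one pair of numbers of facets; `k + 1` is the dimension of the slices -/
def okM (c : ℕ → ℤ) (k : ℕ) (L L' : List (ℤ × ℤ)) (m m' : ℕ) : Bool :=
  let a := (L.getD m' (0, 0)).1
  let e := (L.getD m' (0, 0)).2
  let a' := (L'.getD m (0, 0)).1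
  let e' := (L'.getD m (0, 0)).2
  let v : ℤ := beta (k + 1 - m')
  let w : ℤ := min v (beta (k + 2 - m))
  decide (m * a ≤ a') && decide (m * (a + e * v) ≤ a') &&
    decide (c (k + 2) * w + m * (a + e * w) ≤ a' + e' * w) &&
    decide (c (k + 2) * w + m * (a + e * v) ≤ a' + e' * w)

/-- numeric check of one step -/
def stepChk (c : ℕ → ℤ) (k : ℕ) (L L' : List (ℤ × ℤ)) : Bool :=
  decide (0 ≤ (L'.getD 0 (0, 0)).1) &&
    decide (c (k + 2) * beta (k + 2) ≤ (L'.getD 0 (0, 0)).1 + (L'.getD 0 (0, 0)).2 * beta (k + 2)) &&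
    (List.range (k + 3)).all (fun m => (List.range (k + 2)).all (fun m' =>
      decide (m = 0) || decide (m' + 1 < m) || okM c k L L' m m'))

/-- linear interpolation -/
theorem interp {p q r t w : ℝ} (ht : 0 ≤ t) (htw : t ≤ w) (h0 : p ≤ r)
    (h1 : p + q * w ≤ r) : p + q * t ≤ r := by
  rcases le_or_gt q 0 with h | h
  · nlinarith
  · nlinarith

theorem okM_spec {c : ℕ → ℤ} {k : ℕ} {L L' : List (ℤ × ℤ)} {m m' : ℕ}
    (h : okM c k L L' m m' = true) {D D' : ℝ} (hD : 0 ≤ D) (hDD : D ≤ D')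
    (hD' : D' ≤ beta (k + 1 - m')) (hDm : D ≤ beta (k + 2 - m)) :
    (c (k + 2) : ℝ) * D + m * (((L.getD m' (0, 0)).1 : ℝ) + ((L.getD m' (0, 0)).2 : ℝ) * D') ≤
      ((L'.getD m (0, 0)).1 : ℝ) + ((L'.getD m (0, 0)).2 : ℝ) * D := by
  unfold okM at h
  simp only [Bool.and_eq_true, decide_eq_true_eq] at h
  obtain ⟨⟨⟨h1, h2⟩, h3⟩, h4⟩ := h
  generalize (L.getD m' (0, 0)).1 = a at *
  generalize (L.getD m' (0, 0)).2 = e at *
  generalize (L'.getD m (0, 0)).1 = a' at *
  generalize (L'.getD m (0, 0)).2 = e' at *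
  generalize c (k + 2) = c' at *
  set v : ℕ := beta (k + 1 - m') with hv
  set u : ℕ := beta (k + 2 - m) with hu
  have hw : (((min (v : ℤ) (u : ℤ)) : ℤ) : ℝ) = min (v : ℝ) (u : ℝ) := by push_cast; rfl
  have g1 : (m : ℝ) * a ≤ a' := by exact_mod_cast h1
  have g2 : (m : ℝ) * (a + e * v) ≤ a' := by exact_mod_cast h2
  have g3 : (c' : ℝ) * min (v : ℝ) (u : ℝ) + m * (a + e * min (v : ℝ) (u : ℝ)) ≤
      a' + e' * min (v : ℝ) (u : ℝ) := by
    rw [← hw]; exact_mod_cast h3
  have g4 : (c' : ℝ) * min (v : ℝ) (u : ℝ) + m * (a + e * v) ≤ a' + e' * min (v : ℝ) (u : ℝ) := by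
    rw [← hw]; exact_mod_cast h4
  set w : ℝ := min (v : ℝ) (u : ℝ) with hwd
  have hDw : D ≤ w := le_min (hDD.trans hD') hDm
  have hm : (0 : ℝ) ≤ m := Nat.cast_nonneg m
  -- `D' = D`
  have k1 : (m : ℝ) * a + (c' + m * e - e') * D ≤ a' :=
    interp hD hDw g1 (by nlinarith [g3])
  -- `D' = v`
  have k2 : (m : ℝ) * (a + e * v) + (c' - e') * D ≤ a' :=
    interp hD hDw g2 (by nlinarith [g4])
  rcases le_or_gt (e : ℝ) 0 with he | he
  · have h5 : (e : ℝ) * D' ≤ e * D := mul_le_mul_of_nonpos_left hDD he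
    have h6 : (m : ℝ) * (e * D') ≤ m * (e * D) := mul_le_mul_of_nonneg_left h5 hm
    nlinarith [k1, h6]
  · have h5 : (e : ℝ) * D' ≤ e * v := mul_le_mul_of_nonneg_left hD' he.le
    have h6 : (m : ℝ) * (e * D') ≤ m * (e * v) := mul_le_mul_of_nonneg_left h5 hm
    nlinarith [k2, h6]

theorem step {c : ℕ → ℤ} {k : ℕ} (hk : 1 ≤ k) (hk8 : k + 2 ≤ 10) {L L' : List (ℤ × ℤ)}
    (hchk : stepChk c k L L' = true) (hB : Bd c k L) : Bd c (k + 1) L' := by
  intro s hs
  unfold stepChk at hchk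
  simp only [Bool.and_eq_true, decide_eq_true_eq] at hchk
  obtain ⟨⟨h0, h1⟩, h2⟩ := hchk
  have hD := nvol_nonneg s
  have hDm := nvol_beta (k + 1) hk8 hs
  have hcard := exts_card_le (k := k + 1) (by omega) hs
  rw [Psi]
  rcases Nat.eq_zero_or_pos (exts s).card with hm | hm
  · rw [Finset.card_eq_zero.1 hm, Finset.sum_empty, add_zero, Finset.card_empty]
    rw [hm] at hDm
    have g0 : (0 : ℝ) ≤ ((L'.getD 0 (0, 0)).1 : ℝ) := by exact_mod_cast h0
    have g1 : (c (k + 2) : ℝ) * (beta (k + 2) : ℝ) ≤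
        ((L'.getD 0 (0, 0)).1 : ℝ) + ((L'.getD 0 (0, 0)).2 : ℝ) * (beta (k + 2) : ℝ) := by
      exact_mod_cast h1
    have g2 := interp (p := 0) (q := (c (k + 2) : ℝ) - ((L'.getD 0 (0, 0)).2 : ℝ))
      (r := ((L'.getD 0 (0, 0)).1 : ℝ)) hD hDm g0 (by
        have : k + 1 + 1 - 0 = k + 2 := rfl
        rw [this]; nlinarith [g1])
    show (c (k + 2) : ℝ) * nvol (k + 1 + 1) s ≤ _
    nlinarith [g2]
  · set m := (exts s).card with hmdef
    have hmR : (0 : ℝ) < m := by exact_mod_cast hm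
    have key : ∀ p ∈ exts s, Psi c (k + 1) (slc p.1 p.2 s) ≤
        (((L'.getD m (0, 0)).1 : ℝ) + ((L'.getD m (0, 0)).2 : ℝ) * nvol (k + 1 + 1) s -
          (c (k + 2) : ℝ) * nvol (k + 1 + 1) s) / m := by
      intro p hp
      have hps := mem_exts.1 hp
      have hsl := slc_Sx hs hps
      have hcs := exts_card_slc hs hp
      have hc2 := exts_card_le (k := k) (by omega) hsl
      have h3 := hB _ hsl
      rw [List.all_eq_true] at h2
      have h4 := h2 m (List.mem_range.2 (by omega))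
      rw [List.all_eq_true] at h4
      have h5 := h4 (exts (slc p.1 p.2 s)).card (List.mem_range.2 (by omega))
      simp only [Bool.or_eq_true, decide_eq_true_eq] at h5
      rcases h5 with (h5 | h5) | h5
      · omega
      · omega
      · have h6 := okM_spec h5 hD (nvol_slc (by omega) hs hps)
          (nvol_beta k (by omega) hsl) hDm
        rw [le_div_iff₀ hmR]
        nlinarith [h6, h3]
    have h7 := Finset.sum_le_card_nsmul (exts s) (fun p => Psi c (k + 1) (slc p.1 p.2 s)) _ key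
    rw [nsmul_eq_mul, ← hmdef, mul_div_cancel₀ _ hmR.ne'] at h7
    show (c (k + 2) : ℝ) * nvol (k + 1 + 1) s + _ ≤ _
    linarith

/-- start in dimension two -/
theorem start (c : ℕ → ℤ) (h1 : c 1 = 0) : Bd c 1 [(0, c 2), (0, c 2), (0, c 2)] := by
  intro s hs
  have h2 : ∀ t : Finset (Fin 1 → ℝ), Psi c 1 t = 0 := by
    intro t
    rw [Psi, h1]
    simp [Psi]
  have hcard := exts_card_le (k := 1) (by norm_num) hs
  rw [Psi]
  simp only [h2, Finset.sum_const_zero, add_zero]
  interval_cases (exts s).card <;> simp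

/-- final check -/
def topChk (k : ℕ) (L : List (ℤ × ℤ)) (Q : ℤ) : Bool :=
  (List.range (k + 2)).all (fun m => decide ((L.getD m (0, 0)).1 ≤ Q) &&
    decide ((L.getD m (0, 0)).1 + (L.getD m (0, 0)).2 * beta (k + 1 - m) ≤ Q))

theorem final {c : ℕ → ℤ} {k : ℕ} (hk : 1 ≤ k) (hk8 : k + 1 ≤ 10) {L : List (ℤ × ℤ)} {Q : ℤ}
    (hB : Bd c k L) (hQ : topChk k L Q = true) (N : ℕ) (hN : Q * N < total c (k + 1)) (hQ0 : 0 ≤ Q)
    (T : Finset (Finset (Fin (k + 1) → ℝ))) (hT : IsDissection (k + 1) T) : N + 1 ≤ T.card := by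
  have h1 : ∀ s ∈ T, Psi c (k + 1) s ≤ (Q : ℝ) := by
    intro s hs
    have hsx := dis_Sx hT hs
    have hcard := exts_card_le (k := k) (by omega) hsx
    unfold topChk at hQ
    rw [List.all_eq_true] at hQ
    have h2 := hQ (exts s).card (List.mem_range.2 (by omega))
    simp only [Bool.and_eq_true, decide_eq_true_eq] at h2
    refine (hB s hsx).trans ?_
    apply interp (nvol_nonneg s) (nvol_beta k hk8 hsx)
    · exact_mod_cast h2.1
    · exact_mod_cast h2.2
  have h3 := Finset.sum_le_card_nsmul T (fun s => Psi c (k + 1) s) _ h1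
  rw [sum_Psi c (k + 1) T hT, nsmul_eq_mul] at h3
  have h4 : total c (k + 1) ≤ T.card * Q := by exact_mod_cast h3
  by_contra hcon
  have h5 : (T.card : ℤ) ≤ N := by omega
  have h6 : (T.card : ℤ) * Q ≤ N * Q := mul_le_mul_of_nonneg_right h5 hQ0
  rw [mul_comm] at hN
  omega

end Pool.Agent.Lib.MP_727085_co.Cert
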