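import Pool.Agent.Lib.MP_727085_co.Restrict

set_option autoImplicit false

/-!
# Volumes of restrictions and summation over dissections
-/

namespace Pool.Agent.Lib.MP_727085_co

open Finset Topology MeasureTheory

variable {k : ℕ}

/-- the volume of a simplex is at most the volume of its restriction -/
theorem nvol_slc (hk : 0 < k) {s : Finset (Fin (k + 1) → ℝ)} (hs : Sx (k + 1) s) {j : Fin (k + 1)}
    {e : Bool} (h : IsExt j e s) : nvol (k + 1) s ≤ nvol k (slc j e s) := by
  classical
  have hs' := slc_Sx hs h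
  let E := ((slc j e s).equivFinOfCardEq hs'.card).symm
  let u : Fin (k + 1) → Fin k → ℝ := fun i => (E i : Fin k → ℝ)
  have hu : Set.range u = (slc j e s : Set (Fin k → ℝ)) := by
    ext x
    constructor
    · rintro ⟨i, rfl⟩; exact (E i).2
    · intro hx
      exact ⟨E.symm ⟨x, hx⟩, by simp [u]⟩
  have hfc : (fac j e s).card = k + 1 := le_antisymm (fac_card_le hs j e) h
  have hsub : fac j e s ⊆ s := fun x hx => (mem_fac.1 hx).1
  have h5 : (s \ fac j e s).card = 1 := by
    rw [Finset.card_sdiff_of_subset hsub, hfc, hs.card]; omega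
  obtain ⟨a, ha⟩ := Finset.card_eq_one.1 h5
  have ha1 : a ∈ s \ fac j e s := by rw [ha]; simp
  rw [Finset.mem_sdiff] at ha1
  let v : Fin (k + 1 + 1) → Fin (k + 1) → ℝ :=
    Fin.cons (ins j e (u 0)) (Fin.cons a (fun i : Fin k => ins j e (u i.succ)))
  have hv : Set.range v = (s : Set (Fin (k + 1) → ℝ)) := by
    have h6 : ∀ i, ins j e (u i) ∈ s := fun i => mem_slc.1 (E i).2
    ext x
    constructor
    · rintro ⟨i, rfl⟩
      refine Fin.cases ?_ (fun i => ?_) i
      · exact h6 0
      · refine Fin.cases ?_ (fun i => ?_) i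
        · exact ha1.1
        · exact h6 _
    · intro hx
      by_cases hxf : x ∈ fac j e s
      · have h7 : dropC j x ∈ (slc j e s : Set (Fin k → ℝ)) := by
          rw [Finset.mem_coe, mem_slc, ins_dropC j e x (mem_fac.1 hxf).2]; exact hx
        rw [← hu] at h7
        obtain ⟨i, hi⟩ := h7
        have h8 : ins j e (u i) = x := by rw [hi, ins_dropC j e x (mem_fac.1 hxf).2]
        refine Fin.cases (fun h8 => ?_) (fun i h8 => ?_) i h8
        · exact ⟨0, h8⟩
        · exact ⟨i.succ.succ, h8⟩
      · have h7 : x ∈ s \ fac j e s := Finset.mem_sdiff.2 ⟨hx, hxf⟩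
        rw [ha, Finset.mem_singleton] at h7
        exact ⟨1, by rw [h7]; rfl⟩
  rw [nvol_eq (Nat.succ_pos k) s v hv, nvol_eq hk _ u hu]
  rw [Matrix.det_succ_column _ j, Finset.sum_eq_single 0]
  · have h9 : (edgeM v).submatrix (Fin.succAbove 0) j.succAbove = edgeM u := by
      ext i c
      simp only [Matrix.submatrix_apply, edgeM, Matrix.of_apply, Fin.succAbove_zero]
      show ins j e (u i.succ) (j.succAbove c) - ins j e (u 0) (j.succAbove c) = _
      rw [ins_succAbove, ins_succAbove]
    have h10 : edgeM v 0 j = a j - ev e := by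
      simp only [edgeM, Matrix.of_apply]
      show a j - ins j e (u 0) j = _
      rw [ins_same]
    rw [h9, h10, abs_mul, abs_mul, abs_pow, abs_neg, abs_one, one_pow, one_mul]
    have h11 : |a j - ev e| ≤ 1 := by
      have hac := hs.cube a ha1.1
      have c1 := hac.1 j
      have c2 := hac.2 j
      simp only [Pi.zero_apply, Pi.one_apply] at c1 c2
      rw [abs_le]
      unfold ev
      split_ifs
      · constructor <;> linarith
      · constructor <;> linarith
    calc |a j - ev e| * |(edgeM u).det| ≤ 1 * |(edgeM u).det| :=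
          mul_le_mul_of_nonneg_right h11 (abs_nonneg _)
      _ = _ := one_mul _
  · intro i _ hi
    obtain ⟨i, rfl⟩ := Fin.exists_succ_eq.2 hi
    have h12 : edgeM v i.succ j = 0 := by
      simp only [edgeM, Matrix.of_apply]
      show ins j e (u i.succ) j - ins j e (u 0) j = 0
      rw [ins_same, ins_same, sub_self]
    rw [h12]; ring
  · simp

open Classical in
/-- the facets of the cube that contain a facet of the simplex -/
noncomputable def exts (s : Finset (Fin (k + 1) → ℝ)) : Finset (Fin (k + 1) × Bool) :=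
  Finset.univ.filter (fun p => IsExt p.1 p.2 s)

theorem mem_exts {s : Finset (Fin (k + 1) → ℝ)} {p : Fin (k + 1) × Bool} :
    p ∈ exts s ↔ IsExt p.1 p.2 s := by
  classical
  unfold exts
  simp

theorem fac_disj (j : Fin (k + 1)) {e e' : Bool} (h : e ≠ e') (s : Finset (Fin (k + 1) → ℝ)) :
    Disjoint (fac j e s) (fac j e' s) := by
  rw [Finset.disjoint_left]
  intro x hx hx'
  rw [mem_fac] at hx hx'
  have := hx.2.symm.trans hx'.2
  cases e <;> cases e' <;> simp [ev] at this h

/-- two different facets of the cube that contain facets of the simplex are not opposite -/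
theorem exts_fst {s : Finset (Fin (k + 1) → ℝ)} (hk : 0 < k) (hs : Sx (k + 1) s) {j : Fin (k + 1)} {e e' : Bool}
    (h : IsExt j e s) (h' : IsExt j e' s) : e = e' := by
  classical
  by_contra hne
  have h1 := Finset.card_union_of_disjoint (fac_disj j hne s)
  have h2 : fac j e s ∪ fac j e' s ⊆ s := by
    apply Finset.union_subset <;> exact fun x hx => (mem_fac.1 hx).1
  have h3 := Finset.card_le_card h2
  rw [h1, hs.card] at h3
  unfold IsExt at h h'
  omega

theorem exts_card_le {s : Finset (Fin (k + 1) → ℝ)} (hk : 0 < k) (hs : Sx (k + 1) s) :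
    (exts s).card ≤ k + 1 := by
  classical
  have h1 : (exts s).card = ((exts s).image Prod.fst).card := by
    rw [Finset.card_image_of_injOn]
    rintro ⟨j, e⟩ hp ⟨j', e'⟩ hq hpq
    simp only at hpq
    subst hpq
    rw [Finset.mem_coe, mem_exts] at hp hq
    exact Prod.ext rfl (exts_fst hk hs hp hq)
  rw [h1]
  exact (Finset.card_le_univ _).trans (by simp)

/-- a second facet restricts -/
theorem ext_slc {s : Finset (Fin (k + 1 + 1) → ℝ)} (hs : Sx (k + 1 + 1) s) {j : Fin (k + 1 + 1)}
    {e : Bool} (h : IsExt j e s) {i : Fin (k + 1)} {e' : Bool} (h' : IsExt (j.succAbove i) e' s) :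
    IsExt i e' (slc j e s) := by
  classical
  unfold IsExt at h h' ⊢
  have h1 : ((fac j e s) ∩ (fac (j.succAbove i) e' s)).card =
      (fac i e' (slc j e s)).card := by
    have h2 : ((fac j e s) ∩ (fac (j.succAbove i) e' s)).image (dropC j) =
        fac i e' (slc j e s) := by
      ext y
      rw [Finset.mem_image, mem_fac, mem_slc]
      constructor
      · rintro ⟨x, hx, rfl⟩
        rw [Finset.mem_inter, mem_fac, mem_fac] at hx
        rw [ins_dropC j e x hx.1.2]
        exact ⟨hx.1.1, hx.2.2⟩
      · rintro ⟨hy, hyi⟩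
        refine ⟨ins j e y, ?_, dropC_ins j e y⟩
        rw [Finset.mem_inter, mem_fac, mem_fac]
        exact ⟨⟨hy, ins_same j e y⟩, hy, by rw [ins_succAbove]; exact hyi⟩
    rw [← h2, Finset.card_image_of_injOn]
    intro x hx y hy hxy
    rw [Finset.mem_coe, Finset.mem_inter, mem_fac] at hx hy
    rw [← ins_dropC j e x hx.1.2, ← ins_dropC j e y hy.1.2, hxy]
  rw [← h1]
  have h3 := Finset.card_union_add_card_inter (fac j e s) (fac (j.succAbove i) e' s)
  have h4 : fac j e s ∪ fac (j.succAbove i) e' s ⊆ s := by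
    apply Finset.union_subset <;> exact fun x hx => (mem_fac.1 hx).1
  have h5 := Finset.card_le_card h4
  rw [hs.card] at h5
  omega

theorem exts_card_slc {s : Finset (Fin (k + 1 + 1) → ℝ)} (hs : Sx (k + 1 + 1) s)
    {p : Fin (k + 1 + 1) × Bool} (h : p ∈ exts s) :
    (exts s).card ≤ (exts (slc p.1 p.2 s)).card + 1 := by
  classical
  obtain ⟨j, e⟩ := p
  rw [mem_exts] at h
  simp only at h ⊢
  have hsub : exts s ⊆ insert (j, e) ((exts (slc j e s)).image (fun p => (j.succAbove p.1, p.2))) := by
    rintro ⟨j', e'⟩ hp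
    rw [mem_exts] at hp
    simp only at hp
    by_cases hj : j' = j
    · subst hj
      rw [exts_fst (Nat.succ_pos k) hs h hp]
      exact Finset.mem_insert_self _ _
    · obtain ⟨i, rfl⟩ := Fin.exists_succAbove_eq hj
      apply Finset.mem_insert_of_mem
      exact Finset.mem_image.2 ⟨(i, e'), mem_exts.2 (ext_slc hs h hp), rfl⟩
  calc (exts s).card ≤ _ := Finset.card_le_card hsub
    _ ≤ _ := Finset.card_insert_le _ _
    _ ≤ _ := Nat.add_le_add_right Finset.card_image_le 1

/-- total volume of a dissection -/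
theorem sum_nvol {T : Finset (Finset (Fin k → ℝ))} (hT : IsDissection k T) :
    ∑ s ∈ T, nvol k s = k.factorial := by
  classical
  have hcl : ∀ s : Finset (Fin k → ℝ), IsClosed (convexHull ℝ (s : Set (Fin k → ℝ))) := fun s =>
    s.finite_toSet.isClosed_convexHull ℝ
  have hnull : ∀ s : Finset (Fin k → ℝ),
      volume (convexHull ℝ (s : Set (Fin k → ℝ)) \ interior (convexHull ℝ (s : Set (Fin k → ℝ)))) = 0 := by
    intro s
    have h1 := (convex_convexHull ℝ (s : Set (Fin k → ℝ))).addHaar_frontier volume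
    rw [frontier, (hcl s).closure_eq] at h1
    exact h1
  have hdisj : (T : Set (Finset (Fin k → ℝ))).Pairwise (Function.onFun (AEDisjoint volume)
      (fun s => convexHull ℝ (s : Set (Fin k → ℝ)))) := by
    intro s hs t ht hne
    have h1 := hT.interiors s hs t ht hne
    show volume _ = 0
    refine measure_mono_null ?_ (measure_union_null (hnull s) (hnull t))
    intro x hx
    by_cases hxs : x ∈ interior (convexHull ℝ (s : Set (Fin k → ℝ)))
    · right
      exact ⟨hx.2, fun hxt => Set.disjoint_left.1 h1 hxs hxt⟩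
    · left
      exact ⟨hx.1, hxs⟩
  have h2 : volume (⋃ s ∈ T, convexHull ℝ (s : Set (Fin k → ℝ))) =
      ∑ s ∈ T, volume (convexHull ℝ (s : Set (Fin k → ℝ))) :=
    measure_biUnion_finset₀ hdisj (fun s _ => (hcl s).measurableSet.nullMeasurableSet)
  have h3 : volume (Set.Icc (0 : Fin k → ℝ) 1) = 1 := by
    rw [Real.volume_Icc_pi]; simp
  have hfin : ∀ s ∈ T, volume (convexHull ℝ (s : Set (Fin k → ℝ))) ≠ ⊤ := by
    intro s _
    exact (s.finite_toSet.isCompact_convexHull ℝ).measure_lt_top.ne
  rw [hT.union_eq, h3] at h2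
  unfold nvol
  rw [← Finset.mul_sum, ← ENNReal.toReal_sum hfin, ← h2]
  simp

/-- summation over the restrictions -/
theorem sum_exts {T : Finset (Finset (Fin (k + 1) → ℝ))} (hT : IsDissection (k + 1) T)
    (ψ : Finset (Fin k → ℝ) → ℝ) (A : ℝ)
    (hψ : ∀ T' : Finset (Finset (Fin k → ℝ)), IsDissection k T' → ∑ t ∈ T', ψ t = A) :
    ∑ s ∈ T, ∑ p ∈ exts s, ψ (slc p.1 p.2 s) = 2 * (k + 1) * A := by
  classical
  have h1 : ∀ s ∈ T, ∑ p ∈ exts s, ψ (slc p.1 p.2 s) =
      ∑ p : Fin (k + 1) × Bool, if IsExt p.1 p.2 s then ψ (slc p.1 p.2 s) else 0 := by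
    intro s _
    unfold exts
    rw [Finset.sum_filter]
  rw [Finset.sum_congr rfl h1, Finset.sum_comm]
  have h2 : ∀ p ∈ (Finset.univ : Finset (Fin (k + 1) × Bool)),
      ∑ s ∈ T, (if IsExt p.1 p.2 s then ψ (slc p.1 p.2 s) else 0) = A := by
    intro p _
    rw [← Finset.sum_filter, ← hψ _ (restr_dissection hT p.1 p.2)]
    unfold restr
    rw [Finset.sum_image]
    · intro s hs t ht h
      rw [Finset.mem_coe, Finset.mem_filter] at hs ht
      exact slc_injOn hT hs.1 ht.1 hs.2 ht.2 h
  rw [Finset.sum_congr rfl h2, Finset.sum_const, Finset.card_univ]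
  simp only [Fintype.card_prod, Fintype.card_fin, Fintype.card_bool, nsmul_eq_mul]
  push_cast
  ring

end Pool.Agent.Lib.MP_727085_co
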