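import Pool.Agent.Lib.MP_727085_co.Enum

set_option autoImplicit false

namespace Pool.Agent.Lib.MP_727085_co

open Finset

/-- the point with numerators `X` over `Q` -/
noncomputable def atom (d Q : ℕ) (X : List ℕ) : Fin d → ℝ := fun j => (X.getD j 0 : ℝ) / Q

/-- real coordinate or its complement -/
def rc {d : ℕ} (i : ℕ) (z : Fin d → ℝ) : ℝ :=
  if h : i < d then z ⟨i, h⟩ else if h' : i - d < d then (if i < 2 * d then 1 - z ⟨i - d, h'⟩ else 0)
  else 0

/-- value at a vertex code -/
def vb (d i n : ℕ) : ℕ :=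
  if i < d then (n >>> i) % 2 else if i < 2 * d then 1 - (n >>> (i - d)) % 2 else 0

/-- a vertex code as a vertex -/
def decode (d n : ℕ) : V d := fun j => n.testBit j

/-- a list of vertex codes as a set of vertices -/
def toFin (d : ℕ) (l : List ℕ) : Finset (V d) := (l.map (decode d)).toFinset

theorem rc_combo {d : ℕ} (i : ℕ) (x y : Fin d → ℝ) (a b : ℝ) (hab : a + b = 1) :
    rc i (a • x + b • y) = a * rc i x + b * rc i y := by
  unfold rc
  split_ifs
  · simp
  · simp only [Pi.add_apply, Pi.smul_apply, smul_eq_mul]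
    have : b = 1 - a := by linarith
    rw [this]; ring
  · simp
  · simp

theorem toPt_decode {d : ℕ} (n : ℕ) (j : Fin d) :
    toPt (decode d n) j = (((n >>> (j : ℕ)) % 2 : ℕ) : ℝ) := by
  have h0 : toPt (decode d n) j = if n.testBit j = true then (1 : ℝ) else 0 := rfl
  rw [h0, Nat.testBit_eq_decide_div_mod_eq, Nat.shiftRight_eq_div_pow]
  rcases Nat.mod_two_eq_zero_or_one (n / 2 ^ (j : ℕ)) with h | h
  · simp [h]
  · simp [h]

theorem rc_toPt {d : ℕ} (i n : ℕ) : rc i (toPt (decode d n)) = (vb d i n : ℝ) := by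
  unfold rc vb
  by_cases h : i < d
  · rw [dif_pos h, if_pos h, toPt_decode]
  · rw [dif_neg h, if_neg h]
    by_cases h2 : i < 2 * d
    · have h3 : i - d < d := by omega
      rw [dif_pos h3, if_pos h2, if_pos h2, toPt_decode]
      have h4 : (n >>> (i - d)) % 2 ≤ 1 := by omega
      rw [Nat.cast_sub h4]; simp
    · rw [if_neg h2]
      split_ifs
      · simp
      · simp

/-- real value of a form -/
def rform {d : ℕ} (F : List (ℕ × ℕ)) (z : Fin d → ℝ) : ℝ := (F.map (fun e => (e.2 : ℝ) * rc e.1 z)).sum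

/-- value of a form at a vertex code -/
def vform (d : ℕ) (F : List (ℕ × ℕ)) (n : ℕ) : ℕ := (F.map (fun e => e.2 * vb d e.1 n)).sum

theorem rform_combo {d : ℕ} (F : List (ℕ × ℕ)) (x y : Fin d → ℝ) (a b : ℝ) (hab : a + b = 1) :
    rform F (a • x + b • y) = a * rform F x + b * rform F y := by
  induction F with
  | nil => simp [rform]
  | cons e F ih =>
    simp only [rform, List.map_cons, List.sum_cons] at ih ⊢
    rw [rc_combo e.1 x y a b hab, ih]; ring

theorem rform_toPt {d : ℕ} (F : List (ℕ × ℕ)) (n : ℕ) :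
    rform F (toPt (decode d n)) = (vform d F n : ℝ) := by
  induction F with
  | nil => simp [rform, vform]
  | cons e F ih =>
    simp only [rform, vform, List.map_cons, List.sum_cons] at ih ⊢
    rw [rc_toPt, ih]; push_cast; ring

theorem rform_hull {d : ℕ} (l : List ℕ) (F : List (ℕ × ℕ)) (c : ℕ)
    (h : ∀ n ∈ l, c ≤ vform d F n) (z : Fin d → ℝ) (hz : z ∈ hull (toFin d l)) :
    (c : ℝ) ≤ rform F z := by
  have hconv : Convex ℝ {z : Fin d → ℝ | (c : ℝ) ≤ rform F z} := by
    intro x hx y hy a b ha hb hab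
    have hx' : (c : ℝ) ≤ rform F x := hx
    have hy' : (c : ℝ) ≤ rform F y := hy
    show (c : ℝ) ≤ rform F (a • x + b • y)
    rw [rform_combo F x y a b hab]
    have h1 := mul_le_mul_of_nonneg_left hx' ha
    have h2 := mul_le_mul_of_nonneg_left hy' hb
    have h3 : (c : ℝ) = a * c + b * c := by rw [← add_mul, hab, one_mul]
    linarith
  refine convexHull_min ?_ hconv hz
  rintro y ⟨b, hb, rfl⟩
  rw [Finset.mem_coe, toFin, List.mem_toFinset, List.mem_map] at hb
  obtain ⟨n, hn, rfl⟩ := hb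
  show (c : ℝ) ≤ rform F (toPt (decode d n))
  rw [rform_toPt]
  exact_mod_cast h n hn

theorem rc_act {d Q : ℕ} (hQ : 0 < Q) (X : List ℕ) (hX : ∀ k, X.getD k 0 ≤ Q)
    (σ : Equiv.Perm (Fin d)) (f : Fin d → Bool) (i : ℕ) :
    rc i (actR (σ, f) (atom d Q X)) =
      (cc d Q X i (List.ofFn f, List.ofFn (fun j => ((σ j : Fin d) : ℕ))) : ℝ) / Q := by
  have hQ' : (Q : ℝ) ≠ 0 := by exact_mod_cast hQ.ne'
  have hget : ∀ (j : ℕ) (hj : j < d), (List.ofFn f).getD j false = f ⟨j, hj⟩ ∧
      (List.ofFn (fun j => ((σ j : Fin d) : ℕ))).getD j 0 = ((σ ⟨j, hj⟩ : Fin d) : ℕ) := by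
    intro j hj
    constructor
    · rw [List.getD_eq_getElem _ _ (by simpa using hj)]; simp
    · rw [List.getD_eq_getElem _ _ (by simpa using hj)]; simp
  have hval : ∀ (b : Bool) (k : ℕ), (xv Q X b k : ℝ) / Q =
      if b then 1 - (X.getD k 0 : ℝ) / Q else (X.getD k 0 : ℝ) / Q := by
    intro b k
    cases b
    · simp [xv]
    · simp only [xv, if_true]
      rw [Nat.cast_sub (hX k)]
      field_simp
  unfold rc cc
  by_cases h : i < d
  · rw [dif_pos h, if_pos h]
    simp only
    rw [(hget i h).1, (hget i h).2, hval]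
    simp only [actR, atom]
  · rw [dif_neg h, if_neg h]
    by_cases h2 : i < 2 * d
    · have h3 : i - d < d := by omega
      rw [dif_pos h3, if_pos h2, if_pos h2]
      simp only
      rw [(hget (i - d) h3).1, (hget (i - d) h3).2, hval]
      simp only [actR, atom]
      rcases Bool.eq_false_or_eq_true (f ⟨i - d, h3⟩) with hb | hb <;> simp [hb]
    · rw [if_neg h2]
      split_ifs <;> simp

theorem rform_act {d Q : ℕ} (hQ : 0 < Q) (X : List ℕ) (hX : ∀ k, X.getD k 0 ≤ Q)
    (σ : Equiv.Perm (Fin d)) (f : Fin d → Bool) (F : List (ℕ × ℕ)) :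
    rform F (actR (σ, f) (atom d Q X)) =
      (formVal (cc d Q X) F (List.ofFn f, List.ofFn (fun j => ((σ j : Fin d) : ℕ))) : ℝ) / Q := by
  induction F with
  | nil => simp [rform, formVal]
  | cons e F ih =>
    simp only [rform, formVal, List.map_cons, List.sum_cons] at ih ⊢
    rw [rc_act hQ X hX, ih]; push_cast; ring

open Classical in
theorem count_le {d Q : ℕ} (hQ : 0 < Q) (X : List ℕ) (hX : ∀ k, X.getD k 0 ≤ Q) (l : List ℕ)
    (forms : List (List (ℕ × ℕ) × ℕ)) (hf : ∀ F ∈ forms, ∀ n ∈ l, F.2 ≤ vform d F.1 n) :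
    (∑ g : G d, if actR g (atom d Q X) ∈ hull (toFin d l) then 1 else 0) ≤
      ((lanes d).map (fun y => if laneOk (cc d Q X) Q forms y then 1 else 0)).sum := by
  rw [map_flatMap_lanes]
  have h1 : ((flipL d).flatMap (fun f => (permL d).map (fun p =>
      if laneOk (cc d Q X) Q forms (f, p) = true then 1 else 0))).sum =
      ∑ f : Fin d → Bool, ∑ σ : Equiv.Perm (Fin d), (if laneOk (cc d Q X) Q forms
        (List.ofFn f, List.ofFn (fun j => ((σ j : Fin d) : ℕ))) = true then 1 else 0) := by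
    rw [flipL_sum d (fun f => ∑ σ : Equiv.Perm (Fin d), (if laneOk (cc d Q X) Q forms
        (f, List.ofFn (fun j => ((σ j : Fin d) : ℕ))) = true then 1 else 0))]
    have h2 : ∀ f : List Bool, (∑ σ : Equiv.Perm (Fin d), (if laneOk (cc d Q X) Q forms
        (f, List.ofFn (fun j => ((σ j : Fin d) : ℕ))) = true then 1 else 0)) =
        ((permL d).map (fun p => if laneOk (cc d Q X) Q forms (f, p) = true then 1 else 0)).sum :=
      fun f => permL_sum d (fun p => if laneOk (cc d Q X) Q forms (f, p) = true then 1 else 0)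
    simp only [h2]
    have h3 := sum_flatMap_map (flipL d) (fun f => (permL d).map (fun p =>
      if laneOk (cc d Q X) Q forms (f, p) = true then 1 else 0)) (fun n => n)
    simp only [List.map_id'] at h3
    exact h3
  rw [h1, Fintype.sum_prod_type_right]
  apply Finset.sum_le_sum
  intro f _
  apply Finset.sum_le_sum
  intro σ _
  by_cases hin : actR (σ, f) (atom d Q X) ∈ hull (toFin d l)
  · rw [if_pos hin, if_pos]
    unfold laneOk
    rw [List.all_eq_true]
    intro F hF
    rw [decide_eq_true_eq]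
    have h4 := rform_hull l F.1 F.2 (hf F hF) _ hin
    rw [rform_act hQ X hX, le_div_iff₀ (by exact_mod_cast hQ)] at h4
    exact_mod_cast h4
  · rw [if_neg hin]; exact Nat.zero_le _

theorem formVal_le {d Q : ℕ} (X : List ℕ) (hX : ∀ k, X.getD k 0 ≤ Q) (F : List (ℕ × ℕ))
    (y : List Bool × List ℕ) : formVal (cc d Q X) F y ≤ (F.map Prod.snd).sum * Q := by
  have hcc : ∀ i, cc d Q X i y ≤ Q := by
    intro i
    have hxv : ∀ b k, xv Q X b k ≤ Q := by
      intro b k
      unfold xv
      split_ifs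
      · exact Nat.sub_le _ _
      · exact hX k
    unfold cc
    split_ifs
    · exact hxv _ _
    · exact hxv _ _
    · exact Nat.zero_le _
  induction F with
  | nil => simp [formVal]
  | cons e F ih =>
    simp only [formVal, List.map_cons, List.sum_cons] at ih ⊢
    rw [add_mul]
    exact add_le_add (Nat.mul_le_mul_left _ (hcc _)) ih

/-- the forms are valid on the vertex codes and fit in the lanes -/
def formsOk (d w Q : ℕ) (l : List ℕ) (forms : List (List (ℕ × ℕ) × ℕ)) : Bool :=
  forms.all (fun F => l.all (fun n => Nat.ble F.2 (vform d F.1 n)) &&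
    (Nat.blt ((F.1.map Prod.snd).sum * Q) (2 ^ (w - 1)) && Nat.ble (F.2 * Q) (2 ^ (w - 1))))

open Classical in
/-- The packed count bounds the number of symmetric images of the atom in the hull. -/
theorem count_simd {d w Q : ℕ} (hw : 0 < w) (hQ : 0 < Q) (hd : (lanes d).length < 2 ^ w - 1)
    (X p pc : List ℕ) (hX : ∀ k, X.getD k 0 ≤ Q)
    (hp : ∀ i, i < d → p.getD i 0 = pack w ((permL d).map (fun s => X.getD (s.getD i 0) 0)))
    (hpc : ∀ i, i < d → pc.getD i 0 =
      pack w ((permL d).map (fun s => Q - X.getD (s.getD i 0) 0)))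
    (ones : ℕ) (hones : ones = pack w ((lanes d).map (fun _ => 1)))
    (l : List ℕ) (forms : List (List (ℕ × ℕ) × ℕ)) (hf : formsOk d w Q l forms = true) :
    (∑ g : G d, if actR g (atom d Q X) ∈ hull (toFin d l) then 1 else 0) ≤
      cntOne w Q (PP d w p pc) ones forms := by
  unfold formsOk at hf
  rw [List.all_eq_true] at hf
  have hf1 : ∀ F ∈ forms, ∀ n ∈ l, F.2 ≤ vform d F.1 n := by
    intro F hF n hn
    have h1 := hf F hF
    rw [Bool.and_eq_true, List.all_eq_true] at h1
    exact Nat.le_of_ble_eq_true (h1.1 n hn)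
  have hf2 : ∀ F ∈ forms, (F.1.map Prod.snd).sum * Q < 2 ^ (w - 1) ∧ F.2 * Q ≤ 2 ^ (w - 1) := by
    intro F hF
    have h1 := hf F hF
    rw [Bool.and_eq_true, Bool.and_eq_true] at h1
    exact ⟨Nat.le_of_ble_eq_true h1.2.1, Nat.le_of_ble_eq_true h1.2.2⟩
  refine (count_le hQ X hX l forms hf1).trans ?_
  rw [hones, cntOne_eq w Q hw (lanes d) hd (cc d Q X) (PP d w p pc) (PP_spec d w Q X p pc hp hpc)
    forms (fun F hF => (hf2 F hF).2)
    (fun F hF y _ => lt_of_le_of_lt (formVal_le X hX F.1 y) (hf2 F hF).1)]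

end Pool.Agent.Lib.MP_727085_co
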