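import Pool.Agent.Lib.MP_727085_co.Table
import Pool.Agent.Lib.MP_727085_co.Cover

set_option autoImplicit false

namespace Pool.Agent.Lib.MP_727085_co

open Finset

variable {d : ℕ}

/-- rounding a point to a vertex of its face -/
noncomputable def rnd (v : Fin d → ℝ) : V d := fun j => decide (v j ≠ 0)

theorem toPt_injective : Function.Injective (toPt : V d → (Fin d → ℝ)) := by
  intro a b h
  funext j
  have h1 := congrFun h j
  simp only [toPt] at h1
  cases ha : a j <;> cases hb : b j <;> simp [ha, hb] at h1 ⊢

theorem faceMap_rnd : FaceMap d (fun v => toPt (rnd v)) := by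
  intro v j
  constructor
  · intro h; simp [toPt, rnd, h]
  · intro h; simp [toPt, rnd, h]

/-- a list of real atoms with weights -/
noncomputable def realAtoms (d Q : ℕ) (X : List (List ℕ × ℕ)) : List ((Fin d → ℝ) × ℕ) :=
  X.map (fun a => (atom d Q a.1, a.2))

theorem act_mem_cube (g : G d) (x : Fin d → ℝ) (hx : x ∈ Set.Icc (0 : Fin d → ℝ) 1) :
    actR g x ∈ Set.Icc (0 : Fin d → ℝ) 1 := by
  constructor
  · intro j
    have a := hx.1 (g.1 j)
    have b := hx.2 (g.1 j)
    simp only [Pi.zero_apply, Pi.one_apply] at a b
    simp only [actR, Pi.zero_apply]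
    split_ifs <;> linarith
  · intro j
    have a := hx.1 (g.1 j)
    have b := hx.2 (g.1 j)
    simp only [Pi.zero_apply, Pi.one_apply] at a b
    simp only [actR, Pi.one_apply]
    split_ifs <;> linarith

open Classical in
/-- The simplices rounded to cube vertices cover the cube. -/
def Cov (d : ℕ) (T : Finset (Finset (Fin d → ℝ))) : Prop :=
  ∀ p ∈ Set.Icc (0 : Fin d → ℝ) 1, ∃ s ∈ T, (s.image rnd).card = d + 1 ∧ p ∈ hull (s.image rnd)

/-- For triangulations the rounded simplices cover the cube. -/
theorem cov_of_triang {T : Finset (Finset (Fin d → ℝ))} (hT : IsTriangulation d T) (hd : 0 < d) :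
    Cov d T := by
  classical
  intro p hp
  obtain ⟨s, hs, t, ht1, ht2, -, ht3, ht4⟩ := label_cover hT hd _ faceMap_rnd p hp
  have hteq : (t : Set (Fin d → ℝ)) = toPt '' ((s.image rnd : Finset (V d)) : Set (V d)) := by
    ext y
    constructor
    · intro hy
      obtain ⟨x, hx, rfl⟩ := ht1 y hy
      exact ⟨rnd x, by rw [Finset.mem_coe]; exact Finset.mem_image_of_mem _ hx, rfl⟩
    · rintro ⟨b, hb, rfl⟩
      rw [Finset.mem_coe] at hb
      obtain ⟨x, hx, rfl⟩ := Finset.mem_image.1 hb
      exact ht3 x hx
  refine ⟨s, hs, ?_, ?_⟩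
  · have h1 : t = (s.image rnd).image toPt := by
      apply Finset.coe_injective
      rw [hteq, Finset.coe_image (f := toPt)]
    rw [h1, Finset.card_image_of_injective _ toPt_injective] at ht2
    convert ht2
  · unfold hull
    convert ht4
    exact hteq.symm

/-- For dissections with vertices among the cube vertices the rounded simplices cover the cube. -/
theorem cov_of_vertices {T : Finset (Finset (Fin d → ℝ))} (hT : IsDissection d T)
    (hv : ∀ s ∈ T, ∀ x ∈ s, ∀ j, x j = 0 ∨ x j = 1) : Cov d T := by
  classical
  intro p hp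
  rw [← hT.union_eq] at hp
  obtain ⟨s, hs, hps⟩ := Set.mem_iUnion₂.1 hp
  have hid : ∀ x ∈ s, toPt (rnd x) = x := by
    intro x hx
    funext j
    rcases hv s hs x hx j with h | h
    · simp [toPt, rnd, h]
    · simp [toPt, rnd, h]
  refine ⟨s, hs, ?_, ?_⟩
  · rw [Finset.card_image_of_injOn, hT.card_vertices s hs]
    intro x hx y hy hxy
    rw [← hid x hx, ← hid y hy, hxy]
  · have h1 : toPt '' ((s.image rnd : Finset (V d)) : Set (V d)) = (s : Set (Fin d → ℝ)) := by
      rw [Finset.coe_image, Set.image_image]
      ext y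
      constructor
      · rintro ⟨x, hx, rfl⟩
        show toPt (rnd x) ∈ (s : Set (Fin d → ℝ))
        rw [hid x hx]; exact hx
      · intro hy
        exact ⟨y, hy, hid y hy⟩
    rw [← h1] at hps
    exact hps

/-- Lower bound from a symmetric measure. -/
theorem card_bound {T : Finset (Finset (Fin d → ℝ))} (hT : Cov d T)
    (X : List ((Fin d → ℝ) × ℕ)) (hX : ∀ a ∈ X, a.1 ∈ Set.Icc (0 : Fin d → ℝ) 1) (W : ℕ)
    (hW : ∀ S : Finset (V d), S.card = d + 1 → mass X S ≤ W) :
    (X.map Prod.snd).sum * Fintype.card (G d) ≤ T.card * W := by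
  classical
  let St : Finset (Fin d → ℝ) → Finset (V d) := fun s => s.image rnd
  have hcov : ∀ p ∈ Set.Icc (0 : Fin d → ℝ) 1, ∃ s ∈ T, (St s).card = d + 1 ∧ p ∈ hull (St s) := by
    intro p hp
    obtain ⟨s, hs, h1, h2⟩ := hT p hp
    refine ⟨s, hs, ?_, ?_⟩
    · convert h1
    · convert h2
  have hsum : (X.map Prod.snd).sum * Fintype.card (G d) ≤
      ∑ s ∈ T, (if (St s).card = d + 1 then mass X (St s) else 0) := by
    clear hW
    induction X with
    | nil => simp
    | cons a X ih =>
      have ih' := ih (fun b hb => hX b (by simp [hb]))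
      have h1 : a.2 * Fintype.card (G d) ≤ ∑ s ∈ T, (if (St s).card = d + 1 then
          a.2 * ∑ g : G d, (if actR g a.1 ∈ hull (St s) then 1 else 0) else 0) := by
        have h2 : Fintype.card (G d) = ∑ g : G d, 1 := by simp
        have h3 : ∀ g : G d, 1 ≤ ∑ s ∈ T, (if (St s).card = d + 1 then
            (if actR g a.1 ∈ hull (St s) then 1 else 0) else 0) := by
          intro g
          obtain ⟨s, hs, hc, hm⟩ := hcov (actR g a.1) (act_mem_cube g _ (hX a (by simp)))
          have h4 : (if (St s).card = d + 1 then
            (if actR g a.1 ∈ hull (St s) then 1 else 0) else 0) = 1 := by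
            rw [if_pos hc, if_pos hm]
          refine h4.symm.le.trans ?_
          exact Finset.single_le_sum (f := fun s => (if (St s).card = d + 1 then
            (if actR g a.1 ∈ hull (St s) then 1 else 0) else 0)) (fun _ _ => Nat.zero_le _) hs
        calc a.2 * Fintype.card (G d) = a.2 * ∑ g : G d, 1 := by rw [h2]
          _ ≤ a.2 * ∑ g : G d, ∑ s ∈ T, (if (St s).card = d + 1 then
            (if actR g a.1 ∈ hull (St s) then 1 else 0) else 0) :=
              Nat.mul_le_mul_left _ (Finset.sum_le_sum (fun g _ => h3 g))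
          _ = _ := by
            rw [Finset.sum_comm, Finset.mul_sum]
            apply Finset.sum_congr rfl
            intro s _
            split_ifs
            · rfl
            · simp
      have h5 : ∀ s, mass (a :: X) (St s) =
          a.2 * (∑ g : G d, (if actR g a.1 ∈ hull (St s) then 1 else 0)) + mass X (St s) := by
        intro s
        unfold mass
        rw [List.map_cons, List.sum_cons]
      rw [List.map_cons, List.sum_cons, add_mul]
      calc a.2 * Fintype.card (G d) + (X.map Prod.snd).sum * Fintype.card (G d)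
          ≤ (∑ s ∈ T, (if (St s).card = d + 1 then
          a.2 * ∑ g : G d, (if actR g a.1 ∈ hull (St s) then 1 else 0) else 0)) +
          ∑ s ∈ T, (if (St s).card = d + 1 then mass X (St s) else 0) := add_le_add h1 ih'
        _ = _ := by
          rw [← Finset.sum_add_distrib]
          apply Finset.sum_congr rfl
          intro s _
          by_cases hc : (St s).card = d + 1
          · rw [if_pos hc, if_pos hc, if_pos hc, h5]
          · rw [if_neg hc, if_neg hc, if_neg hc]
  refine hsum.trans ?_
  calc ∑ s ∈ T, (if (St s).card = d + 1 then mass X (St s) else 0) ≤ ∑ s ∈ T, W := by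
        apply Finset.sum_le_sum
        intro s _
        split_ifs with hc
        · exact hW _ hc
        · exact Nat.zero_le _
    _ = T.card * W := by rw [Finset.sum_const, smul_eq_mul]

/-- packed data of an atom -/
structure AD where
  /-- numerators -/
  X : List ℕ
  /-- packed coordinates over the permutations -/
  p : List ℕ
  /-- packed complements -/
  pc : List ℕ
  /-- weight -/
  a : ℕ

/-- validity of the packed data -/
def adOk (d w Q : ℕ) (A : AD) : Bool :=
  A.X.all (fun x => Nat.ble x Q) && (List.range d).all (fun i =>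
    Nat.beq (A.p.getD i 0) (pack w ((permL d).map (fun s => A.X.getD (s.getD i 0) 0))) &&
    Nat.beq (A.pc.getD i 0) (pack w ((permL d).map (fun s => Q - A.X.getD (s.getD i 0) 0))))

/-- packed total mass bound of a hull -/
def tot (d w Q : ℕ) (ones : ℕ) (As : List AD) (forms : List (List (ℕ × ℕ) × ℕ)) : ℕ :=
  (As.map (fun A => A.a * cntOne w Q (PP d w A.p A.pc) ones forms)).sum

theorem getD_le_of_all {Q : ℕ} (X : List ℕ) (h : X.all (fun x => Nat.ble x Q) = true) :
    ∀ k, X.getD k 0 ≤ Q := by
  intro k
  rw [List.all_eq_true] at h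
  by_cases hk : k < X.length
  · rw [List.getD_eq_getElem _ _ hk]
    exact Nat.le_of_ble_eq_true (h _ (List.getElem_mem hk))
  · rw [List.getD_eq_default _ _ (by omega)]; exact Nat.zero_le _

theorem mass_le_tot {w Q : ℕ} (hw : 0 < w) (hQ : 0 < Q) (hd : (lanes d).length < 2 ^ w - 1)
    (ones : ℕ) (hones : ones = pack w ((lanes d).map (fun _ => 1)))
    (As : List AD) (hAs : ∀ A ∈ As, adOk d w Q A = true)
    (l : List ℕ) (forms : List (List (ℕ × ℕ) × ℕ)) (hf : formsOk d w Q l forms = true) :
    mass (realAtoms d Q (As.map (fun A => (A.X, A.a)))) (toFin d l) ≤ tot d w Q ones As forms := by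
  classical
  induction As with
  | nil => simp [mass, realAtoms, tot]
  | cons A As ih =>
    have ih' := ih (fun B hB => hAs B (by simp [hB]))
    have hA := hAs A (by simp)
    unfold adOk at hA
    rw [Bool.and_eq_true, List.all_eq_true (l := List.range d)] at hA
    have h1 := count_simd hw hQ hd A.X A.p A.pc (getD_le_of_all A.X hA.1)
      (fun i hi => by
        have := hA.2 i (List.mem_range.2 hi)
        rw [Bool.and_eq_true] at this
        exact Nat.eq_of_beq_eq_true this.1)
      (fun i hi => by
        have := hA.2 i (List.mem_range.2 hi)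
        rw [Bool.and_eq_true] at this
        exact Nat.eq_of_beq_eq_true this.2) ones hones l forms hf
    have h2 : mass (realAtoms d Q ((A :: As).map (fun A => (A.X, A.a)))) (toFin d l) =
        A.a * (∑ g : G d, (if actR g (atom d Q A.X) ∈ hull (toFin d l) then 1 else 0)) +
        mass (realAtoms d Q (As.map (fun A => (A.X, A.a)))) (toFin d l) := by
      unfold mass realAtoms
      simp only [List.map_cons, List.sum_cons]
    rw [h2]
    unfold tot at ih' ⊢
    rw [List.map_cons, List.sum_cons]
    exact add_le_add (Nat.mul_le_mul_left _ h1) ih'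

theorem atom_mem_cube {Q : ℕ} (hQ : 0 < Q) (X : List ℕ) (hX : ∀ k, X.getD k 0 ≤ Q) :
    atom d Q X ∈ Set.Icc (0 : Fin d → ℝ) 1 := by
  have hQ' : (0 : ℝ) < Q := by exact_mod_cast hQ
  constructor
  · intro j
    simp only [atom, Pi.zero_apply]
    positivity
  · intro j
    simp only [atom, Pi.one_apply]
    rw [div_le_one hQ']
    exact_mod_cast hX j

theorem card_G (d : ℕ) : Fintype.card (G d) = d.factorial * 2 ^ d := by
  rw [Fintype.card_prod, Fintype.card_perm, Fintype.card_fin, Fintype.card_fun, Fintype.card_bool,
    Fintype.card_fin]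

theorem lanes_length (d : ℕ) : (lanes d).length = 2 ^ d * d.factorial := by
  unfold lanes
  rw [List.length_flatMap]
  simp only [List.length_map, permL_length]
  rw [List.map_const', flipL_length, List.sum_replicate, smul_eq_mul]

/-- packed ones -/
theorem ones_eq (d w : ℕ) : pack w ((lanes d).map (fun _ => 1)) =
    rep d (pack w ((permL d).map (fun _ => 1))) (w * d.factorial) := by
  rw [map_flatMap_lanes, rep_eq, List.length_map, permL_length]

/-- Final combination. -/
theorem triang_lower {w Q : ℕ} (hQ : 0 < Q) (As : List AD) (hAs : ∀ A ∈ As, adOk d w Q A = true)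
    (W : ℕ) (R : List (List ℕ)) (hR : Cls (d + 1) (R.map (toFin d)))
    (hmass : ∀ l ∈ R, mass (realAtoms d Q (As.map (fun A => (A.X, A.a)))) (toFin d l) ≤ W)
    (N : ℕ) (hN : N * W < (As.map (fun A => A.a)).sum * (d.factorial * 2 ^ d))
    {T : Finset (Finset (Fin d → ℝ))} (hT : Cov d T) : N < T.card := by
  have h1 := card_bound hT (realAtoms d Q (As.map (fun A => (A.X, A.a)))) (by
    intro a ha
    unfold realAtoms at ha
    rw [List.map_map, List.mem_map] at ha
    obtain ⟨A, hA, rfl⟩ := ha
    have h2 := hAs A hA
    unfold adOk at h2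
    rw [Bool.and_eq_true] at h2
    exact atom_mem_cube hQ A.X (getD_le_of_all A.X h2.1)) W
    (mass_le_of_cls hR _ W (by
      intro r hr
      obtain ⟨l, hl, rfl⟩ := List.mem_map.1 hr
      exact hmass l hl))
  rw [card_G] at h1
  have h3 : ((realAtoms d Q (As.map (fun A => (A.X, A.a)))).map Prod.snd) =
      As.map (fun A => A.a) := by
    unfold realAtoms
    rw [List.map_map, List.map_map]
    rfl
  rw [h3] at h1
  have h4 : N * W < T.card * W := lt_of_lt_of_le hN h1
  exact Nat.lt_of_mul_lt_mul_right h4

end Pool.Agent.Lib.MP_727085_co
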