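import Mathlib

set_option autoImplicit false

namespace Pool.Agent.Lib.MP_727085_co

/-- A dissection of the cube `[0,1]^d` into `d`-simplices, given as the finite set of the vertex
sets of its simplices: each vertex set has `d + 1` affinely independent points, the closed
simplices fill the cube, and distinct simplices have disjoint interiors. -/
structure IsDissection (d : ℕ) (T : Finset (Finset (Fin d → ℝ))) : Prop where
  card_vertices : ∀ s ∈ T, s.card = d + 1
  independent : ∀ s ∈ T, AffineIndependent ℝ (fun x : s => (x : Fin d → ℝ))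
  union_eq : ⋃ s ∈ T, convexHull ℝ (s : Set (Fin d → ℝ)) = Set.Icc 0 1
  interiors : ∀ s ∈ T, ∀ t ∈ T, s ≠ t →
    Disjoint (interior (convexHull ℝ (s : Set (Fin d → ℝ))))
      (interior (convexHull ℝ (t : Set (Fin d → ℝ))))

/-- A triangulation of the cube `[0,1]^d` (vertices anywhere in the cube): a dissection in which
any two simplices meet in the simplex spanned by their common vertices. -/
structure IsTriangulation (d : ℕ) (T : Finset (Finset (Fin d → ℝ))) : Prop
    extends IsDissection d T where
  face_to_face : ∀ s ∈ T, ∀ t ∈ T,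
    convexHull ℝ (s : Set (Fin d → ℝ)) ∩ convexHull ℝ (t : Set (Fin d → ℝ)) =
      convexHull ℝ ((s : Set (Fin d → ℝ)) ∩ (t : Set (Fin d → ℝ)))

/-- Face-to-face: any two simplices meet in the simplex spanned by their common vertices. -/
def FaceToFace (d : ℕ) (T : Finset (Finset (Fin d → ℝ))) : Prop :=
  ∀ s ∈ T, ∀ t ∈ T,
    convexHull ℝ (s : Set (Fin d → ℝ)) ∩ convexHull ℝ (t : Set (Fin d → ℝ)) =
      convexHull ℝ ((s : Set (Fin d → ℝ)) ∩ (t : Set (Fin d → ℝ)))

/-- No new vertices: all vertices of the simplices are vertices of the cube. -/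
def CubeVertices (d : ℕ) (T : Finset (Finset (Fin d → ℝ))) : Prop :=
  ∀ s ∈ T, ∀ x ∈ s, ∀ j, x j = 0 ∨ x j = 1

end Pool.Agent.Lib.MP_727085_co
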