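import Pool.Agent.Lib.MP_727085_co.Cert

set_option autoImplicit false
set_option maxRecDepth 100000

/-!
# Lower bounds for dissections in dimensions five to ten
-/

namespace Pool.Agent.Lib.MP_727085_co.Cert

open Pool.Agent.Lib.MP_727085_co

namespace D5

/-- coefficients -/
def c (n : ℕ) : ℤ :=
  ([0, 0, -33, 167, 1333, 2000] : List ℤ).getD n 0

/-- affine bounds in dimension 3 -/
def L3 : List (ℤ × ℤ) :=
  [(0, 167), (134, 0), (101, 0), (68, 0)]

/-- affine bounds in dimension 4 -/
def L4 : List (ℤ × ℤ) :=
  [(0, 1333), (3000, 0), (268, 1333), (1636, 0), (1605, 0)]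

/-- affine bounds in dimension 5 -/
def L5 : List (ℤ × ℤ) :=
  [(0, 2000), (3999, 2000), (10000, 0), (6908, 0), (8544, 0), (10025, 0)]

theorem s3 : stepChk c 1 [(0, c 2), (0, c 2), (0, c 2)] L3 = true := by decide +kernel
theorem s4 : stepChk c 2 L3 L4 = true := by decide +kernel
theorem s5 : stepChk c 3 L4 L5 = true := by decide +kernel
theorem b3 : Bd c 2 L3 := step (by norm_num) (by norm_num) s3 (start c rfl)
theorem b4 : Bd c 3 L4 := step (by norm_num) (by norm_num) s4 b3
theorem b5 : Bd c 4 L5 := step (by norm_num) (by norm_num) s5 b4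
theorem top : topChk 4 L5 10025 = true := by decide +kernel
theorem tt : (10025 : ℤ) * ((60 : ℕ) : ℤ) < total c 5 := by decide +kernel

/-- At least `61` simplices in dimension 5. -/
theorem bound (T : Finset (Finset (Fin 5 → ℝ))) (hT : IsDissection 5 T) : 61 ≤ T.card :=
  final (k := 4) (by norm_num) (by norm_num) b5 top 60 tt (by norm_num) T hT

end D5

namespace D6

/-- coefficients -/
def c (n : ℕ) : ℤ :=
  ([0, 0, -377, 1222, 815, 8889, 11111] : List ℤ).getD n 0

/-- affine bounds in dimension 3 -/
def L3 : List (ℤ × ℤ) :=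
  [(0, 1222), (845, 0), (468, 0), (91, 0)]

/-- affine bounds in dimension 4 -/
def L4 : List (ℤ × ℤ) :=
  [(0, 815), (4074, 0), (2505, 0), (2219, 0), (364, 815)]

/-- affine bounds in dimension 5 -/
def L5 : List (ℤ × ℤ) :=
  [(0, 8889), (7335, 7259), (25926, 0), (16404, 0), (17765, 0), (14784, 0)]

/-- affine bounds in dimension 6 -/
def L6 : List (ℤ × ℤ) :=
  [(0, 11111), (44445, 11111), (58224, 11111), (77778, 11111), (82171, 0), (88825, 11111),
   (99815, 0)]

theorem s3 : stepChk c 1 [(0, c 2), (0, c 2), (0, c 2)] L3 = true := by decide +kernel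
theorem s4 : stepChk c 2 L3 L4 = true := by decide +kernel
theorem s5 : stepChk c 3 L4 L5 = true := by decide +kernel
theorem s6 : stepChk c 4 L5 L6 = true := by decide +kernel
theorem b3 : Bd c 2 L3 := step (by norm_num) (by norm_num) s3 (start c rfl)
theorem b4 : Bd c 3 L4 := step (by norm_num) (by norm_num) s4 b3
theorem b5 : Bd c 4 L5 := step (by norm_num) (by norm_num) s5 b4
theorem b6 : Bd c 5 L6 := step (by norm_num) (by norm_num) s6 b5
theorem top : topChk 5 L6 100000 = true := by decide +kernel
theorem tt : (100000 : ℤ) * ((258 : ℕ) : ℤ) < total c 6 := by decide +kernel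

/-- At least `259` simplices in dimension 6. -/
theorem bound (T : Finset (Finset (Fin 6 → ℝ))) (hT : IsDissection 6 T) : 259 ≤ T.card :=
  final (k := 5) (by norm_num) (by norm_num) b6 top 258 tt (by norm_num) T hT

end D6

namespace D7

/-- coefficients -/
def c (n : ℕ) : ℤ :=
  ([0, 0, -243, 0, 3964, 4514, 79861, 31250] : List ℤ).getD n 0

/-- affine bounds in dimension 3 -/
def L3 : List (ℤ × ℤ) :=
  [(0, 0), (0, -243), (0, -338), (0, -729)]

/-- affine bounds in dimension 4 -/
def L4 : List (ℤ × ℤ) :=
  [(0, 3964), (7928, 0), (0, 3478), (2950, 0), (1048, 0)]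

/-- affine bounds in dimension 5 -/
def L5 : List (ℤ × ℤ) :=
  [(0, 4514), (11892, 4514), (24884, 0), (14948, 0), (11800, 4514), (9754, 0)]

/-- affine bounds in dimension 6 -/
def L6 : List (ℤ × ℤ) :=
  [(0, 79861), (29730, 78429), (50868, 79861), (234374, 0), (145117, 0), (161431, 0),
   (138385, 0)]

/-- affine bounds in dimension 7 -/
def L7 : List (ℤ × ℤ) :=
  [(0, 31250), (718749, 31250), (843750, 31250), (871353, 31250), (999996, 0), (838405, 0),
   (999836, 0), (999945, 0)]

theorem s3 : stepChk c 1 [(0, c 2), (0, c 2), (0, c 2)] L3 = true := by decide +kernel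
theorem s4 : stepChk c 2 L3 L4 = true := by decide +kernel
theorem s5 : stepChk c 3 L4 L5 = true := by decide +kernel
theorem s6 : stepChk c 4 L5 L6 = true := by decide +kernel
theorem s7 : stepChk c 5 L6 L7 = true := by decide +kernel
theorem b3 : Bd c 2 L3 := step (by norm_num) (by norm_num) s3 (start c rfl)
theorem b4 : Bd c 3 L4 := step (by norm_num) (by norm_num) s4 b3
theorem b5 : Bd c 4 L5 := step (by norm_num) (by norm_num) s5 b4
theorem b6 : Bd c 5 L6 := step (by norm_num) (by norm_num) s6 b5
theorem b7 : Bd c 6 L7 := step (by norm_num) (by norm_num) s7 b6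
theorem top : topChk 6 L7 1000000 = true := by decide +kernel
theorem tt : (1000000 : ℤ) * ((1174 : ℕ) : ℤ) < total c 7 := by decide +kernel

/-- At least `1175` simplices in dimension 7. -/
theorem bound (T : Finset (Finset (Fin 7 → ℝ))) (hT : IsDissection 7 T) : 1175 ≤ T.card :=
  final (k := 6) (by norm_num) (by norm_num) b7 top 1174 tt (by norm_num) T hT

end D7

namespace D8

/-- coefficients -/
def c (n : ℕ) : ℤ :=
  ([0, 0, -4591, -4519, 132691, -498277, 2707707, 1809211, 1315789] : List ℤ).getD n 0

/-- affine bounds in dimension 3 -/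
def L3 : List (ℤ × ℤ) :=
  [(0, -4519), (0, -9110), (0, -13701), (0, -18292)]

/-- affine bounds in dimension 4 -/
def L4 : List (ℤ × ℤ) :=
  [(0, 132691), (0, 128172), (0, 114471), (91588, 0), (59523, 0)]

/-- affine bounds in dimension 5 -/
def L5 : List (ℤ × ℤ) :=
  [(0, -498277), (398073, -498277), (512688, -498277), (343413, -288432), (366352, -498277),
   (297615, -498277)]

/-- affine bounds in dimension 6 -/
def L6 : List (ℤ × ℤ) :=
  [(0, 2707707), (995185, 2010393), (1483834, 1481924), (1781486, 1091165), (2927631, 0),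
   (2048082, 0), (1785690, -281955)]

/-- affine bounds in dimension 7 -/
def L7 : List (ℤ × ℤ) :=
  [(0, 1809211), (24369363, 1809211), (22094300, 1809211), (17788818, 1809211), (19473686, 0),
   (16447366, 0), (14097703, 0), (12499830, -164474)]

/-- affine bounds in dimension 8 -/
def L8 : List (ℤ × ℤ) :=
  [(0, 1315789), (57894752, 1315789), (81304524, 1315789), (93421065, 1315789),
   (92865804, 1315789), (97368430, 1315789), (98684196, 1315790), (99999710, 0), (99998640, 0)]

theorem s3 : stepChk c 1 [(0, c 2), (0, c 2), (0, c 2)] L3 = true := by decide +kernel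
theorem s4 : stepChk c 2 L3 L4 = true := by decide +kernel
theorem s5 : stepChk c 3 L4 L5 = true := by decide +kernel
theorem s6 : stepChk c 4 L5 L6 = true := by decide +kernel
theorem s7 : stepChk c 5 L6 L7 = true := by decide +kernel
theorem s8 : stepChk c 6 L7 L8 = true := by decide +kernel
theorem b3 : Bd c 2 L3 := step (by norm_num) (by norm_num) s3 (start c rfl)
theorem b4 : Bd c 3 L4 := step (by norm_num) (by norm_num) s4 b3
theorem b5 : Bd c 4 L5 := step (by norm_num) (by norm_num) s5 b4
theorem b6 : Bd c 5 L6 := step (by norm_num) (by norm_num) s6 b5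
theorem b7 : Bd c 6 L7 := step (by norm_num) (by norm_num) s7 b6
theorem b8 : Bd c 7 L8 := step (by norm_num) (by norm_num) s8 b7
theorem top : topChk 7 L8 100000010 = true := by decide +kernel
theorem tt : (100000010 : ℤ) * ((5428 : ℕ) : ℤ) < total c 8 := by decide +kernel

/-- At least `5429` simplices in dimension 8. -/
theorem bound (T : Finset (Finset (Fin 8 → ℝ))) (hT : IsDissection 8 T) : 5429 ≤ T.card :=
  final (k := 7) (by norm_num) (by norm_num) b8 top 5428 tt (by norm_num) T hT

end D8

namespace D9

/-- coefficients -/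
def c (n : ℕ) : ℤ :=
  ([0, 0, -21082, 77785, 7980, -1157857, 5423629, 5031208, 8029690, 5128205] : List ℤ).getD n 0

/-- affine bounds in dimension 3 -/
def L3 : List (ℤ × ℤ) :=
  [(0, 77785), (0, 56703), (35621, 0), (0, 14539)]

/-- affine bounds in dimension 4 -/
def L4 : List (ℤ × ℤ) :=
  [(0, 7980), (155570, 7980), (121386, 0), (114843, 0), (66136, 0)]

/-- affine bounds in dimension 5 -/
def L5 : List (ℤ × ℤ) :=
  [(0, -1157857), (466708, -1305446), (343060, -1157857), (364158, -854167),
   (459372, -1157857), (330680, -1157857)]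

/-- affine bounds in dimension 6 -/
def L6 : List (ℤ × ℤ) :=
  [(0, 5423629), (834809, 4098811), (1979602, 2464009), (2977910, 975693), (1837498, 1626095),
   (2296860, -365655), (1984080, -1523512)]

/-- affine bounds in dimension 7 -/
def L7 : List (ℤ × ℤ) :=
  [(0, 5031208), (48812661, 5031208), (42657728, 5031208), (28114887, 5031208),
   (19717184, 5031208), (22349173, 0), (16618438, 0), (13888560, -1074936)]

/-- affine bounds in dimension 8 -/
def L8 : List (ℤ × ℤ) :=
  [(0, 8029690), (160998656, 8029690), (188187066, 8029690), (203441304, 8029690),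
   (172834044, 8029690), (164957380, 0), (134095038, 8029690), (116329066, 8029690),
   (111108483, -569801)]

/-- affine bounds in dimension 9 -/
def L9 : List (ℤ × ℤ) :=
  [(0, 5128205), (610256440, 5128205), (835897472, 5128205), (781362828, 5128205),
   (974359016, 5128205), (984615570, 5128205), (1000000690, 0), (1000001300, 1),
   (994870048, 5128205), (999976347, 0)]

theorem s3 : stepChk c 1 [(0, c 2), (0, c 2), (0, c 2)] L3 = true := by decide +kernel
theorem s4 : stepChk c 2 L3 L4 = true := by decide +kernel
theorem s5 : stepChk c 3 L4 L5 = true := by decide +kernel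
theorem s6 : stepChk c 4 L5 L6 = true := by decide +kernel
theorem s7 : stepChk c 5 L6 L7 = true := by decide +kernel
theorem s8 : stepChk c 6 L7 L8 = true := by decide +kernel
theorem s9 : stepChk c 7 L8 L9 = true := by decide +kernel
theorem b3 : Bd c 2 L3 := step (by norm_num) (by norm_num) s3 (start c rfl)
theorem b4 : Bd c 3 L4 := step (by norm_num) (by norm_num) s4 b3
theorem b5 : Bd c 4 L5 := step (by norm_num) (by norm_num) s5 b4
theorem b6 : Bd c 5 L6 := step (by norm_num) (by norm_num) s6 b5
theorem b7 : Bd c 6 L7 := step (by norm_num) (by norm_num) s7 b6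
theorem b8 : Bd c 7 L8 := step (by norm_num) (by norm_num) s8 b7
theorem b9 : Bd c 8 L9 := step (by norm_num) (by norm_num) s9 b8
theorem top : topChk 8 L9 1000001301 = true := by decide +kernel
theorem tt : (1000001301 : ℤ) * ((24933 : ℕ) : ℤ) < total c 9 := by decide +kernel

/-- At least `24934` simplices in dimension 9. -/
theorem bound (T : Finset (Finset (Fin 9 → ℝ))) (hT : IsDissection 9 T) : 24934 ≤ T.card :=
  final (k := 8) (by norm_num) (by norm_num) b9 top 24933 tt (by norm_num) T hT

end D9

namespace D10

/-- coefficients -/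
def c (n : ℕ) : ℤ :=
  ([0, 0, -551146, 1653439, 0, -24891915, 87288572, 87359089, 241043514, 320881933, 191938580] : List ℤ).getD n 0

/-- affine bounds in dimension 3 -/
def L3 : List (ℤ × ℤ) :=
  [(0, 1653439), (1102293, 0), (1, 551146), (1, 0)]

/-- affine bounds in dimension 4 -/
def L4 : List (ℤ × ℤ) :=
  [(0, 0), (3306878, 0), (2204586, 0), (1653441, 0), (4, 0)]

/-- affine bounds in dimension 5 -/
def L5 : List (ℤ × ℤ) :=
  [(0, -19444937), (9920634, -28198793), (6613756, -24891915), (6613758, -24891915),
   (6613764, -24891915), (20, -24891915)]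

/-- affine bounds in dimension 6 -/
def L6 : List (ℤ × ℤ) :=
  [(0, 87288572), (9920635, 65859508), (39682539, 24277229), (45066922, 0),
   (26455056, -12279088), (33068821, -37171004), (121, -62062919)]

/-- affine bounds in dimension 7 -/
def L7 : List (ℤ × ℤ) :=
  [(0, 87359089), (785597148, 87359089), (678436350, 87359089), (337542678, 87359089),
   (180267688, 87359089), (165344105, -7105136), (198412926, -135666932), (847, -34587133)]

/-- affine bounds in dimension 8 -/
def L8 : List (ℤ × ℤ) :=
  [(0, 241043514), (2795490848, 241043514), (3143657898, 241043514), (3345695385, 241043514),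
   (2398479780, 241043514), (1774929330, 241043514), (1190477556, 0), (1388890482, -45840276),
   (6776, -35653548)]

/-- affine bounds in dimension 9 -/
def L9 : List (ℤ × ℤ) :=
  [(0, 320881933), (18319307064, 320881933), (21017766592, 320881933),
   (15939148572, 320881933), (18203651820, 320881934), (15608051610, 320881934),
   (13542098150, 320881932), (9722233375, 0), (11111123857, -45840276), (60985, 0)]

/-- affine bounds in dimension 10 -/
def L10 : List (ℤ × ℤ) :=
  [(0, 191938580), (100000000035, 0), (85412667944, 191938580), (93857965344, 191938580),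
   (84137123220, -789036872), (99040307520, 191938566), (99424184472, 191938590),
   (99670911258, 0), (88888990856, 0), (100000114713, -220623872), (100000609975, -99808061545)]

theorem s3 : stepChk c 1 [(0, c 2), (0, c 2), (0, c 2)] L3 = true := by decide +kernel
theorem s4 : stepChk c 2 L3 L4 = true := by decide +kernel
theorem s5 : stepChk c 3 L4 L5 = true := by decide +kernel
theorem s6 : stepChk c 4 L5 L6 = true := by decide +kernel
theorem s7 : stepChk c 5 L6 L7 = true := by decide +kernel
theorem s8 : stepChk c 6 L7 L8 = true := by decide +kernel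
theorem s9 : stepChk c 7 L8 L9 = true := by decide +kernel
theorem s10 : stepChk c 8 L9 L10 = true := by decide +kernel
theorem b3 : Bd c 2 L3 := step (by norm_num) (by norm_num) s3 (start c rfl)
theorem b4 : Bd c 3 L4 := step (by norm_num) (by norm_num) s4 b3
theorem b5 : Bd c 4 L5 := step (by norm_num) (by norm_num) s5 b4
theorem b6 : Bd c 5 L6 := step (by norm_num) (by norm_num) s6 b5
theorem b7 : Bd c 6 L7 := step (by norm_num) (by norm_num) s7 b6
theorem b8 : Bd c 7 L8 := step (by norm_num) (by norm_num) s8 b7
theorem b9 : Bd c 8 L9 := step (by norm_num) (by norm_num) s9 b8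
theorem b10 : Bd c 9 L10 := step (by norm_num) (by norm_num) s10 b9
theorem top : topChk 9 L10 100000609975 = true := by decide +kernel
theorem tt : (100000609975 : ℤ) * ((114936 : ℕ) : ℤ) < total c 10 := by decide +kernel

/-- At least `114937` simplices in dimension 10. -/
theorem bound (T : Finset (Finset (Fin 10 → ℝ))) (hT : IsDissection 10 T) : 114937 ≤ T.card :=
  final (k := 9) (by norm_num) (by norm_num) b10 top 114936 tt (by norm_num) T hT

end D10

end Pool.Agent.Lib.MP_727085_co.Cert
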