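import Pool.Agent.Lib.MP_727085_co.Defs

set_option autoImplicit false

namespace Pool.Agent.Lib.MP_727085_co

open Finset

/-- vertices of the cube -/
abbrev V (d : ℕ) := Fin d → Bool

/-- the vertex as a point -/
def toPt {d : ℕ} (b : V d) : Fin d → ℝ := fun j => if b j then 1 else 0

/-- symmetries of the cube: a permutation of the coordinates and a set of flips -/
abbrev G (d : ℕ) := Equiv.Perm (Fin d) × (Fin d → Bool)

variable {d : ℕ}

/-- action on vertices -/
def actV (g : G d) (b : V d) : V d := fun j => xor (g.2 j) (b (g.1 j))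

/-- action on points -/
def actR (g : G d) (x : Fin d → ℝ) : Fin d → ℝ := fun j => if g.2 j then 1 - x (g.1 j) else x (g.1 j)

/-- composition: first `g`, then `h` -/
def comp (h g : G d) : G d := (g.1 * h.1, fun j => xor (h.2 j) (g.2 (h.1 j)))

theorem actV_comp (h g : G d) (b : V d) : actV (comp h g) b = actV h (actV g b) := by
  funext j
  simp only [actV, comp, Equiv.Perm.mul_apply, Bool.xor_assoc]

theorem actR_comp (h g : G d) (x : Fin d → ℝ) : actR (comp h g) x = actR h (actR g x) := by
  funext j
  simp only [actR, comp, Equiv.Perm.mul_apply]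
  rcases Bool.eq_false_or_eq_true (h.2 j) with h1 | h1 <;>
    rcases Bool.eq_false_or_eq_true (g.2 (h.1 j)) with h2 | h2 <;> simp [h1, h2]

theorem toPt_actV (g : G d) (b : V d) : toPt (actV g b) = actR g (toPt b) := by
  funext j
  simp only [toPt, actV, actR]
  rcases Bool.eq_false_or_eq_true (g.2 j) with h1 | h1 <;>
    rcases Bool.eq_false_or_eq_true (b (g.1 j)) with h2 | h2 <;> simp [h1, h2]

/-- the inverse symmetry -/
def inv (h : G d) : G d := (h.1.symm, fun j => h.2 (h.1.symm j))

theorem actR_inv_left (h : G d) (x : Fin d → ℝ) : actR (inv h) (actR h x) = x := by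
  funext j
  simp only [actR, inv, Equiv.apply_symm_apply]
  cases h1 : h.2 (h.1.symm j) <;> simp

theorem actR_inv_right (h : G d) (x : Fin d → ℝ) : actR h (actR (inv h) x) = x := by
  funext j
  simp only [actR, inv, Equiv.symm_apply_apply]
  cases h1 : h.2 j <;> simp

theorem actV_inv_left (h : G d) (b : V d) : actV (inv h) (actV h b) = b := by
  funext j
  simp only [actV, inv, Equiv.apply_symm_apply]
  cases h1 : h.2 (h.1.symm j) <;> cases h2 : b j <;> rfl

theorem actV_injective (h : G d) : Function.Injective (actV h) := by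
  intro a b hab
  rw [← actV_inv_left h a, ← actV_inv_left h b, hab]

/-- left translation by `h` as a bijection of the symmetries -/
def compEquiv (h : G d) : G d ≃ G d where
  toFun g := comp h g
  invFun g := comp (inv h) g
  left_inv g := by
    apply Prod.ext
    · ext j; simp [comp, inv]
    · funext j
      simp only [comp, inv, Equiv.apply_symm_apply]
      cases h1 : h.2 (h.1.symm j) <;> simp
  right_inv g := by
    apply Prod.ext
    · ext j; simp [comp, inv]
    · funext j
      simp only [comp, inv, Equiv.symm_apply_apply]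
      cases h1 : h.2 j <;> simp

/-- closed hull of a set of vertices -/
def hull (S : Finset (V d)) : Set (Fin d → ℝ) := convexHull ℝ (toPt '' (S : Set (V d)))

theorem actR_combo (g : G d) (x y : Fin d → ℝ) (a b : ℝ) (hab : a + b = 1) :
    actR g (a • x + b • y) = a • actR g x + b • actR g y := by
  funext j
  simp only [actR, Pi.add_apply, Pi.smul_apply, smul_eq_mul]
  cases g.2 j
  · simp
  · simp only [if_true]
    have : b = 1 - a := by linarith
    rw [this]; ring

theorem actR_mem_hull (g : G d) (S : Finset (V d)) (x : Fin d → ℝ) (hx : x ∈ hull S) :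
    actR g x ∈ hull (S.image (actV g)) := by
  have hconv : Convex ℝ {y : Fin d → ℝ | actR g y ∈ hull (S.image (actV g))} := by
    intro y hy z hz a b ha hb hab
    show actR g (a • y + b • z) ∈ hull (S.image (actV g))
    rw [actR_combo g y z a b hab]
    exact (convex_convexHull ℝ _) hy hz ha hb hab
  refine convexHull_min ?_ hconv hx
  rintro y ⟨b, hb, rfl⟩
  show actR g (toPt b) ∈ hull (S.image (actV g))
  rw [← toPt_actV]
  apply subset_convexHull
  exact ⟨actV g b, by rw [Finset.mem_coe]; exact Finset.mem_image_of_mem _ hb, rfl⟩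

theorem actR_mem_hull_iff (g : G d) (S : Finset (V d)) (x : Fin d → ℝ) :
    actR g x ∈ hull (S.image (actV g)) ↔ x ∈ hull S := by
  constructor
  · intro h
    have h1 := actR_mem_hull (inv g) _ _ h
    rw [actR_inv_left, Finset.image_image] at h1
    have h2 : S.image (actV (inv g) ∘ actV g) = S := by
      have : (actV (inv g) ∘ actV g) = (id : V d → V d) := by
        funext b; exact actV_inv_left g b
      rw [this, Finset.image_id]
    rwa [h2] at h1
  · exact actR_mem_hull g S x

open Classical in
/-- symmetrised weight of the hull of `S`: atoms `x` (list with weights), all symmetric images. -/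
noncomputable def mass (X : List ((Fin d → ℝ) × ℕ)) (S : Finset (V d)) : ℕ :=
  (X.map (fun a => a.2 * ∑ g : G d, if actR g a.1 ∈ hull S then 1 else 0)).sum

theorem mass_image (X : List ((Fin d → ℝ) × ℕ)) (S : Finset (V d)) (h : G d) :
    mass X (S.image (actV h)) = mass X S := by
  classical
  unfold mass
  congr 1
  apply List.map_congr_left
  intro a _
  congr 1
  rw [← (compEquiv h).sum_comp]
  apply Finset.sum_congr rfl
  intro g _
  have : actR (compEquiv h g) a.1 = actR h (actR g a.1) := actR_comp h g a.1
  rw [this, if_congr (actR_mem_hull_iff h S _) rfl rfl]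

/-- every `k`-set of vertices can be moved to a member of `R`. -/
def Cls (k : ℕ) (R : List (Finset (V d))) : Prop :=
  ∀ S : Finset (V d), S.card = k → ∃ h : G d, S.image (actV h) ∈ R

theorem cls_step {k : ℕ} {R R' : List (Finset (V d))} (hR : Cls k R)
    (hstep : ∀ r ∈ R, r.card = k → ∀ v, v ∉ r → ∃ h : G d, (insert v r).image (actV h) ∈ R') :
    Cls (k + 1) R' := by
  intro S hS
  obtain ⟨v, hv⟩ : S.Nonempty := by
    rw [← Finset.card_pos, hS]; omega
  have hSe : (S.erase v).card = k := by rw [Finset.card_erase_of_mem hv, hS]; rfl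
  obtain ⟨h, hh⟩ := hR (S.erase v) hSe
  have hv' : actV h v ∉ (S.erase v).image (actV h) := by
    intro hcon
    obtain ⟨u, hu, huv⟩ := Finset.mem_image.1 hcon
    have := actV_injective h huv
    rw [this] at hu
    exact Finset.notMem_erase v S hu
  obtain ⟨h', hh'⟩ := hstep _ hh
    (by rw [Finset.card_image_of_injective _ (actV_injective h), hSe]) _ hv'
  refine ⟨comp h' h, ?_⟩
  have h1 : S.image (actV (comp h' h)) =
      (insert (actV h v) ((S.erase v).image (actV h))).image (actV h') := by
    rw [← Finset.image_insert, Finset.insert_erase hv, Finset.image_image]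
    congr 1
    funext b
    exact actV_comp h' h b
  rw [h1]; exact hh'

theorem mass_le_of_cls {k : ℕ} {R : List (Finset (V d))} (hR : Cls k R)
    (X : List ((Fin d → ℝ) × ℕ)) (W : ℕ) (hW : ∀ r ∈ R, mass X r ≤ W) (S : Finset (V d))
    (hS : S.card = k) : mass X S ≤ W := by
  obtain ⟨h, hh⟩ := hR S hS
  rw [← mass_image X S h]
  exact hW _ hh

end Pool.Agent.Lib.MP_727085_co
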