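import Pool.Agent.Lib.MP_727085_co.Simd
import Pool.Agent.Lib.MP_727085_co.Sym

set_option autoImplicit false

namespace Pool.Agent.Lib.MP_727085_co

open Finset

/-- all permutations of `0, …, n-1` as lists of values -/
def permL : ℕ → List (List ℕ)
  | 0 => [[]]
  | n + 1 => (List.range (n + 1)).flatMap fun p =>
      (permL n).map fun t => p :: t.map fun x => if x + 1 = p then 0 else x + 1

/-- all flip patterns -/
def flipL : ℕ → List (List Bool)
  | 0 => [[]]
  | n + 1 => (flipL n).map (fun f => false :: f) ++ (flipL n).map (fun f => true :: f)

theorem sum_flatMap_map {α β : Type*} (l : List α) (g : α → List β) (φ : β → ℕ) :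
    ((l.flatMap g).map φ).sum = (l.map (fun a => ((g a).map φ).sum)).sum := by
  induction l with
  | nil => rfl
  | cons a l ih =>
    rw [List.flatMap_cons, List.map_append, List.sum_append, ih]; rfl

theorem sum_range_list (n : ℕ) (φ : ℕ → ℕ) :
    ((List.range n).map φ).sum = ∑ p : Fin n, φ p := by
  induction n with
  | zero => simp
  | succ n ih =>
    rw [List.range_succ, List.map_append, List.sum_append, ih, Fin.sum_univ_castSucc]
    simp

theorem permL_sum (n : ℕ) (φ : List ℕ → ℕ) :
    ∑ σ : Equiv.Perm (Fin n), φ (List.ofFn (fun j => ((σ j : Fin n) : ℕ))) =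
      ((permL n).map φ).sum := by
  induction n generalizing φ with
  | zero =>
    simp [permL]
  | succ n ih =>
    rw [← (Equiv.Perm.decomposeFin (n := n)).symm.sum_comp, Fintype.sum_prod_type]
    rw [permL, sum_flatMap_map, sum_range_list]
    apply Finset.sum_congr rfl
    intro p _
    rw [List.map_map]
    rw [show ((permL n).map (φ ∘ fun t => (p : ℕ) :: t.map fun x => if x + 1 = (p : ℕ) then 0
      else x + 1)) = (permL n).map (fun t => φ ((p : ℕ) :: t.map fun x => if x + 1 = (p : ℕ) then 0
      else x + 1)) from rfl]
    rw [← ih (fun t => φ ((p : ℕ) :: t.map fun x => if x + 1 = (p : ℕ) then 0 else x + 1))]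
    apply Finset.sum_congr rfl
    intro σ _
    congr 1
    rw [List.ofFn_succ]
    congr 1
    · rw [Equiv.Perm.decomposeFin_symm_apply_zero]
    · rw [List.map_ofFn]
      congr 1
      funext j
      rw [Equiv.Perm.decomposeFin_symm_apply_succ]
      simp only [Function.comp]
      by_cases h : ((σ j : Fin n) : ℕ) + 1 = (p : ℕ)
      · have h1 : p = (σ j).succ := by
          apply Fin.ext; simp [h]
        rw [if_pos h, h1, Equiv.swap_apply_right]
        rfl
      · have h1 : (σ j).succ ≠ p := by
          intro h2; apply h; rw [← h2]; simp
        rw [if_neg h, Equiv.swap_apply_of_ne_of_ne (Fin.succ_ne_zero _) h1]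
        simp

theorem flipL_sum (n : ℕ) (φ : List Bool → ℕ) :
    ∑ f : Fin n → Bool, φ (List.ofFn f) = ((flipL n).map φ).sum := by
  induction n generalizing φ with
  | zero => simp [flipL]
  | succ n ih =>
    rw [← (Fin.consEquiv (fun _ : Fin (n + 1) => Bool)).sum_comp, Fintype.sum_prod_type,
      Fintype.sum_bool]
    rw [flipL, List.map_append, List.sum_append, List.map_map, List.map_map]
    rw [show ((flipL n).map (φ ∘ fun f => false :: f)) = (flipL n).map (fun f => φ (false :: f))
      from rfl, show ((flipL n).map (φ ∘ fun f => true :: f)) = (flipL n).map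
      (fun f => φ (true :: f)) from rfl]
    rw [← ih (fun f => φ (false :: f)), ← ih (fun f => φ (true :: f)), add_comm]
    congr 1
    · apply Finset.sum_congr rfl
      intro f _
      congr 1
      rw [List.ofFn_succ]
      rfl
    · apply Finset.sum_congr rfl
      intro f _
      congr 1
      rw [List.ofFn_succ]
      rfl

/-- lanes: all pairs (flips, permutation) -/
def lanes (d : ℕ) : List (List Bool × List ℕ) :=
  (flipL d).flatMap fun f => (permL d).map fun p => (f, p)

/-- coordinate value -/
def xv (Q : ℕ) (X : List ℕ) (b : Bool) (k : ℕ) : ℕ :=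
  if b then Q - X.getD k 0 else X.getD k 0

/-- lane coordinates: index `i < d` is the coordinate, `d ≤ i < 2 d` its complement. -/
def cc (d Q : ℕ) (X : List ℕ) (i : ℕ) (y : List Bool × List ℕ) : ℕ :=
  if i < d then xv Q X (y.1.getD i false) (y.2.getD i 0)
  else if i < 2 * d then xv Q X (!(y.1.getD (i - d) false)) (y.2.getD (i - d) 0)
  else 0

/-- the block `p` repeated `2^n` times (`len` bits each) -/
def rep : ℕ → ℕ → ℕ → ℕ
  | 0, p, _ => p
  | n + 1, p, len => rep n p len * (1 + 2 ^ (len * 2 ^ n))

/-- blocks `p`, `pc` chosen by the `i`-th flip -/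
def fl : ℕ → ℕ → ℕ → ℕ → ℕ → ℕ
  | 0, _, p, _, _ => p
  | n + 1, 0, p, pc, len => rep n p len + 2 ^ (len * 2 ^ n) * rep n pc len
  | n + 1, i + 1, p, pc, len => fl n i p pc len * (1 + 2 ^ (len * 2 ^ n))

theorem flipL_length (n : ℕ) : (flipL n).length = 2 ^ n := by
  induction n with
  | zero => rfl
  | succ n ih => rw [flipL, List.length_append, List.length_map, List.length_map, ih]; ring

theorem flatMap_length {α : Type*} (l : List α) (g : α → List ℕ) (m : ℕ)
    (hg : ∀ a ∈ l, (g a).length = m) : (l.flatMap g).length = l.length * m := by
  induction l with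
  | nil => simp
  | cons a l ih =>
    rw [List.flatMap_cons, List.length_append, hg a (by simp),
      ih (fun b hb => hg b (by simp [hb])), List.length_cons]
    ring

theorem rep_eq (w n : ℕ) (B : List ℕ) :
    pack w ((flipL n).flatMap (fun _ => B)) = rep n (pack w B) (w * B.length) := by
  induction n with
  | zero => simp [flipL, rep]
  | succ n ih =>
    rw [flipL, List.flatMap_append, pack_append, List.flatMap_map, List.flatMap_map, ih, rep,
      flatMap_length _ _ B.length (fun _ _ => rfl), flipL_length]
    have : w * (2 ^ n * B.length) = w * B.length * 2 ^ n := by ring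
    rw [this]; ring

theorem fl_eq (w n i : ℕ) (B0 B1 : List ℕ) (hlen : B0.length = B1.length) (hi : i < n) :
    pack w ((flipL n).flatMap (fun f => if f.getD i false then B1 else B0)) =
      fl n i (pack w B0) (pack w B1) (w * B0.length) := by
  induction n generalizing i with
  | zero => omega
  | succ n ih =>
    rw [flipL, List.flatMap_append, pack_append, List.flatMap_map, List.flatMap_map]
    cases i with
    | zero =>
      simp only [List.getD_cons_zero]
      rw [fl]
      simp only [Bool.false_eq_true, if_false, if_true]
      rw [rep_eq, rep_eq, flatMap_length _ _ B0.length (fun _ _ => rfl), flipL_length, ← hlen]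
      have : w * (2 ^ n * B0.length) = w * B0.length * 2 ^ n := by ring
      rw [this]
    | succ i =>
      simp only [List.getD_cons_succ]
      rw [ih i (by omega), fl, flatMap_length _ _ B0.length (by
        intro f _
        split_ifs
        · exact hlen.symm
        · rfl), flipL_length]
      have : w * (2 ^ n * B0.length) = w * B0.length * 2 ^ n := by ring
      rw [this]; ring

theorem permL_length (n : ℕ) : (permL n).length = n.factorial := by
  induction n with
  | zero => rfl
  | succ n ih =>
    rw [permL, List.length_flatMap]
    simp only [List.length_map, ih]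
    rw [List.map_const', List.length_range, List.sum_replicate, smul_eq_mul, Nat.factorial_succ]

theorem map_flatMap_lanes (d : ℕ) (φ : List Bool × List ℕ → ℕ) :
    (lanes d).map φ = (flipL d).flatMap (fun f => (permL d).map (fun p => φ (f, p))) := by
  unfold lanes
  rw [List.map_flatMap]
  congr 1
  funext f
  rw [List.map_map]
  rfl

/-- Packed coordinates of all symmetric images, from the packed permutation blocks `p`, `pc`. -/
def PP (d w : ℕ) (p pc : List ℕ) : List ℕ :=
  (List.range d).map (fun i => fl d i (p.getD i 0) (pc.getD i 0) (w * d.factorial)) ++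
  (List.range d).map (fun i => fl d i (pc.getD i 0) (p.getD i 0) (w * d.factorial))

theorem PP_spec (d w Q : ℕ) (X : List ℕ) (p pc : List ℕ)
    (hp : ∀ i, i < d → p.getD i 0 = pack w ((permL d).map (fun s => X.getD (s.getD i 0) 0)))
    (hpc : ∀ i, i < d → pc.getD i 0 =
      pack w ((permL d).map (fun s => Q - X.getD (s.getD i 0) 0))) (i : ℕ) :
    (PP d w p pc).getD i 0 = pack w ((lanes d).map (cc d Q X i)) := by
  have hblock : ∀ (b : Bool) (i : ℕ), i < d →
      pack w ((lanes d).map (fun y => xv Q X (xor b (y.1.getD i false)) (y.2.getD i 0))) =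
      fl d i (if b then pc.getD i 0 else p.getD i 0) (if b then p.getD i 0 else pc.getD i 0)
        (w * d.factorial) := by
    intro b i hi
    rw [map_flatMap_lanes]
    have h1 : (fun f : List Bool => (permL d).map (fun s : List ℕ =>
        xv Q X (xor b (f.getD i false)) (s.getD i 0))) =
        (fun f => if f.getD i false then
          (permL d).map (fun s => if b then X.getD (s.getD i 0) 0 else Q - X.getD (s.getD i 0) 0)
          else (permL d).map (fun s => if b then Q - X.getD (s.getD i 0) 0
            else X.getD (s.getD i 0) 0)) := by
      funext f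
      cases b <;> cases h : f.getD i false <;> simp [xv]
    simp only
    rw [h1, fl_eq w d i _ _ (by simp) hi]
    rw [List.length_map, permL_length]
    cases b
    · simp only [Bool.false_eq_true, if_false]
      rw [hp i hi, hpc i hi]
    · simp only [if_true]
      rw [hp i hi, hpc i hi]
  unfold PP
  by_cases h1 : i < d
  · rw [List.getD_append _ _ _ _ (by simpa using h1)]
    have h2 := hblock false i h1
    simp only [Bool.false_xor, Bool.false_eq_true, if_false] at h2
    have h3 : (lanes d).map (cc d Q X i) =
        (lanes d).map (fun y => xv Q X (y.1.getD i false) (y.2.getD i 0)) := by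
      apply List.map_congr_left
      intro y _
      simp [cc, h1]
    rw [h3, h2, List.getD_eq_getElem _ _ (by simpa using h1)]
    simp
  · rw [List.getD_append_right _ _ _ _ (by simpa using h1)]
    simp only [List.length_map, List.length_range]
    by_cases h2 : i < 2 * d
    · have h4 : i - d < d := by omega
      have h3 := hblock true (i - d) h4
      simp only [Bool.true_xor, if_true] at h3
      have h5 : (lanes d).map (cc d Q X i) =
          (lanes d).map (fun y => xv Q X (!(y.1.getD (i - d) false)) (y.2.getD (i - d) 0)) := by
        apply List.map_congr_left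
        intro y _
        simp [cc, h1, h2]
      rw [h5, h3, List.getD_eq_getElem _ _ (by simpa using h4)]
      simp
    · rw [List.getD_eq_default _ _ (by simp; omega)]
      have h5 : (lanes d).map (cc d Q X i) = (lanes d).map (fun _ => 0 * 0) := by
        apply List.map_congr_left
        intro y _
        simp [cc, h1, h2]
      rw [h5, pack_map_mul, zero_mul]

end Pool.Agent.Lib.MP_727085_co
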