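import Pool.Agent.Lib.MP_727085_co.MaxDet
import Pool.Agent.Lib.MP_727085_co.Restrict

set_option autoImplicit false

/-!
# Inequalities of Hadamard and Fischer
-/

namespace Pool.Agent.Lib.MP_727085_co

open Finset Matrix

/-- Hadamard inequality. -/
theorem had_fin {n : ℕ} (M : Matrix (Fin n) (Fin n) ℝ) : M.det ^ 2 ≤ ∏ i, ∑ j, M i j ^ 2 := by
  let b := EuclideanSpace.basisFun (Fin n) ℝ
  have : Fact (Module.finrank ℝ (EuclideanSpace ℝ (Fin n)) = n) := ⟨by simp⟩
  let o := b.toBasis.orientation
  let v : Fin n → EuclideanSpace ℝ (Fin n) := fun i => WithLp.toLp 2 (M i)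
  have h1 := o.abs_volumeForm_apply_le v
  rw [o.volumeForm_robust b rfl] at h1
  have h2 : b.toBasis.det v = M.det := by
    rw [Module.Basis.det_apply, ← Matrix.det_transpose]
    congr 1
  rw [h2] at h1
  have h3 : |M.det| ^ 2 ≤ (∏ i, ‖v i‖) ^ 2 := pow_le_pow_left₀ (abs_nonneg _) h1 2
  rw [sq_abs, ← Finset.prod_pow] at h3
  refine h3.trans (le_of_eq ?_)
  apply Finset.prod_congr rfl
  intro i _
  rw [EuclideanSpace.norm_sq_eq]
  apply Finset.sum_congr rfl
  intro j _
  rw [Real.norm_eq_abs, sq_abs]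

theorem had {n : Type*} [Fintype n] [DecidableEq n] (M : Matrix n n ℝ) :
    M.det ^ 2 ≤ ∏ i, ∑ j, M i j ^ 2 := by
  let e := Fintype.equivFin n
  have h1 := had_fin (M.submatrix e.symm e.symm)
  rw [Matrix.det_submatrix_equiv_self] at h1
  refine h1.trans (le_of_eq ?_)
  rw [← e.symm.prod_comp]
  apply Finset.prod_congr rfl
  intro i _
  rw [← e.symm.sum_comp]
  rfl

/-- Gram matrix of the rows -/
def gram {n m : Type*} [Fintype m] (M : Matrix n m ℝ) : Matrix n n ℝ := M * M.transpose

theorem gram_apply {n m : Type*} [Fintype m] (M : Matrix n m ℝ) (i j : n) :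
    gram M i j = ∑ l, M i l * M j l := by
  simp [gram, Matrix.mul_apply]

theorem det_gram {n : Type*} [Fintype n] [DecidableEq n] (M : Matrix n n ℝ) :
    (gram M).det = M.det ^ 2 := by
  rw [gram, Matrix.det_mul, Matrix.det_transpose, sq]

theorem gram_herm {n m : Type*} [Fintype m] (M : Matrix n m ℝ) : (gram M).IsHermitian := by
  unfold Matrix.IsHermitian gram
  rw [Matrix.conjTranspose_eq_transpose_of_trivial, Matrix.transpose_mul,
    Matrix.transpose_transpose]

theorem gram_mul {n k m : Type*} [Fintype m] [Fintype n] (W : Matrix k n ℝ) (M : Matrix n m ℝ) :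
    gram (W * M) = W * gram M * W.transpose := by
  unfold gram
  rw [Matrix.transpose_mul]
  simp only [Matrix.mul_assoc]

theorem had_gram {n : Type*} [Fintype n] [DecidableEq n] (M : Matrix n n ℝ) :
    (gram M).det ≤ ∏ i, gram M i i := by
  rw [det_gram]
  refine (had M).trans (le_of_eq ?_)
  apply Finset.prod_congr rfl
  intro i _
  rw [gram_apply]
  apply Finset.sum_congr rfl
  intro j _
  ring

/-- a two-block form of the Hadamard inequality, with orthogonal changes of the blocks -/
theorem two_block {m n : Type*} [Fintype m] [Fintype n] [DecidableEq m] [DecidableEq n]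
    (M : Matrix (m ⊕ n) (m ⊕ n) ℝ) (U : Matrix m m ℝ) (V : Matrix n n ℝ)
    (hU : U.det ^ 2 = 1) (hV : V.det ^ 2 = 1) :
    (gram M).det ≤ (∏ i, (U * (gram M).toBlocks₁₁ * U.transpose) i i) *
      ∏ j, (V * (gram M).toBlocks₂₂ * V.transpose) j j := by
  have h1 := had_gram (Matrix.fromBlocks U 0 0 V * M)
  rw [gram_mul, Matrix.det_mul, Matrix.det_mul, Matrix.det_transpose,
    Matrix.det_fromBlocks_zero₂₁] at h1
  have h2 : U.det * V.det * (gram M).det * (U.det * V.det) = (gram M).det := by
    have : U.det * V.det * (gram M).det * (U.det * V.det) =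
        U.det ^ 2 * V.det ^ 2 * (gram M).det := by ring
    rw [this, hU, hV]; ring
  rw [h2, Fintype.prod_sum_type] at h1
  refine h1.trans (le_of_eq ?_)
  have h3 : Matrix.fromBlocks U 0 0 V * gram M * (Matrix.fromBlocks U 0 0 V).transpose =
      Matrix.fromBlocks (U * (gram M).toBlocks₁₁ * U.transpose)
        (U * (gram M).toBlocks₁₂ * V.transpose) (V * (gram M).toBlocks₂₁ * U.transpose)
        (V * (gram M).toBlocks₂₂ * V.transpose) := by
    conv_lhs => rw [← Matrix.fromBlocks_toBlocks (gram M)]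
    rw [Matrix.fromBlocks_transpose, Matrix.fromBlocks_multiply, Matrix.fromBlocks_multiply]
    simp
  rw [h3]
  rfl

theorem exists_diag {n : Type*} [Fintype n] [DecidableEq n] (A : Matrix n n ℝ)
    (hA : A.IsHermitian) : ∃ U : Matrix n n ℝ, U.det ^ 2 = 1 ∧
      ∏ i, (U * A * U.transpose) i i = A.det := by
  let W := (hA.eigenvectorUnitary : Matrix n n ℝ)
  have hW : star W * W = 1 := Unitary.coe_star_mul_self hA.eigenvectorUnitary
  have hW' : W * star W = 1 := Unitary.coe_mul_star_self hA.eigenvectorUnitary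
  have hs : star W = W.transpose := by
    rw [Matrix.star_eq_conjTranspose, Matrix.conjTranspose_eq_transpose_of_trivial]
  refine ⟨star W, ?_, ?_⟩
  · have h1 := congrArg Matrix.det hW
    rw [hs, Matrix.det_mul, Matrix.det_transpose, Matrix.det_one] at h1
    rw [hs, Matrix.det_transpose, sq]; exact h1
  · have h2 := hA.conjStarAlgAut_star_eigenvectorUnitary
    rw [Unitary.conjStarAlgAut_star_apply] at h2
    have h3 : star W * A * (star W).transpose = Matrix.diagonal (RCLike.ofReal ∘ hA.eigenvalues) := by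
      rw [← h2]
      congr 1
    rw [h3, hA.det_eq_prod_eigenvalues]
    apply Finset.prod_congr rfl
    intro i _
    rw [Matrix.diagonal_apply_eq]
    rfl

theorem toBlocks₁₁_herm {m n : Type*} [Fintype m] [Fintype n]
    (M : Matrix (m ⊕ n) (m ⊕ n) ℝ) : (gram M).toBlocks₁₁.IsHermitian := by
  ext i j
  have := congrFun (congrFun (gram_herm M) (Sum.inl i)) (Sum.inl j)
  exact this

theorem toBlocks₂₂_herm {m n : Type*} [Fintype m] [Fintype n]
    (M : Matrix (m ⊕ n) (m ⊕ n) ℝ) : (gram M).toBlocks₂₂.IsHermitian := by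
  ext i j
  have := congrFun (congrFun (gram_herm M) (Sum.inr i)) (Sum.inr j)
  exact this

/-- Fischer inequality for Gram matrices. -/
theorem fischer {m n : Type*} [Fintype m] [Fintype n] [DecidableEq m] [DecidableEq n]
    (M : Matrix (m ⊕ n) (m ⊕ n) ℝ) :
    (gram M).det ≤ (gram M).toBlocks₁₁.det * (gram M).toBlocks₂₂.det := by
  obtain ⟨U, hU, hU'⟩ := exists_diag _ (toBlocks₁₁_herm M)
  obtain ⟨V, hV, hV'⟩ := exists_diag _ (toBlocks₂₂_herm M)
  rw [← hU', ← hV']
  exact two_block M U V hU hV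

/-- Fischer inequality with the diagonal of the second block. -/
theorem fischer_diag {m n : Type*} [Fintype m] [Fintype n] [DecidableEq m] [DecidableEq n]
    (M : Matrix (m ⊕ n) (m ⊕ n) ℝ) :
    (gram M).det ≤ (gram M).toBlocks₁₁.det * ∏ j, (gram M) (Sum.inr j) (Sum.inr j) := by
  obtain ⟨U, hU, hU'⟩ := exists_diag _ (toBlocks₁₁_herm M)
  have h := two_block M U 1 hU (by simp)
  rw [hU', Matrix.one_mul, Matrix.transpose_one, Matrix.mul_one] at h
  exact h

end Pool.Agent.Lib.MP_727085_co
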