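import Mathlib

set_option autoImplicit false

namespace Pool.Agent.Lib.MP_727085_co

open Finset

variable {d : ℕ} {ι : Type*} [Fintype ι]

/-- `t` is a convex combination of the points `w i` with value `p`. -/
def Rep (w : ι → Fin d → ℝ) (p : Fin d → ℝ) (t : ι → ℝ) : Prop :=
  (∀ i, 0 ≤ t i) ∧ ∑ i, t i = 1 ∧ ∑ i, t i • w i = p

/-- affine dependences of the points `w i`. -/
def Dep (w : ι → Fin d → ℝ) (u : ι → ℝ) : Prop :=
  ∑ i, u i = 0 ∧ ∑ i, u i • w i = 0

theorem Dep.neg {w : ι → Fin d → ℝ} {u : ι → ℝ} (h : Dep w u) : Dep w (-u) := by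
  refine ⟨?_, ?_⟩
  · simp [h.1]
  · simp [h.2]

theorem Rep.add_smul {w : ι → Fin d → ℝ} {p : Fin d → ℝ} {t u : ι → ℝ} (ht : Rep w p t)
    (hu : Dep w u) (s : ℝ) (hs : ∀ i, 0 ≤ t i + s * u i) : Rep w p (t + s • u) := by
  refine ⟨fun i => by simpa using hs i, ?_, ?_⟩
  · simp only [Pi.add_apply, Pi.smul_apply, smul_eq_mul]
    rw [Finset.sum_add_distrib, ← Finset.mul_sum, hu.1, ht.2.1]; simp
  · simp only [Pi.add_apply, Pi.smul_apply, smul_eq_mul, _root_.add_smul, mul_smul]
    rw [Finset.sum_add_distrib, ← Finset.smul_sum, hu.2, ht.2.2]; simp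

theorem exists_neg_of_dep {w : ι → Fin d → ℝ} {u : ι → ℝ} (hu : Dep w u) (hne : u ≠ 0) :
    ∃ i, u i < 0 := by
  by_contra hcon
  push Not at hcon
  apply hne
  funext i
  have := (Finset.sum_eq_zero_iff_of_nonneg (fun j _ => hcon j)).1 hu.1 i (Finset.mem_univ i)
  simpa using this

theorem exists_exit {w : ι → Fin d → ℝ} {p : Fin d → ℝ} {t u : ι → ℝ} (ht : Rep w p t)
    (hu : Dep w u) (hne : u ≠ 0) :
    ∃ s : ℝ, 0 ≤ s ∧ ∃ i, u i < 0 ∧ Rep w p (t + s • u) ∧ (t + s • u) i = 0 := by
  classical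
  obtain ⟨i0, hi0⟩ := exists_neg_of_dep hu hne
  have hN : (univ.filter (fun i => u i < 0)).Nonempty := ⟨i0, by simp [hi0]⟩
  obtain ⟨i, hi, hmin⟩ := Finset.exists_min_image _ (fun i => t i / (-u i)) hN
  simp only [Finset.mem_filter, Finset.mem_univ, true_and] at hi hmin
  refine ⟨t i / (-u i), div_nonneg (ht.1 i) (by linarith), i, hi, ?_, ?_⟩
  · apply ht.add_smul hu
    intro j
    by_cases hj : u j < 0
    · have h1 := hmin j hj
      have h2 : t i / (-u i) * (-u j) ≤ t j := by
        calc t i / (-u i) * (-u j) ≤ t j / (-u j) * (-u j) :=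
              mul_le_mul_of_nonneg_right h1 (by linarith)
          _ = t j := by
            have : u j ≠ 0 := hj.ne
            field_simp
      linarith
    · push Not at hj
      have h1 : 0 ≤ t i / (-u i) := div_nonneg (ht.1 i) (by linarith)
      have h2 := ht.1 j
      have h3 := mul_nonneg h1 hj
      linarith
  · simp only [Pi.add_apply, Pi.smul_apply, smul_eq_mul]
    have : u i ≠ 0 := hi.ne
    field_simp
    ring

/-- in general position every convex representation has at most one zero weight. -/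
def Gen (w : ι → Fin d → ℝ) (p : Fin d → ℝ) : Prop :=
  ∀ t, Rep w p t → ∀ i j, t i = 0 → t j = 0 → i = j

theorem dep_unique {w : ι → Fin d → ℝ} {p : Fin d → ℝ} (hg : Gen w p) {t u v : ι → ℝ}
    (ht : Rep w p t) (hu : Dep w u) (hne : u ≠ 0) (hv : Dep w v) : ∃ c : ℝ, v = c • u := by
  obtain ⟨s, -, i, hi, ht1, hz1⟩ := exists_exit ht hu hne
  refine ⟨v i / u i, ?_⟩
  by_contra hcon
  set z : ι → ℝ := v - (v i / u i) • u with hz
  have hz0 : z ≠ 0 := fun h => hcon (by rw [hz, sub_eq_zero] at h; exact h)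
  have hdz : Dep w z := by
    refine ⟨?_, ?_⟩
    · simp only [hz, Pi.sub_apply, Pi.smul_apply, smul_eq_mul]
      rw [Finset.sum_sub_distrib, ← Finset.mul_sum, hu.1, hv.1]; simp
    · simp only [hz, Pi.sub_apply, Pi.smul_apply, smul_eq_mul, sub_smul, mul_smul]
      rw [Finset.sum_sub_distrib, ← Finset.smul_sum, hu.2, hv.2]; simp
  have hzi : z i = 0 := by
    simp only [hz, Pi.sub_apply, Pi.smul_apply, smul_eq_mul]
    have : u i ≠ 0 := hi.ne
    field_simp
    ring
  obtain ⟨s', -, j, hj, ht2, hz2⟩ := exists_exit ht1 hdz hz0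
  have h1 : ((t + s • u) + s' • z) i = 0 := by
    simp only [Pi.add_apply, Pi.smul_apply, smul_eq_mul] at hz1 ⊢
    rw [hz1, hzi]; simp
  have := hg _ ht2 i j h1 hz2
  rw [← this, hzi] at hj
  exact lt_irrefl _ hj

theorem exit_unique {w : ι → Fin d → ℝ} {p : Fin d → ℝ} (hg : Gen w p) {t u : ι → ℝ}
    (ht : Rep w p t) (hu : Dep w u) (hne : u ≠ 0) {s : ℝ} {i : ι} (hi : u i < 0)
    (hR : Rep w p (t + s • u)) (hz : (t + s • u) i = 0) {t' : ι → ℝ} (ht' : Rep w p t') {k : ι}
    (hk : t' k = 0) (huk : u k < 0) : k = i := by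
  have hd : Dep w (t' - t) := by
    refine ⟨?_, ?_⟩
    · simp only [Pi.sub_apply]
      rw [Finset.sum_sub_distrib, ht'.2.1, ht.2.1]; simp
    · simp only [Pi.sub_apply, sub_smul]
      rw [Finset.sum_sub_distrib, ht'.2.2, ht.2.2]; simp
  obtain ⟨c, hc⟩ := dep_unique hg ht hu hne hd
  have hc' : ∀ j, t' j = t j + c * u j := by
    intro j
    have := congrFun hc j
    simp only [Pi.sub_apply, Pi.smul_apply, smul_eq_mul] at this
    linarith
  simp only [Pi.add_apply, Pi.smul_apply, smul_eq_mul] at hz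
  have h1 : c ≤ s := by
    have h2 := ht'.1 i
    rw [hc' i] at h2
    by_contra hcs
    push Not at hcs
    have : c * u i < s * u i := mul_lt_mul_of_neg_right hcs hi
    linarith
  have h2 : s ≤ c := by
    have h3 := hR.1 k
    simp only [Pi.add_apply, Pi.smul_apply, smul_eq_mul] at h3
    have h4 := hc' k
    rw [hk] at h4
    by_contra hcs
    push Not at hcs
    have : s * u k < c * u k := mul_lt_mul_of_neg_right hcs huk
    linarith
  have h3 : c = s := le_antisymm h1 h2
  apply hg t' ht' k i hk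
  rw [hc' i, h3]; exact hz

open Classical in
/-- Parity: among the `d + 2` omitted-point hulls, an even number contains a point in general
position. -/
theorem even_omit (hι : Fintype.card ι = d + 2) (w : ι → Fin d → ℝ) (p : Fin d → ℝ)
    (hg : Gen w p) : Even (univ.filter (fun i => ∃ t, Rep w p t ∧ t i = 0)).card := by
  by_cases hK : ∃ t, Rep w p t
  swap
  · have : univ.filter (fun i => ∃ t, Rep w p t ∧ t i = 0) = ∅ := by
      apply Finset.filter_eq_empty_iff.2
      rintro i - ⟨t, ht, -⟩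
      exact hK ⟨t, ht⟩
    rw [this]; simp
  obtain ⟨t, ht⟩ := hK
  -- a nonzero dependence
  obtain ⟨u, hune, hu⟩ : ∃ u : ι → ℝ, u ≠ 0 ∧ Dep w u := by
    let f : (ι → ℝ) →ₗ[ℝ] (ℝ × (Fin d → ℝ)) :=
      { toFun := fun u => (∑ i, u i, ∑ i, u i • w i)
        map_add' := by
          intro a b
          simp [add_smul, Finset.sum_add_distrib]
        map_smul' := by
          intro c a
          simp [Finset.mul_sum, Finset.smul_sum, mul_smul] }
    have hk : LinearMap.ker f ≠ ⊥ := by
      apply LinearMap.ker_ne_bot_of_finrank_lt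
      simp only [Module.finrank_prod, Module.finrank_self, Module.finrank_fintype_fun_eq_card,
        Fintype.card_fin]
      omega
    obtain ⟨u, hu, hne⟩ := (Submodule.ne_bot_iff _).1 hk
    refine ⟨u, hne, ?_⟩
    rw [LinearMap.mem_ker] at hu
    exact ⟨congrArg Prod.fst hu, congrArg Prod.snd hu⟩
  obtain ⟨s1, -, i1, hi1, hR1, hz1⟩ := exists_exit ht hu hune
  obtain ⟨s2, -, i2, hi2, hR2, hz2⟩ := exists_exit ht hu.neg (neg_ne_zero.2 hune)
  have hne12 : i1 ≠ i2 := by
    rintro rfl
    simp only [Pi.neg_apply] at hi2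
    linarith
  have hA : univ.filter (fun i => ∃ t, Rep w p t ∧ t i = 0) = {i1, i2} := by
    ext k
    simp only [Finset.mem_filter, Finset.mem_univ, true_and, Finset.mem_insert,
      Finset.mem_singleton]
    constructor
    · rintro ⟨t', ht', hk⟩
      rcases lt_trichotomy (u k) 0 with h | h | h
      · exact Or.inl (exit_unique hg ht hu hune hi1 hR1 hz1 ht' hk h)
      · exfalso
        obtain ⟨s, -, j, hj, hR, hz⟩ := exists_exit ht' hu hune
        have h1 : (t' + s • u) k = 0 := by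
          simp [hk, h]
        have := hg _ hR k j h1 hz
        rw [← this, h] at hj
        exact lt_irrefl _ hj
      · refine Or.inr (exit_unique hg ht hu.neg (neg_ne_zero.2 hune) hi2 hR2 hz2 ht' hk ?_)
        simp only [Pi.neg_apply]; linarith
    · rintro (rfl | rfl)
      · exact ⟨_, hR1, hz1⟩
      · exact ⟨_, hR2, hz2⟩
  rw [hA, Finset.card_pair hne12]
  exact even_two

end Pool.Agent.Lib.MP_727085_co
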