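import Mathlib

set_option autoImplicit false

namespace Pool.Agent.Lib.MP_727085_co

/-- A list of numbers below `2^w` packed into one natural number. -/
def pack (w : ℕ) (l : List ℕ) : ℕ := l.foldr (fun a acc => a + 2 ^ w * acc) 0

theorem pack_nil (w : ℕ) : pack w [] = 0 := rfl
theorem pack_cons (w a : ℕ) (l : List ℕ) : pack w (a :: l) = a + 2 ^ w * pack w l := rfl

section
variable {α : Type*} (w : ℕ)

theorem pack_append (l l' : List ℕ) : pack w (l ++ l') = pack w l + 2 ^ (w * l.length) * pack w l' := by
  induction l with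
  | nil => simp [pack_nil]
  | cons a l ih =>
    rw [List.cons_append, pack_cons, pack_cons, ih, List.length_cons]
    have : w * (l.length + 1) = w + w * l.length := by ring
    rw [this, pow_add]
    ring

theorem pack_map_add (L : List α) (f g : α → ℕ) :
    pack w (L.map (fun x => f x + g x)) = pack w (L.map f) + pack w (L.map g) := by
  induction L with
  | nil => rfl
  | cons x L ih =>
    simp only [List.map_cons, pack_cons]
    rw [ih]; ring

theorem pack_map_mul (L : List α) (c : ℕ) (f : α → ℕ) :
    pack w (L.map (fun x => c * f x)) = c * pack w (L.map f) := by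
  induction L with
  | nil => simp [pack_nil]
  | cons x L ih =>
    simp only [List.map_cons, pack_cons]
    rw [ih]; ring

theorem land_lane (a b p q : ℕ) (ha : a < 2 ^ w) (hb : b < 2 ^ w) :
    (a + 2 ^ w * p) &&& (b + 2 ^ w * q) = (a &&& b) + 2 ^ w * (p &&& q) := by
  have hab : a &&& b < 2 ^ w := Nat.and_lt_two_pow _ hb
  apply Nat.eq_of_testBit_eq
  intro i
  rw [Nat.testBit_land]
  rw [Nat.add_comm a, Nat.add_comm b, Nat.add_comm (a &&& b)]
  rw [Nat.testBit_two_pow_mul_add _ ha, Nat.testBit_two_pow_mul_add _ hb,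
    Nat.testBit_two_pow_mul_add _ hab]
  split_ifs with h
  · rw [Nat.testBit_land]
  · rw [Nat.testBit_land]

theorem pack_land (L : List α) (f g : α → ℕ) (hf : ∀ x ∈ L, f x < 2 ^ w)
    (hg : ∀ x ∈ L, g x < 2 ^ w) :
    pack w (L.map f) &&& pack w (L.map g) = pack w (L.map (fun x => f x &&& g x)) := by
  induction L with
  | nil => simp [pack_nil]
  | cons x L ih =>
    simp only [List.map_cons, pack_cons]
    rw [land_lane w _ _ _ _ (hf x (by simp)) (hg x (by simp)),
      ih (fun y hy => hf y (by simp [hy])) (fun y hy => hg y (by simp [hy]))]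

theorem pack_mod (l : List ℕ) : pack w l % (2 ^ w - 1) = l.sum % (2 ^ w - 1) := by
  have h1 : 2 ^ w ≡ 1 [MOD (2 ^ w - 1)] := by
    have h2 : 2 ^ w = 1 + (2 ^ w - 1) := by
      have : 0 < 2 ^ w := by positivity
      omega
    conv_lhs => rw [h2]
    simp [Nat.ModEq]
  have h3 : pack w l ≡ l.sum [MOD (2 ^ w - 1)] := by
    induction l with
    | nil => rfl
    | cons a l ih =>
      rw [pack_cons, List.sum_cons]
      have := (h1.mul ih)
      rw [one_mul] at this
      exact this.add_left a
  exact h3

end

/-- Weighted sum of the packed numbers with the given indices. -/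
def formPack (PP : List ℕ) (base : ℕ) (F : List (ℕ × ℕ)) : ℕ :=
  F.foldr (fun e acc => e.2 * PP.getD e.1 0 + acc) base

/-- Number of lanes where all forms reach their thresholds. -/
def cntOne (w Q : ℕ) (PP : List ℕ) (ones : ℕ) (forms : List (List (ℕ × ℕ) × ℕ)) : ℕ :=
  ((forms.foldr (fun F acc => formPack PP ((2 ^ (w - 1) - F.2 * Q) * ones) F.1 &&& acc)
    (2 ^ (w - 1) * ones)) >>> (w - 1)) % (2 ^ w - 1)

section
variable {α : Type*}

/-- value of a form at a point -/
def formVal (cc : ℕ → α → ℕ) (F : List (ℕ × ℕ)) (y : α) : ℕ :=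
  (F.map (fun e => e.2 * cc e.1 y)).sum

theorem formPack_eq (w : ℕ) (L : List α) (cc : ℕ → α → ℕ) (PP : List ℕ)
    (hPP : ∀ i, PP.getD i 0 = pack w (L.map (cc i))) (b : α → ℕ) (F : List (ℕ × ℕ)) :
    formPack PP (pack w (L.map b)) F = pack w (L.map (fun y => formVal cc F y + b y)) := by
  induction F with
  | nil => simp [formPack, formVal]
  | cons e F ih =>
    have h1 : formPack PP (pack w (L.map b)) (e :: F) =
        e.2 * PP.getD e.1 0 + formPack PP (pack w (L.map b)) F := rfl
    rw [h1, ih, hPP, ← pack_map_mul, ← pack_map_add]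
    congr 1
    apply List.map_congr_left
    intro y _
    simp only [formVal, List.map_cons, List.sum_cons]
    ring

theorem land_high (w a : ℕ) (hw : 0 < w) (ha : a < 2 ^ w) :
    a &&& 2 ^ (w - 1) = if 2 ^ (w - 1) ≤ a then 2 ^ (w - 1) else 0 := by
  apply Nat.eq_of_testBit_eq
  intro i
  rw [Nat.testBit_land, Nat.testBit_two_pow]
  by_cases hi : w - 1 = i
  · subst hi
    have h1 : a.testBit (w - 1) = decide (2 ^ (w - 1) ≤ a) := by
      rw [Nat.testBit_eq_decide_div_mod_eq]
      have h2 : a / 2 ^ (w - 1) < 2 := by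
        rw [Nat.div_lt_iff_lt_mul (by positivity)]
        calc a < 2 ^ w := ha
          _ = 2 * 2 ^ (w - 1) := by
            rw [← pow_succ']; congr 1; omega
      by_cases h3 : 2 ^ (w - 1) ≤ a
      · have h4 : 1 ≤ a / 2 ^ (w - 1) := by
          rw [Nat.one_le_div_iff (by positivity)]; exact h3
        have h5 : a / 2 ^ (w - 1) = 1 := by omega
        simp [h3, h5]
      · have h4 : a / 2 ^ (w - 1) = 0 := Nat.div_eq_of_lt (by omega)
        simp [h3, h4]
    rw [h1]
    split_ifs with h2
    · simp [h2]
    · simp [h2]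
  · simp only [hi, decide_false, Bool.and_false]
    split_ifs with h2
    · rw [Nat.testBit_two_pow]; simp [hi]
    · simp

/-- lane-wise truth value -/
def laneOk (cc : ℕ → α → ℕ) (Q : ℕ) (forms : List (List (ℕ × ℕ) × ℕ)) (y : α) : Bool :=
  forms.all (fun F => decide (F.2 * Q ≤ formVal cc F.1 y))

theorem cnt_fold (w Q : ℕ) (hw : 0 < w) (L : List α) (cc : ℕ → α → ℕ) (PP : List ℕ)
    (hPP : ∀ i, PP.getD i 0 = pack w (L.map (cc i))) (forms : List (List (ℕ × ℕ) × ℕ))
    (h1 : ∀ F ∈ forms, F.2 * Q ≤ 2 ^ (w - 1))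
    (h2 : ∀ F ∈ forms, ∀ y ∈ L, formVal cc F.1 y < 2 ^ (w - 1)) :
    forms.foldr (fun F acc => formPack PP ((2 ^ (w - 1) - F.2 * Q) *
      pack w (L.map (fun _ => 1))) F.1 &&& acc) (2 ^ (w - 1) * pack w (L.map (fun _ => 1))) =
    pack w (L.map (fun y => 2 ^ (w - 1) * (if laneOk cc Q forms y then 1 else 0))) := by
  have hpow : 2 ^ w = 2 * 2 ^ (w - 1) := by
    rw [← pow_succ']; congr 1; omega
  have hpos : 0 < 2 ^ (w - 1) := by positivity
  induction forms with
  | nil =>
    simp only [List.foldr_nil, laneOk, List.all_nil, if_true]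
    rw [pack_map_mul]
  | cons F forms ih =>
    have ih' := ih (fun G hG => h1 G (by simp [hG])) (fun G hG => h2 G (by simp [hG]))
    rw [List.foldr_cons, ih', ← pack_map_mul, formPack_eq w L cc PP hPP, pack_land]
    · congr 1
      apply List.map_congr_left
      intro y hy
      have hF1 := h1 F (by simp)
      have hF2 := h2 F (by simp) y hy
      by_cases hok : laneOk cc Q forms y = true
      · rw [if_pos hok, mul_one, mul_one, land_high w _ hw (by omega)]
        by_cases hge : F.2 * Q ≤ formVal cc F.1 y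
        · have hok' : laneOk cc Q (F :: forms) y = true := by
            unfold laneOk at hok ⊢
            rw [List.all_cons, hok]; simp [hge]
          rw [if_pos hok', if_pos (by omega), mul_one]
        · have hok' : ¬ laneOk cc Q (F :: forms) y = true := by
            unfold laneOk
            rw [List.all_cons]; simp [hge]
          rw [if_neg hok', if_neg (by omega), mul_zero]
      · have hok' : ¬ laneOk cc Q (F :: forms) y = true := by
          unfold laneOk at hok ⊢
          rw [List.all_cons]
          intro h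
          rw [Bool.and_eq_true] at h
          exact hok h.2
        rw [if_neg hok, if_neg hok', mul_zero, Nat.and_zero]
    · intro y hy
      have hF1 := h1 F (by simp)
      have hF2 := h2 F (by simp) y hy
      simp only [mul_one]
      omega
    · intro y _
      split_ifs
      · omega
      · omega

theorem cntOne_eq (w Q : ℕ) (hw : 0 < w) (L : List α) (hL : L.length < 2 ^ w - 1)
    (cc : ℕ → α → ℕ) (PP : List ℕ)
    (hPP : ∀ i, PP.getD i 0 = pack w (L.map (cc i))) (forms : List (List (ℕ × ℕ) × ℕ))
    (h1 : ∀ F ∈ forms, F.2 * Q ≤ 2 ^ (w - 1))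
    (h2 : ∀ F ∈ forms, ∀ y ∈ L, formVal cc F.1 y < 2 ^ (w - 1)) :
    cntOne w Q PP (pack w (L.map (fun _ => 1))) forms =
      (L.map (fun y => if laneOk cc Q forms y then 1 else 0)).sum := by
  unfold cntOne
  rw [cnt_fold w Q hw L cc PP hPP forms h1 h2, pack_map_mul, Nat.shiftRight_eq_div_pow,
    Nat.mul_div_cancel_left _ (by positivity), pack_mod w _]
  apply Nat.mod_eq_of_lt
  refine lt_of_le_of_lt ?_ hL
  calc (L.map (fun y => if laneOk cc Q forms y then 1 else 0)).sum
      ≤ (L.map (fun _ => 1)).sum := by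
        apply List.sum_le_sum
        intro y _
        split_ifs <;> omega
    _ = L.length := by simp

end

end Pool.Agent.Lib.MP_727085_co
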