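import Pool.Agent.Lib.MP_727085_co.Had

set_option autoImplicit false

/-!
# Determinants of sign matrices of order seven
-/

namespace Pool.Agent.Lib.MP_727085_co

open Finset Matrix

theorem gram_submatrix {n n' m m' : Type*} [Fintype m] [Fintype m'] (M : Matrix n m ℝ)
    (f : n' → n) (e : m' ≃ m) : gram (M.submatrix f e) = (gram M).submatrix f f := by
  ext i j
  rw [Matrix.submatrix_apply, gram_apply, gram_apply, ← e.sum_comp]
  rfl

/-- prescribing the first values of a permutation -/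
theorem ext_perm (l : Fin 7 → Fin 7) (m : ℕ)
    (hinj : ∀ i j : Fin 7, (i : ℕ) < m → (j : ℕ) < m → l i = l j → i = j) :
    ∃ σ : Equiv.Perm (Fin 7), ∀ i : Fin 7, (i : ℕ) < m → σ i = l i := by
  classical
  let s : Set (Fin 7) := {i | (i : ℕ) < m}
  obtain ⟨g, hg⟩ := Set.MapsTo.exists_equiv_extend_of_card_eq (α := Fin 7) (β := Fin 7)
    (t := Finset.univ) (s := s) (f := l) (by simp) (fun i _ => by simp)
    (fun i hi j hj h => hinj i j hi hj h)
  let u : {x // x ∈ (Finset.univ : Finset (Fin 7))} ≃ Fin 7 :=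
    ⟨fun x => x.1, fun x => ⟨x, Finset.mem_univ x⟩, fun x => rfl, fun x => rfl⟩
  exact ⟨g.trans u, fun i hi => hg i hi⟩

/-- the matrix of a pattern -/
def patM (q : ℕ → ℕ → Bool) : Matrix (Fin 7) (Fin 7) ℤ :=
  Matrix.of fun i j => if (i : ℕ) = j then 7 else if q i j || q j i then 3 else -1

/-- rows of the matrix of a pattern -/
def patL (q : ℕ → ℕ → Bool) : List (List ℤ) :=
  (List.range 7).map fun i => (List.range 7).map fun j =>
    bif Nat.beq i j then 7 else bif q i j || q j i then 3 else -1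

theorem range_getD {α : Type*} (n : ℕ) (φ : ℕ → α) (d : α) (i : ℕ) (hi : i < n) :
    ((List.range n).map φ).getD i d = φ i := by
  rw [List.getD_eq_getElem _ _ (by simpa using hi), List.getElem_map, List.getElem_range]

theorem patM_eq (q : ℕ → ℕ → Bool) : patM q = toM 7 (patL q) := by
  ext i j
  simp only [patM, toM, patL, Matrix.of_apply]
  rw [range_getD 7 _ _ _ i.2, range_getD 7 _ _ _ j.2]
  by_cases h : (i : ℕ) = j
  · rw [if_pos h, h]; simp
  · have : Nat.beq i j = false := by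
      rw [Bool.eq_false_iff]
      intro h'
      exact h (Nat.eq_of_beq_eq_true h')
    rw [if_neg h, this, cond_false]
    cases (q i j || q j i) <;> simp

/-- Data of a sign matrix of order seven with normalised rows. -/
structure Dat (M : Matrix (Fin 7) (Fin 7) ℝ) (g : Fin 7 → Fin 7 → ℤ) : Prop where
  gr : ∀ i j, gram M i j = g i j
  dg : ∀ i, g i i = 7
  sy : ∀ i j, g i j = g j i

theorem Dat.perm {M : Matrix (Fin 7) (Fin 7) ℝ} {g : Fin 7 → Fin 7 → ℤ} (h : Dat M g)
    (σ : Equiv.Perm (Fin 7)) : Dat (M.submatrix σ σ) (fun i j => g (σ i) (σ j)) := by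
  refine ⟨fun i j => ?_, fun i => h.dg _, fun i j => h.sy _ _⟩
  rw [gram_submatrix]
  exact h.gr _ _

theorem det_perm (M : Matrix (Fin 7) (Fin 7) ℝ) (σ : Equiv.Perm (Fin 7)) :
    (gram (M.submatrix σ σ)).det = (gram M).det := by
  rw [gram_submatrix, Matrix.det_submatrix_equiv_self]

theorem full {M : Matrix (Fin 7) (Fin 7) ℝ} {g : Fin 7 → Fin 7 → ℤ} (h : Dat M g)
    (q : ℕ → ℕ → Bool) (hq : ∀ i j : Fin 7, i < j → g i j = if q i j || q j i then 3 else -1)
    (hdet : dt 7 (patL q) < 409600) : (gram M).det < 409600 := by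
  have h1 : gram M = (patM q).map (Int.castRingHom ℝ) := by
    ext i j
    rw [h.gr, Matrix.map_apply]
    show ((g i j : ℤ) : ℝ) = ((patM q i j : ℤ) : ℝ)
    congr 1
    simp only [patM, Matrix.of_apply]
    rcases lt_trichotomy i j with hij | hij | hij
    · have hne : ¬ (i : ℕ) = j := fun h => hij.ne (Fin.ext h)
      rw [hq i j hij]
      simp only [hne, if_false]
    · subst hij
      rw [if_pos rfl, h.dg]
    · have hne : ¬ (i : ℕ) = j := fun h => hij.ne' (Fin.ext h)
      rw [h.sy, hq j i hij, Bool.or_comm]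
      simp only [hne, if_false]
  rw [h1, ← RingHom.mapMatrix_apply, ← RingHom.map_det, patM_eq, ← dt_eq]
  show ((dt 7 (patL q) : ℤ) : ℝ) < 409600
  exact_mod_cast hdet

/-- splitting off the first `a` rows -/
theorem split {a b : ℕ} (hab : a + b = 7) {M : Matrix (Fin 7) (Fin 7) ℝ} {g : Fin 7 → Fin 7 → ℤ}
    (h : Dat M g) :
    (gram M).det ≤
      (Matrix.of fun i j : Fin a => ((g (Fin.cast hab (Fin.castAdd b i)) (Fin.cast hab (Fin.castAdd b j)) : ℤ) : ℝ)).det *
      (Matrix.of fun i j : Fin b => ((g (Fin.cast hab (Fin.natAdd a i)) (Fin.cast hab (Fin.natAdd a j)) : ℤ) : ℝ)).det := by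
  let e : Fin a ⊕ Fin b ≃ Fin 7 := finSumFinEquiv.trans (finCongr hab)
  have h1 := fischer (M.submatrix e e)
  rw [gram_submatrix, Matrix.det_submatrix_equiv_self] at h1
  refine h1.trans (le_of_eq ?_)
  congr 2
  · ext i j; exact h.gr _ _
  · ext i j; exact h.gr _ _

theorem split2 {M : Matrix (Fin 7) (Fin 7) ℝ} {g : Fin 7 → Fin 7 → ℤ}
    (h : Dat M g) : (gram M).det ≤ (49 - (g 0 1 : ℝ) ^ 2) * 16807 := by
  let e : Fin 2 ⊕ Fin 5 ≃ Fin 7 := finSumFinEquiv.trans (finCongr rfl)
  have h1 := fischer_diag (M.submatrix e e)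
  rw [gram_submatrix, Matrix.det_submatrix_equiv_self] at h1
  refine h1.trans (le_of_eq ?_)
  have h2 : ∀ j : Fin 5, (gram M).submatrix e e (Sum.inr j) (Sum.inr j) = 7 := by
    intro j
    rw [Matrix.submatrix_apply, h.gr, h.dg]
    norm_num
  rw [Finset.prod_congr rfl (fun j _ => h2 j), Finset.prod_const, Matrix.det_fin_two]
  have e0 : e (Sum.inl 0) = 0 := rfl
  have e1 : e (Sum.inl 1) = 1 := rfl
  simp only [Matrix.toBlocks₁₁, Matrix.of_apply, Matrix.submatrix_apply, e0, e1, h.gr, h.dg,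
    h.sy 1 0]
  norm_num
  ring

end Pool.Agent.Lib.MP_727085_co
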