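import Pool.Agent.Lib.MP_727085_co.SixDet

set_option autoImplicit false
set_option maxRecDepth 100000

/-!
# Determinants of sign matrices of order seven: the bound
-/

namespace Pool.Agent.Lib.MP_727085_co

open Finset Matrix

/-- pattern with the given edges -/
def edg (l : List (ℕ × ℕ)) (i j : ℕ) : Bool := l.any (fun p => Nat.beq p.1 i && Nat.beq p.2 j)

theorem e0 : dt 7 (patL (edg [])) < 409600 := by decide +kernel
theorem e1 : dt 7 (patL (edg [(0, 1)])) < 409600 := by decide +kernel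
theorem e2 : dt 7 (patL (edg [(0, 1), (2, 3)])) < 409600 := by decide +kernel
theorem e3a : dt 7 (patL (edg [(0, 1), (2, 3), (4, 5)])) < 409600 := by decide +kernel
theorem e3b : dt 7 (patL (edg [(0, 1), (2, 3), (4, 6)])) < 409600 := by decide +kernel
theorem e3c : dt 7 (patL (edg [(0, 1), (2, 3), (5, 6)])) < 409600 := by decide +kernel
theorem t3 : dt 7 (patL (edg [(0, 1), (0, 2), (1, 2)])) < 409600 := by decide +kernel
theorem t4a : dt 7 (patL (edg [(0, 1), (0, 2), (1, 2), (0, 3), (1, 3), (2, 3)])) < 409600 := by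
  decide +kernel
theorem t4b : dt 7 (patL (edg [(0, 1), (0, 2), (1, 2), (0, 4), (1, 4), (2, 4)])) < 409600 := by
  decide +kernel
theorem t4c : dt 7 (patL (edg [(0, 1), (0, 2), (1, 2), (0, 5), (1, 5), (2, 5)])) < 409600 := by
  decide +kernel
theorem t4d : dt 7 (patL (edg [(0, 1), (0, 2), (1, 2), (0, 6), (1, 6), (2, 6)])) < 409600 := by
  decide +kernel

/-- determinants of order four -/
theorem four (x : Fin 4 → Fin 4 → ℝ) (hd : ∀ i, x i i = 7) (hs : ∀ i j, x i j = x j i)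
    (ho : ∀ i j, i ≠ j → x i j = 3 ∨ x i j = -1) : (Matrix.of x).det ≤ 2048 ∧
      ((∃ i j, i ≠ j ∧ x i j = 3) → (Matrix.of x).det ≤ 1792) := by
  have h01 := ho 0 1 (by decide)
  have h02 := ho 0 2 (by decide)
  have h03 := ho 0 3 (by decide)
  have h12 := ho 1 2 (by decide)
  have h13 := ho 1 3 (by decide)
  have h23 := ho 2 3 (by decide)
  have hdet : (Matrix.of x).det = 2401 - 49 * (x 0 1 ^ 2 + x 0 2 ^ 2 + x 0 3 ^ 2 + x 1 2 ^ 2 +
      x 1 3 ^ 2 + x 2 3 ^ 2) + 14 * (x 0 1 * x 0 2 * x 1 2 + x 0 1 * x 0 3 * x 1 3 +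
      x 0 2 * x 0 3 * x 2 3 + x 1 2 * x 1 3 * x 2 3) + (x 0 1 ^ 2 * x 2 3 ^ 2 +
      x 0 2 ^ 2 * x 1 3 ^ 2 + x 0 3 ^ 2 * x 1 2 ^ 2) - 2 * (x 0 1 * x 1 2 * x 2 3 * x 0 3 +
      x 0 1 * x 1 3 * x 2 3 * x 0 2 + x 0 2 * x 1 2 * x 1 3 * x 0 3) := by
    rw [Matrix.det_succ_row_zero, Fin.sum_univ_four]
    simp only [Matrix.det_fin_three, Matrix.submatrix_apply, Matrix.of_apply]
    have e1 : Fin.succ (0 : Fin 3) = 1 := rfl
    have e2 : Fin.succ (1 : Fin 3) = 2 := rfl
    have e3 : Fin.succ (2 : Fin 3) = 3 := rfl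
    have a00 : (0 : Fin 4).succAbove 0 = 1 := rfl
    have a01 : (0 : Fin 4).succAbove 1 = 2 := rfl
    have a02 : (0 : Fin 4).succAbove 2 = 3 := rfl
    have a10 : (1 : Fin 4).succAbove 0 = 0 := rfl
    have a11 : (1 : Fin 4).succAbove 1 = 2 := rfl
    have a12 : (1 : Fin 4).succAbove 2 = 3 := rfl
    have a20 : (2 : Fin 4).succAbove 0 = 0 := rfl
    have a21 : (2 : Fin 4).succAbove 1 = 1 := rfl
    have a22 : (2 : Fin 4).succAbove 2 = 3 := rfl
    have a30 : (3 : Fin 4).succAbove 0 = 0 := rfl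
    have a31 : (3 : Fin 4).succAbove 1 = 1 := rfl
    have a32 : (3 : Fin 4).succAbove 2 = 2 := rfl
    simp only [e1, e2, e3, a00, a01, a02, a10, a11, a12, a20, a21, a22, a30, a31, a32, hd,
      hs 1 0, hs 2 0, hs 3 0, hs 2 1, hs 3 1, hs 3 2]
    have v0 : ((0 : Fin 4) : ℕ) = 0 := rfl
    have v1 : ((1 : Fin 4) : ℕ) = 1 := rfl
    have v2 : ((2 : Fin 4) : ℕ) = 2 := rfl
    have v3 : ((3 : Fin 4) : ℕ) = 3 := rfl
    rw [v0, v1, v2, v3]
    ring
  rw [hdet]
  constructor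
  · rcases h01 with h01 | h01 <;> rcases h02 with h02 | h02 <;> rcases h03 with h03 | h03 <;>
      rcases h12 with h12 | h12 <;> rcases h13 with h13 | h13 <;> rcases h23 with h23 | h23 <;>
      rw [h01, h02, h03, h12, h13, h23] <;> norm_num
  · rintro ⟨i, j, hij, hx⟩
    have key : x 0 1 = 3 ∨ x 0 2 = 3 ∨ x 0 3 = 3 ∨ x 1 2 = 3 ∨ x 1 3 = 3 ∨ x 2 3 = 3 := by
      fin_cases i <;> fin_cases j <;> first
        | exact absurd rfl hij
        | exact Or.inl hx
        | exact Or.inl ((hs _ _).trans hx)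
        | exact Or.inr (Or.inl hx)
        | exact Or.inr (Or.inl ((hs _ _).trans hx))
        | exact Or.inr (Or.inr (Or.inl hx))
        | exact Or.inr (Or.inr (Or.inl ((hs _ _).trans hx)))
        | exact Or.inr (Or.inr (Or.inr (Or.inl hx)))
        | exact Or.inr (Or.inr (Or.inr (Or.inl ((hs _ _).trans hx))))
        | exact Or.inr (Or.inr (Or.inr (Or.inr (Or.inl hx))))
        | exact Or.inr (Or.inr (Or.inr (Or.inr (Or.inl ((hs _ _).trans hx)))))
        | exact Or.inr (Or.inr (Or.inr (Or.inr (Or.inr hx))))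
        | exact Or.inr (Or.inr (Or.inr (Or.inr (Or.inr ((hs _ _).trans hx)))))
    rcases h01 with h01 | h01 <;> rcases h02 with h02 | h02 <;> rcases h03 with h03 | h03 <;>
      rcases h12 with h12 | h12 <;> rcases h13 with h13 | h13 <;> rcases h23 with h23 | h23 <;>
      rw [h01, h02, h03, h12, h13, h23] at key ⊢ <;>
      first
        | (norm_num; done)
        | (exfalso; norm_num at key)

end Pool.Agent.Lib.MP_727085_co
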