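import Pool.Agent.Lib.MP_727085_co.SixGraph

set_option autoImplicit false
set_option maxRecDepth 100000

/-!
# Determinants of sign matrices of order seven: all cases
-/

namespace Pool.Agent.Lib.MP_727085_co

open Finset Matrix

variable {M : Matrix (Fin 7) (Fin 7) ℝ} {g : Fin 7 → Fin 7 → ℤ}

theorem all21 (P : Fin 7 → Fin 7 → Prop) (h01 : P 0 1) (h02 : P 0 2) (h03 : P 0 3) (h04 : P 0 4) (h05 : P 0 5) (h06 : P 0 6) (h12 : P 1 2) (h13 : P 1 3) (h14 : P 1 4) (h15 : P 1 5) (h16 : P 1 6) (h23 : P 2 3) (h24 : P 2 4) (h25 : P 2 5) (h26 : P 2 6) (h34 : P 3 4) (h35 : P 3 5) (h36 : P 3 6) (h45 : P 4 5) (h46 : P 4 6) (h56 : P 5 6) :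
    ∀ i j : Fin 7, i < j → P i j := by
  intro i j hij
  fin_cases i <;> fin_cases j <;> first
    | exact absurd hij (by decide)
    | exact h01
    | exact h02
    | exact h03
    | exact h04
    | exact h05
    | exact h06
    | exact h12
    | exact h13
    | exact h14
    | exact h15
    | exact h16
    | exact h23
    | exact h24
    | exact h25
    | exact h26
    | exact h34
    | exact h35
    | exact h36
    | exact h45
    | exact h46
    | exact h56

/-- entries away from the diagonal -/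
def Off (g : Fin 7 → Fin 7 → ℤ) : Prop := ∀ i j, i ≠ j → g i j = 3 ∨ g i j = -1

theorem Off.perm (h : Off g) (σ : Equiv.Perm (Fin 7)) : Off (fun i j => g (σ i) (σ j)) :=
  fun i j hij => h _ _ (fun h' => hij (σ.injective h'))

theorem three (h : Dat M g) : (gram M).det ≤
    (343 + 2 * ((g 0 1 : ℝ) * g 0 2 * g 1 2) - 7 * ((g 0 1 : ℝ) ^ 2 + (g 0 2 : ℝ) ^ 2 + (g 1 2 : ℝ) ^ 2)) *
      (Matrix.of fun i j : Fin 4 => ((g (Fin.natAdd 3 i) (Fin.natAdd 3 j) : ℤ) : ℝ)).det := by
  have h1 := split (a := 3) (b := 4) rfl h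
  rw [Matrix.det_fin_three] at h1
  have c0 : (Fin.cast (rfl : 3 + 4 = 7) (Fin.castAdd 4 (0 : Fin 3))) = 0 := rfl
  have c1 : (Fin.cast (rfl : 3 + 4 = 7) (Fin.castAdd 4 (1 : Fin 3))) = 1 := rfl
  have c2 : (Fin.cast (rfl : 3 + 4 = 7) (Fin.castAdd 4 (2 : Fin 3))) = 2 := rfl
  simp only [Matrix.of_apply, c0, c1, c2, h.dg, h.sy 1 0, h.sy 2 0, h.sy 2 1] at h1
  refine h1.trans (le_of_eq ?_)
  congr 1
  push_cast
  ring

theorem lower4 (h : Dat M g) (ho : Off g) :
    (Matrix.of fun i j : Fin 4 => ((g (Fin.natAdd 3 i) (Fin.natAdd 3 j) : ℤ) : ℝ)).det ≤ 2048 ∧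
    ((∃ i j : Fin 4, i ≠ j ∧ g (Fin.natAdd 3 i) (Fin.natAdd 3 j) = 3) →
      (Matrix.of fun i j : Fin 4 => ((g (Fin.natAdd 3 i) (Fin.natAdd 3 j) : ℤ) : ℝ)).det ≤ 1792) := by
  have h1 := four (fun i j : Fin 4 => ((g (Fin.natAdd 3 i) (Fin.natAdd 3 j) : ℤ) : ℝ))
    (fun i => by rw [h.dg]; norm_num) (fun i j => by rw [h.sy])
    (fun i j hij => by
      have hne : (Fin.natAdd 3 i : Fin 7) ≠ Fin.natAdd 3 j := by
        intro h'
        apply hij
        have := congrArg Fin.val h'
        simp only [Fin.val_natAdd] at this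
        exact Fin.ext (by omega)
      rcases ho _ _ hne with h2 | h2
      · left; rw [h2]; norm_num
      · right; rw [h2]; norm_num)
  refine ⟨h1.1, fun h2 => h1.2 ?_⟩
  obtain ⟨i, j, hij, h3⟩ := h2
  exact ⟨i, j, hij, by rw [h3]; norm_num⟩

theorem caseP (h : Dat M g) (ho : Off g) (h01 : g 0 1 = 3) (h02 : g 0 2 = 3) (h12 : g 1 2 = -1) :
    (gram M).det < 409600 := by
  have h1 := three h
  have h2 := (lower4 h ho).1
  rw [h01, h02, h12] at h1
  push_cast at h1
  norm_num at h1
  linarith

theorem caseT (h : Dat M g) (ho : Off g) (h01 : g 0 1 = 3) (h02 : g 0 2 = 3) (h12 : g 1 2 = 3)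
    (h34 : g 3 4 = 3) : (gram M).det < 409600 := by
  have h1 := three h
  have h2 := (lower4 h ho).2 ⟨0, 1, by decide, h34⟩
  rw [h01, h02, h12] at h1
  push_cast at h1
  norm_num at h1
  linarith

theorem noP (h : Dat M g) (ho : Off g) (hbig : ¬ (gram M).det < 409600) (a b c : Fin 7)
    (hab : a ≠ b) (hac : a ≠ c) (hbc : b ≠ c) (h1 : g a b = 3) (h2 : g a c = 3) : g b c = 3 := by
  rcases ho b c hbc with h3 | h3
  · exact h3
  exfalso
  apply hbig
  obtain ⟨σ, hσ⟩ := ext_perm ![a, b, c, a, a, a, a] 3 (by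
    intro i j hi hj hij
    fin_cases i <;> fin_cases j <;> first
      | rfl
      | exact absurd hi (by decide)
      | exact absurd hj (by decide)
      | exact absurd hij hab
      | exact absurd hij hac
      | exact absurd hij hbc
      | exact absurd hij.symm hab
      | exact absurd hij.symm hac
      | exact absurd hij.symm hbc)
  have s0 : σ 0 = a := hσ 0 (by decide)
  have s1 : σ 1 = b := hσ 1 (by decide)
  have s2 : σ 2 = c := hσ 2 (by decide)
  rw [← det_perm M σ]
  apply caseP (h.perm σ) (ho.perm σ)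
  · rw [s0, s1]; exact h1
  · rw [s0, s2]; exact h2
  · rw [s1, s2]; exact h3

theorem noT (h : Dat M g) (ho : Off g) (hbig : ¬ (gram M).det < 409600) (a b c d e : Fin 7)
    (hab : a ≠ b) (hac : a ≠ c) (hbc : b ≠ c) (hda : d ≠ a) (hdb : d ≠ b) (hdc : d ≠ c)
    (hea : e ≠ a) (heb : e ≠ b) (hec : e ≠ c) (hde : d ≠ e)
    (h1 : g a b = 3) (h2 : g a c = 3) (h3 : g b c = 3) : g d e = -1 := by
  rcases ho d e hde with h4 | h4
  swap
  · exact h4
  exfalso
  apply hbig
  obtain ⟨σ, hσ⟩ := ext_perm ![a, b, c, d, e, a, a] 5 (by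
    intro i j hi hj hij
    fin_cases i <;> fin_cases j <;> first
      | rfl
      | exact absurd hi (by decide)
      | exact absurd hj (by decide)
      | exact absurd hij hab
      | exact absurd hij hac
      | exact absurd hij hbc
      | exact absurd hij hda
      | exact absurd hij hdb
      | exact absurd hij hdc
      | exact absurd hij hea
      | exact absurd hij heb
      | exact absurd hij hec
      | exact absurd hij hde
      | exact absurd hij.symm hab
      | exact absurd hij.symm hac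
      | exact absurd hij.symm hbc
      | exact absurd hij.symm hda
      | exact absurd hij.symm hdb
      | exact absurd hij.symm hdc
      | exact absurd hij.symm hea
      | exact absurd hij.symm heb
      | exact absurd hij.symm hec
      | exact absurd hij.symm hde)
  have s0 : σ 0 = a := hσ 0 (by decide)
  have s1 : σ 1 = b := hσ 1 (by decide)
  have s2 : σ 2 = c := hσ 2 (by decide)
  have s3 : σ 3 = d := hσ 3 (by decide)
  have s4 : σ 4 = e := hσ 4 (by decide)
  rw [← det_perm M σ]
  apply caseT (h.perm σ) (ho.perm σ)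
  · rw [s0, s1]; exact h1
  · rw [s0, s2]; exact h2
  · rw [s1, s2]; exact h3
  · rw [s3, s4]; exact h4


/-- a triangle -/
theorem tri (h : Dat M g) (ho : Off g) (h01 : g 0 1 = 3) (h02 : g 0 2 = 3) (h12 : g 1 2 = 3) :
    (gram M).det < 409600 := by
  by_contra hbig
  have hP := noP h ho hbig
  have hT : ∀ i j : Fin 7, 3 ≤ i → 3 ≤ j → i ≠ j → g i j = -1 := by
    intro i j hi hj hij
    have k0 : ∀ x : Fin 7, 3 ≤ x → x ≠ 0 ∧ x ≠ 1 ∧ x ≠ 2 := by decide
    exact noT h ho hbig 0 1 2 i j (by decide) (by decide) (by decide) (k0 i hi).1 (k0 i hi).2.1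
      (k0 i hi).2.2 (k0 j hj).1 (k0 j hj).2.1 (k0 j hj).2.2 hij h01 h02 h12
  have k0 : ∀ x : Fin 7, 3 ≤ x → x ≠ 0 ∧ x ≠ 1 ∧ x ≠ 2 := by decide
  have hJ : ∀ d : Fin 7, 3 ≤ d → g 0 d = 3 → g 1 d = 3 ∧ g 2 d = 3 := by
    intro d hd h0
    have k := k0 d hd
    exact ⟨hP 0 1 d (by decide) k.1.symm k.2.1.symm h01 h0,
      hP 0 2 d (by decide) k.1.symm k.2.2.symm h02 h0⟩
  have hN : ∀ d : Fin 7, 3 ≤ d → g 0 d = -1 → g 1 d = -1 ∧ g 2 d = -1 := by
    intro d hd h0
    have k := k0 d hd
    constructor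
    · rcases ho 1 d k.2.1.symm with h1 | h1
      · have := hP 1 0 d (by decide) k.2.1.symm k.1.symm (by rw [h.sy]; exact h01) h1
        omega
      · exact h1
    · rcases ho 2 d k.2.2.symm with h1 | h1
      · have := hP 2 0 d (by decide) k.2.2.symm k.1.symm (by rw [h.sy]; exact h02) h1
        omega
      · exact h1
  have hO : ∀ d e : Fin 7, 3 ≤ d → 3 ≤ e → d ≠ e → g 0 d = 3 → g 0 e = -1 := by
    intro d e hd he hde h0
    rcases ho 0 e (k0 e he).1.symm with h1 | h1
    · have h2 := hP 0 d e (k0 d hd).1.symm (k0 e he).1.symm hde h0 h1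
      have h3 := hT d e hd he hde
      omega
    · exact h1
  apply hbig
  rcases ho 0 3 (by decide) with p3 | p3
  · have p4 := hO 3 4 (by decide) (by decide) (by decide) p3
    have p5 := hO 3 5 (by decide) (by decide) (by decide) p3
    have p6 := hO 3 6 (by decide) (by decide) (by decide) p3
    have q3 := hJ 3 (by decide) p3
    have q4 := hN 4 (by decide) p4
    have q5 := hN 5 (by decide) p5
    have q6 := hN 6 (by decide) p6
    exact full h (edg [(0, 1), (0, 2), (1, 2), (0, 3), (1, 3), (2, 3)]) (all21 (fun i j : Fin 7 => g i j = if edg [(0, 1), (0, 2), (1, 2), (0, 3), (1, 3), (2, 3)] i j || edg [(0, 1), (0, 2), (1, 2), (0, 3), (1, 3), (2, 3)] j i then 3 else -1)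
      (h01) (h02) (p3) (p4) (p5) (p6) (h12) (q3.1) (q4.1) (q5.1) (q6.1) (q3.2) (q4.2) (q5.2) (q6.2) (hT 3 4 (by decide) (by decide) (by decide)) (hT 3 5 (by decide) (by decide) (by decide)) (hT 3 6 (by decide) (by decide) (by decide)) (hT 4 5 (by decide) (by decide) (by decide)) (hT 4 6 (by decide) (by decide) (by decide)) (hT 5 6 (by decide) (by decide) (by decide))) t4a
  rcases ho 0 4 (by decide) with p4 | p4
  · have p5 := hO 4 5 (by decide) (by decide) (by decide) p4
    have p6 := hO 4 6 (by decide) (by decide) (by decide) p4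
    have q3 := hN 3 (by decide) p3
    have q4 := hJ 4 (by decide) p4
    have q5 := hN 5 (by decide) p5
    have q6 := hN 6 (by decide) p6
    exact full h (edg [(0, 1), (0, 2), (1, 2), (0, 4), (1, 4), (2, 4)]) (all21 (fun i j : Fin 7 => g i j = if edg [(0, 1), (0, 2), (1, 2), (0, 4), (1, 4), (2, 4)] i j || edg [(0, 1), (0, 2), (1, 2), (0, 4), (1, 4), (2, 4)] j i then 3 else -1)
      (h01) (h02) (p3) (p4) (p5) (p6) (h12) (q3.1) (q4.1) (q5.1) (q6.1) (q3.2) (q4.2) (q5.2) (q6.2) (hT 3 4 (by decide) (by decide) (by decide)) (hT 3 5 (by decide) (by decide) (by decide)) (hT 3 6 (by decide) (by decide) (by decide)) (hT 4 5 (by decide) (by decide) (by decide)) (hT 4 6 (by decide) (by decide) (by decide)) (hT 5 6 (by decide) (by decide) (by decide))) t4b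
  rcases ho 0 5 (by decide) with p5 | p5
  · have p6 := hO 5 6 (by decide) (by decide) (by decide) p5
    have q3 := hN 3 (by decide) p3
    have q4 := hN 4 (by decide) p4
    have q5 := hJ 5 (by decide) p5
    have q6 := hN 6 (by decide) p6
    exact full h (edg [(0, 1), (0, 2), (1, 2), (0, 5), (1, 5), (2, 5)]) (all21 (fun i j : Fin 7 => g i j = if edg [(0, 1), (0, 2), (1, 2), (0, 5), (1, 5), (2, 5)] i j || edg [(0, 1), (0, 2), (1, 2), (0, 5), (1, 5), (2, 5)] j i then 3 else -1)
      (h01) (h02) (p3) (p4) (p5) (p6) (h12) (q3.1) (q4.1) (q5.1) (q6.1) (q3.2) (q4.2) (q5.2) (q6.2) (hT 3 4 (by decide) (by decide) (by decide)) (hT 3 5 (by decide) (by decide) (by decide)) (hT 3 6 (by decide) (by decide) (by decide)) (hT 4 5 (by decide) (by decide) (by decide)) (hT 4 6 (by decide) (by decide) (by decide)) (hT 5 6 (by decide) (by decide) (by decide))) t4c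
  rcases ho 0 6 (by decide) with p6 | p6
  · have q3 := hN 3 (by decide) p3
    have q4 := hN 4 (by decide) p4
    have q5 := hN 5 (by decide) p5
    have q6 := hJ 6 (by decide) p6
    exact full h (edg [(0, 1), (0, 2), (1, 2), (0, 6), (1, 6), (2, 6)]) (all21 (fun i j : Fin 7 => g i j = if edg [(0, 1), (0, 2), (1, 2), (0, 6), (1, 6), (2, 6)] i j || edg [(0, 1), (0, 2), (1, 2), (0, 6), (1, 6), (2, 6)] j i then 3 else -1)
      (h01) (h02) (p3) (p4) (p5) (p6) (h12) (q3.1) (q4.1) (q5.1) (q6.1) (q3.2) (q4.2) (q5.2) (q6.2) (hT 3 4 (by decide) (by decide) (by decide)) (hT 3 5 (by decide) (by decide) (by decide)) (hT 3 6 (by decide) (by decide) (by decide)) (hT 4 5 (by decide) (by decide) (by decide)) (hT 4 6 (by decide) (by decide) (by decide)) (hT 5 6 (by decide) (by decide) (by decide))) t4d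
  have q3 := hN 3 (by decide) p3
  have q4 := hN 4 (by decide) p4
  have q5 := hN 5 (by decide) p5
  have q6 := hN 6 (by decide) p6
  exact full h (edg [(0, 1), (0, 2), (1, 2)]) (all21 (fun i j : Fin 7 => g i j = if edg [(0, 1), (0, 2), (1, 2)] i j || edg [(0, 1), (0, 2), (1, 2)] j i then 3 else -1)
    (h01) (h02) (p3) (p4) (p5) (p6) (h12) (q3.1) (q4.1) (q5.1) (q6.1) (q3.2) (q4.2) (q5.2) (q6.2) (hT 3 4 (by decide) (by decide) (by decide)) (hT 3 5 (by decide) (by decide) (by decide)) (hT 3 6 (by decide) (by decide) (by decide)) (hT 4 5 (by decide) (by decide) (by decide)) (hT 4 6 (by decide) (by decide) (by decide)) (hT 5 6 (by decide) (by decide) (by decide))) t3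


/-- two disjoint edges, no vertex of degree two -/
theorem two_edges (h : Dat M g) (ho : Off g)
    (hM : ∀ x y z : Fin 7, x ≠ y → x ≠ z → y ≠ z → g x y = 3 → g x z = -1)
    (h01 : g 0 1 = 3) (h23 : g 2 3 = 3) : (gram M).det < 409600 := by
  have h10 : g 1 0 = 3 := by rw [h.sy]; exact h01
  have h32 : g 3 2 = 3 := by rw [h.sy]; exact h23
  rcases ho 4 5 (by decide) with p45 | p45
  · have p46 := hM 4 5 6 (by decide) (by decide) (by decide) p45
    have p56 := hM 5 4 6 (by decide) (by decide) (by decide) (by rw [h.sy]; exact p45)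
    exact full h (edg [(0, 1), (2, 3), (4, 5)]) (all21 (fun i j : Fin 7 => g i j = if edg [(0, 1), (2, 3), (4, 5)] i j || edg [(0, 1), (2, 3), (4, 5)] j i then 3 else -1)
      (h01) (hM 0 1 2 (by decide) (by decide) (by decide) h01) (hM 0 1 3 (by decide) (by decide) (by decide) h01) (hM 0 1 4 (by decide) (by decide) (by decide) h01) (hM 0 1 5 (by decide) (by decide) (by decide) h01) (hM 0 1 6 (by decide) (by decide) (by decide) h01) (hM 1 0 2 (by decide) (by decide) (by decide) h10) (hM 1 0 3 (by decide) (by decide) (by decide) h10) (hM 1 0 4 (by decide) (by decide) (by decide) h10) (hM 1 0 5 (by decide) (by decide) (by decide) h10) (hM 1 0 6 (by decide) (by decide) (by decide) h10) (h23) (hM 2 3 4 (by decide) (by decide) (by decide) h23) (hM 2 3 5 (by decide) (by decide) (by decide) h23) (hM 2 3 6 (by decide) (by decide) (by decide) h23) (hM 3 2 4 (by decide) (by decide) (by decide) h32) (hM 3 2 5 (by decide) (by decide) (by decide) h32) (hM 3 2 6 (by decide) (by decide) (by decide) h32) (p45)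 (p46) (p56)) e3a
  rcases ho 4 6 (by decide) with p46 | p46
  · have p56 : g 5 6 = -1 := by
      rw [h.sy]
      exact hM 6 4 5 (by decide) (by decide) (by decide) (by rw [h.sy]; exact p46)
    exact full h (edg [(0, 1), (2, 3), (4, 6)]) (all21 (fun i j : Fin 7 => g i j = if edg [(0, 1), (2, 3), (4, 6)] i j || edg [(0, 1), (2, 3), (4, 6)] j i then 3 else -1)
      (h01) (hM 0 1 2 (by decide) (by decide) (by decide) h01) (hM 0 1 3 (by decide) (by decide) (by decide) h01) (hM 0 1 4 (by decide) (by decide) (by decide) h01) (hM 0 1 5 (by decide) (by decide) (by decide) h01) (hM 0 1 6 (by decide) (by decide) (by decide) h01) (hM 1 0 2 (by decide) (by decide) (by decide) h10) (hM 1 0 3 (by decide) (by decide) (by decide) h10) (hM 1 0 4 (by decide) (by decide) (by decide) h10) (hM 1 0 5 (by decide) (by decide) (by decide) h10) (hM 1 0 6 (by decide) (by decide) (by decide) h10) (h23) (hM 2 3 4 (by decide) (by decide) (by decide) h23) (hM 2 3 5 (by decide) (by decide) (by decide) h23) (hM 2 3 6 (by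 decide) (by decide) (by decide) h23) (hM 3 2 4 (by decide) (by decide) (by decide) h32) (hM 3 2 5 (by decide) (by decide) (by decide) h32) (hM 3 2 6 (by decide) (by decide) (by decide) h32) (p45) (p46) (p56)) e3b
  rcases ho 5 6 (by decide) with p56 | p56
  · exact full h (edg [(0, 1), (2, 3), (5, 6)]) (all21 (fun i j : Fin 7 => g i j = if edg [(0, 1), (2, 3), (5, 6)] i j || edg [(0, 1), (2, 3), (5, 6)] j i then 3 else -1)
      (h01) (hM 0 1 2 (by decide) (by decide) (by decide) h01) (hM 0 1 3 (by decide) (by decide) (by decide) h01) (hM 0 1 4 (by decide) (by decide) (by decide) h01) (hM 0 1 5 (by decide) (by decide) (by decide) h01) (hM 0 1 6 (by decide) (by decide) (by decide) h01) (hM 1 0 2 (by decide) (by decide) (by decide) h10) (hM 1 0 3 (by decide) (by decide) (by decide) h10) (hM 1 0 4 (by decide) (by decide) (by decide) h10) (hM 1 0 5 (by decide) (by decide) (by decide) h10) (hM 1 0 6 (by decide) (by decide) (by decide) h10) (h23) (hM 2 3 4 (by decide) (by decide) (by decide) h23)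 (hM 2 3 5 (by decide) (by decide) (by decide) h23) (hM 2 3 6 (by decide) (by decide) (by decide) h23) (hM 3 2 4 (by decide) (by decide) (by decide) h32) (hM 3 2 5 (by decide) (by decide) (by decide) h32) (hM 3 2 6 (by decide) (by decide) (by decide) h32) (p45) (p46) (p56)) e3c
  exact full h (edg [(0, 1), (2, 3)]) (all21 (fun i j : Fin 7 => g i j = if edg [(0, 1), (2, 3)] i j || edg [(0, 1), (2, 3)] j i then 3 else -1)
    (h01) (hM 0 1 2 (by decide) (by decide) (by decide) h01) (hM 0 1 3 (by decide) (by decide) (by decide) h01) (hM 0 1 4 (by decide) (by decide) (by decide) h01) (hM 0 1 5 (by decide) (by decide) (by decide) h01) (hM 0 1 6 (by decide) (by decide) (by decide) h01) (hM 1 0 2 (by decide) (by decide) (by decide) h10) (hM 1 0 3 (by decide) (by decide) (by decide) h10) (hM 1 0 4 (by decide) (by decide) (by decide) h10) (hM 1 0 5 (by decide) (by decide) (by decide) h10) (hM 1 0 6 (by decide) (by decide) (by decide) h10) (h23) (hM 2 3 4 (by decide) (by decide) (by decide) h23) (hM 2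 3 5 (by decide) (by decide) (by decide) h23) (hM 2 3 6 (by decide) (by decide) (by decide) h23) (hM 3 2 4 (by decide) (by decide) (by decide) h32) (hM 3 2 5 (by decide) (by decide) (by decide) h32) (hM 3 2 6 (by decide) (by decide) (by decide) h32) (p45) (p46) (p56)) e2


/-- one edge, no vertex of degree two -/
theorem one_edge (h : Dat M g) (ho : Off g)
    (hM : ∀ x y z : Fin 7, x ≠ y → x ≠ z → y ≠ z → g x y = 3 → g x z = -1)
    (h01 : g 0 1 = 3) : (gram M).det < 409600 := by
  have h10 : g 1 0 = 3 := by rw [h.sy]; exact h01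
  by_cases hE : ∃ c d : Fin 7, 2 ≤ c ∧ 2 ≤ d ∧ c ≠ d ∧ g c d = 3
  · obtain ⟨c, d, hc, hd, hcd, h1⟩ := hE
    have k0 : ∀ x : Fin 7, 2 ≤ x → x ≠ 0 ∧ x ≠ 1 := by decide
    obtain ⟨σ, hσ⟩ := ext_perm ![0, 1, c, d, 0, 0, 0] 4 (by
      intro i j hi hj hij
      fin_cases i <;> fin_cases j <;> first
        | rfl
        | exact absurd hi (by decide)
        | exact absurd hj (by decide)
        | exact absurd (show (0 : Fin 7) = 1 from hij) (by decide)
        | exact absurd (show (1 : Fin 7) = 0 from hij) (by decide)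
        | exact absurd hij hcd
        | exact absurd hij.symm hcd
        | exact absurd hij (k0 c hc).1
        | exact absurd hij (k0 c hc).2
        | exact absurd hij (k0 d hd).1
        | exact absurd hij (k0 d hd).2
        | exact absurd hij.symm (k0 c hc).1
        | exact absurd hij.symm (k0 c hc).2
        | exact absurd hij.symm (k0 d hd).1
        | exact absurd hij.symm (k0 d hd).2)
    have s0 : σ 0 = 0 := hσ 0 (by decide)
    have s1 : σ 1 = 1 := hσ 1 (by decide)
    have s2 : σ 2 = c := hσ 2 (by decide)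
    have s3 : σ 3 = d := hσ 3 (by decide)
    rw [← det_perm M σ]
    apply two_edges (h.perm σ) (ho.perm σ)
    · intro x y z hxy hxz hyz hx
      exact hM _ _ _ (fun h' => hxy (σ.injective h')) (fun h' => hxz (σ.injective h'))
        (fun h' => hyz (σ.injective h')) hx
    · rw [s0, s1]; exact h01
    · rw [s2, s3]; exact h1
  · have hn : ∀ c d : Fin 7, 2 ≤ c → 2 ≤ d → c ≠ d → g c d = -1 := by
      intro c d hc hd hcd
      rcases ho c d hcd with h1 | h1
      · exact absurd ⟨c, d, hc, hd, hcd, h1⟩ hE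
      · exact h1
    exact full h (edg [(0, 1)]) (all21 (fun i j : Fin 7 => g i j = if edg [(0, 1)] i j || edg [(0, 1)] j i then 3 else -1)
      (h01) (hM 0 1 2 (by decide) (by decide) (by decide) h01) (hM 0 1 3 (by decide) (by decide) (by decide) h01) (hM 0 1 4 (by decide) (by decide) (by decide) h01) (hM 0 1 5 (by decide) (by decide) (by decide) h01) (hM 0 1 6 (by decide) (by decide) (by decide) h01) (hM 1 0 2 (by decide) (by decide) (by decide) h10) (hM 1 0 3 (by decide) (by decide) (by decide) h10) (hM 1 0 4 (by decide) (by decide) (by decide) h10) (hM 1 0 5 (by decide) (by decide) (by decide) h10) (hM 1 0 6 (by decide) (by decide) (by decide) h10) (hn 2 3 (by decide) (by decide) (by decide)) (hn 2 4 (by decide) (by decide) (by decide)) (hn 2 5 (by decide) (by decide) (by decide)) (hn 2 6 (by decide) (by decide) (by decide)) (hn 3 4 (by decide) (by decide) (by decide)) (hn 3 5 (by decide) (by decide) (by decide)) (hn 3 6 (by decide) (by decide) (by decide)) (hn 4 5 (by decide) (by decide)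 (by decide)) (hn 4 6 (by decide) (by decide) (by decide)) (hn 5 6 (by decide) (by decide) (by decide))) e1


/-- All cases. -/
theorem seven (h : Dat M g) (ho : ∀ i j, i ≠ j → g i j = 7 ∨ g i j = 3 ∨ g i j = -1 ∨ g i j = -5) :
    (gram M).det < 409600 := by
  have perm2 : ∀ a b : Fin 7, a ≠ b → ∃ σ : Equiv.Perm (Fin 7), σ 0 = a ∧ σ 1 = b := by
    intro a b hab
    obtain ⟨σ, hσ⟩ := ext_perm ![a, b, a, a, a, a, a] 2 (by
      intro i j hi hj hij
      fin_cases i <;> fin_cases j <;> first
        | rfl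
        | exact absurd hi (by decide)
        | exact absurd hj (by decide)
        | exact absurd hij hab
        | exact absurd hij.symm hab)
    exact ⟨σ, hσ 0 (by decide), hσ 1 (by decide)⟩
  by_cases hA : ∃ a b : Fin 7, a ≠ b ∧ (g a b = 7 ∨ g a b = -5)
  · obtain ⟨a, b, hab, h1⟩ := hA
    obtain ⟨σ, s0, s1⟩ := perm2 a b hab
    rw [← det_perm M σ]
    have h2 := split2 (h.perm σ)
    rw [s0, s1] at h2
    rcases h1 with h1 | h1
    · rw [h1] at h2
      norm_num at h2
      linarith
    · rw [h1] at h2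
      norm_num at h2
      linarith
  have ho' : Off g := by
    intro i j hij
    rcases ho i j hij with h1 | h1 | h1 | h1
    · exact absurd ⟨i, j, hij, Or.inl h1⟩ hA
    · exact Or.inl h1
    · exact Or.inr h1
    · exact absurd ⟨i, j, hij, Or.inr h1⟩ hA
  by_cases hE : ∃ a b : Fin 7, a ≠ b ∧ g a b = 3
  swap
  · have hn : ∀ c d : Fin 7, c ≠ d → g c d = -1 := by
      intro c d hcd
      rcases ho' c d hcd with h1 | h1
      · exact absurd ⟨c, d, hcd, h1⟩ hE
      · exact h1
    exact full h (edg []) (all21 (fun i j : Fin 7 => g i j = if edg [] i j || edg [] j i then 3 else -1)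
      (hn 0 1 (by decide)) (hn 0 2 (by decide)) (hn 0 3 (by decide)) (hn 0 4 (by decide)) (hn 0 5 (by decide)) (hn 0 6 (by decide)) (hn 1 2 (by decide)) (hn 1 3 (by decide)) (hn 1 4 (by decide)) (hn 1 5 (by decide)) (hn 1 6 (by decide)) (hn 2 3 (by decide)) (hn 2 4 (by decide)) (hn 2 5 (by decide)) (hn 2 6 (by decide)) (hn 3 4 (by decide)) (hn 3 5 (by decide)) (hn 3 6 (by decide)) (hn 4 5 (by decide)) (hn 4 6 (by decide)) (hn 5 6 (by decide))) e0
  by_contra hbig
  have hP := noP h ho' hbig
  have hTri : ∀ a b c : Fin 7, a ≠ b → a ≠ c → b ≠ c → g a b = 3 → g a c = 3 → g b c = 3 →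
      False := by
    intro a b c hab hac hbc h1 h2 h3
    obtain ⟨σ, hσ⟩ := ext_perm ![a, b, c, a, a, a, a] 3 (by
      intro i j hi hj hij
      fin_cases i <;> fin_cases j <;> first
        | rfl
        | exact absurd hi (by decide)
        | exact absurd hj (by decide)
        | exact absurd hij hab
        | exact absurd hij hac
        | exact absurd hij hbc
        | exact absurd hij.symm hab
        | exact absurd hij.symm hac
        | exact absurd hij.symm hbc)
    have s0 : σ 0 = a := hσ 0 (by decide)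
    have s1 : σ 1 = b := hσ 1 (by decide)
    have s2 : σ 2 = c := hσ 2 (by decide)
    apply hbig
    rw [← det_perm M σ]
    apply tri (h.perm σ) (ho'.perm σ)
    · rw [s0, s1]; exact h1
    · rw [s0, s2]; exact h2
    · rw [s1, s2]; exact h3
  have hM : ∀ x y z : Fin 7, x ≠ y → x ≠ z → y ≠ z → g x y = 3 → g x z = -1 := by
    intro x y z hxy hxz hyz h1
    rcases ho' x z hxz with h2 | h2
    · exact (hTri x y z hxy hxz hyz h1 h2 (hP x y z hxy hxz hyz h1 h2)).elim
    · exact h2
  obtain ⟨a, b, hab, h1⟩ := hE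
  obtain ⟨σ, s0, s1⟩ := perm2 a b hab
  apply hbig
  rw [← det_perm M σ]
  apply one_edge (h.perm σ) (ho'.perm σ)
  · intro x y z hxy hxz hyz hx
    exact hM _ _ _ (fun h' => hxy (σ.injective h')) (fun h' => hxz (σ.injective h'))
      (fun h' => hyz (σ.injective h')) hx
  · rw [s0, s1]; exact h1

end Pool.Agent.Lib.MP_727085_co
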