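import Pool.Agent.Lib.MP_727085_co.Check

set_option autoImplicit false

namespace Pool.Agent.Lib.MP_727085_co

open Finset

/-- binary trees of data -/
inductive Tr (α : Type) : Type
  | leaf (a : α) : Tr α
  | node (l r : Tr α) : Tr α

/-- the leaf reached by the binary digits of `t` -/
def Tr.get {α : Type} : Tr α → ℕ → α
  | .leaf a, _ => a
  | .node l r, t => bif Nat.beq (t % 2) 0 then l.get (t / 2) else r.get (t / 2)

/-- list of the leaves -/
def Tr.toL {α : Type} : Tr α → List α
  | .leaf a => [a]
  | .node l r => l.toL ++ r.toL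

/-- all leaves satisfy `p` -/
def Tr.all {α : Type} (p : α → Bool) : Tr α → Bool
  | .leaf a => p a
  | .node l r => l.all p && r.all p

theorem Tr.get_mem {α : Type} (T : Tr α) (t : ℕ) : T.get t ∈ T.toL := by
  induction T generalizing t with
  | leaf a => simp [Tr.get, Tr.toL]
  | node l r ihl ihr =>
    simp only [Tr.get, Tr.toL, List.mem_append]
    cases Nat.beq (t % 2) 0
    · right; exact ihr _
    · left; exact ihl _

theorem Tr.all_spec {α : Type} (p : α → Bool) (T : Tr α) (h : T.all p = true) :
    ∀ a ∈ T.toL, p a = true := by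
  induction T with
  | leaf a => intro b hb; simp only [Tr.toL, List.mem_singleton] at hb; rw [hb]; exact h
  | node l r ihl ihr =>
    simp only [Tr.all, Bool.and_eq_true] at h
    intro b hb
    simp only [Tr.toL, List.mem_append] at hb
    rcases hb with hb | hb
    · exact ihl h.1 b hb
    · exact ihr h.2 b hb

/-- permutation with the given Lehmer code -/
def lehmer : ℕ → ℕ → List ℕ
  | 0, _ => []
  | n + 1, c => (c % (n + 1)) :: (lehmer n (c / (n + 1))).map
      (fun x => bif Nat.beq (x + 1) (c % (n + 1)) then 0 else x + 1)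

theorem lehmer_mem (n c : ℕ) : lehmer n c ∈ permL n := by
  induction n generalizing c with
  | zero => simp [lehmer, permL]
  | succ n ih =>
    rw [permL, List.mem_flatMap]
    refine ⟨c % (n + 1), List.mem_range.2 (Nat.mod_lt _ (Nat.succ_pos n)), ?_⟩
    rw [List.mem_map]
    refine ⟨lehmer n (c / (n + 1)), ih _, ?_⟩
    rw [lehmer]
    congr 1
    apply List.map_congr_left
    intro x _
    by_cases h : x + 1 = c % (n + 1)
    · rw [if_pos h, ← h]; simp
    · rw [if_neg h]
      have : Nat.beq (x + 1) (c % (n + 1)) = false := by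
        rw [Bool.eq_false_iff]
        intro h'
        exact h (Nat.eq_of_beq_eq_true h')
      rw [this]; rfl

theorem permL_perm (n : ℕ) (l : List ℕ) (hl : l ∈ permL n) :
    ∃ σ : Equiv.Perm (Fin n), l = List.ofFn (fun j => ((σ j : Fin n) : ℕ)) := by
  by_contra hcon
  push Not at hcon
  have h1 := permL_sum n (fun s => if s = l then 1 else 0)
  have h2 : ∑ σ : Equiv.Perm (Fin n), (if List.ofFn (fun j => ((σ j : Fin n) : ℕ)) = l then 1
      else 0) = 0 := by
    apply Finset.sum_eq_zero
    intro σ _
    rw [if_neg (Ne.symm (hcon σ))]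
  rw [h2] at h1
  have h3 : 1 ≤ ((permL n).map (fun s => if s = l then 1 else 0)).sum := by
    have : (fun s => if s = l then 1 else 0) l ∈ (permL n).map (fun s => if s = l then 1 else 0) :=
      List.mem_map_of_mem hl
    simp only [if_true] at this
    exact List.single_le_sum (fun _ _ => Nat.zero_le _) 1 this
  omega

/-- action on vertex codes -/
def actC : List ℕ → ℕ → ℕ → ℕ
  | [], _, _ => 0
  | a :: s, f, n => ((n >>> a) + f) % 2 + 2 * actC s (f / 2) n

theorem actC_testBit (s : List ℕ) (f n j : ℕ) (hj : j < s.length) :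
    (actC s f n).testBit j = xor (f.testBit j) (n.testBit (s.getD j 0)) := by
  induction s generalizing f j with
  | nil => simp at hj
  | cons a s ih =>
    rw [actC]
    cases j with
    | zero =>
      rw [List.getD_cons_zero, Nat.testBit_zero, Nat.testBit_zero, Nat.testBit_eq_decide_div_mod_eq,
        ← Nat.shiftRight_eq_div_pow]
      have h1 : (((n >>> a) + f) % 2 + 2 * actC s (f / 2) n) % 2 = ((n >>> a) + f) % 2 := by omega
      rw [h1]
      rcases Nat.mod_two_eq_zero_or_one (n >>> a) with h2 | h2 <;>
        rcases Nat.mod_two_eq_zero_or_one f with h3 | h3 <;>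
        simp [Nat.add_mod, h2, h3]
    | succ j =>
      rw [List.getD_cons_succ]
      have h1 : (((n >>> a) + f) % 2 + 2 * actC s (f / 2) n) / 2 = actC s (f / 2) n := by omega
      rw [Nat.testBit_succ, h1, Nat.testBit_succ, ih (f / 2) j (by simpa using hj)]

theorem decode_actC {d : ℕ} (σ : Equiv.Perm (Fin d)) (f n : ℕ) :
    decode d (actC (List.ofFn (fun j => ((σ j : Fin d) : ℕ))) f n) =
      actV (σ, fun j => f.testBit j) (decode d n) := by
  funext j
  simp only [decode, actV]
  rw [actC_testBit _ _ _ _ (by simp)]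
  congr 2
  rw [List.getD_eq_getElem _ _ (by simp)]
  simp

theorem exists_code {d : ℕ} (v : V d) : ∃ n < 2 ^ d, decode d n = v := by
  induction d with
  | zero => exact ⟨0, by simp, by funext j; exact j.elim0⟩
  | succ d ih =>
    obtain ⟨n, hn, hnv⟩ := ih (fun j => v j.succ)
    refine ⟨2 * n + (if v 0 then 1 else 0), ?_, ?_⟩
    · rw [pow_succ]; split_ifs <;> omega
    · funext j
      refine Fin.cases ?_ ?_ j
      · simp only [decode, Fin.val_zero, Nat.testBit_zero]
        cases h : v 0 <;> simp
      · intro i
        have h1 := congrFun hnv i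
        simp only [decode] at h1 ⊢
        rw [Fin.val_succ, Nat.testBit_succ]
        have h2 : (2 * n + (if v 0 then 1 else 0)) / 2 = n := by
          split_ifs <;> omega
        rw [h2]; exact h1

/-- one table entry: `e` codes a symmetry and the index of the target -/
def entryOk (d : ℕ) (look : ℕ → List ℕ) (r : List ℕ) (v e : ℕ) : Bool :=
  (v :: r).all (fun u => (look (e / d.factorial / 2 ^ d)).elem
    (actC (lehmer d (e % d.factorial)) (e / d.factorial % 2 ^ d) u))

/-- table entries for the vertices `v, v + 1, …` read off from the digits of `N` -/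
def stepOk (d B : ℕ) (look : ℕ → List ℕ) (r : List ℕ) : ℕ → ℕ → ℕ → Bool
  | 0, _, _ => true
  | n + 1, v, N => (r.elem v || entryOk d look r v (N % 2 ^ B)) &&
      stepOk d B look r n (v + 1) (N / 2 ^ B)

theorem stepOk_spec (d B : ℕ) (look : ℕ → List ℕ) (r : List ℕ) (n v N : ℕ)
    (h : stepOk d B look r n v N = true) : ∀ u, v ≤ u → u < v + n → u ∉ r →
      ∃ e, entryOk d look r u e = true := by
  induction n generalizing v N with
  | zero => intro u h1 h2; omega
  | succ n ih =>
    rw [stepOk, Bool.and_eq_true, Bool.or_eq_true] at h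
    intro u h1 h2 h3
    by_cases huv : u = v
    · subst huv
      rcases h.1 with h4 | h4
      · exact absurd (List.elem_iff.1 h4) h3
      · exact ⟨_, h4⟩
    · exact ih (v + 1) _ h.2 u (by omega) (by omega) h3

theorem toFin_card_le (d : ℕ) (l : List ℕ) : (toFin d l).card ≤ l.length := by
  unfold toFin
  exact (List.toFinset_card_le _).trans (by simp)

theorem cls_step_table {d k : ℕ} {R R' : List (List ℕ)} (look : ℕ → List ℕ)
    (hlook : ∀ t, look t ∈ R') (hlen : ∀ l ∈ R', l.length = k + 1)
    (hR : Cls k (R.map (toFin d)))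
    (htab : ∀ r ∈ R, ∀ u < 2 ^ d, u ∉ r → ∃ e, entryOk d look r u e = true) :
    Cls (k + 1) (R'.map (toFin d)) := by
  classical
  apply cls_step hR
  intro r hr hrk v hv
  obtain ⟨l, hl, rfl⟩ := List.mem_map.1 hr
  obtain ⟨n, hn, rfl⟩ := exists_code v
  have hnl : n ∉ l := by
    intro hcon
    apply hv
    rw [toFin, List.mem_toFinset]
    exact List.mem_map_of_mem hcon
  obtain ⟨e, he⟩ := htab l hl n hn hnl
  obtain ⟨σ, hσ⟩ := permL_perm d _ (lehmer_mem d (e % d.factorial))
  set f := e / d.factorial % 2 ^ d with hf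
  set t := e / d.factorial / 2 ^ d with ht
  refine ⟨(σ, fun j => f.testBit j), ?_⟩
  rw [List.mem_map]
  refine ⟨look t, hlook t, ?_⟩
  symm
  apply Finset.eq_of_subset_of_card_le
  · intro x hx
    obtain ⟨y, hy, rfl⟩ := Finset.mem_image.1 hx
    have hy' : ∃ u ∈ (n :: l), decode d u = y := by
      rcases Finset.mem_insert.1 hy with h | h
      · exact ⟨n, by simp, h.symm⟩
      · rw [toFin, List.mem_toFinset] at h
        obtain ⟨u, hu, rfl⟩ := List.mem_map.1 h
        exact ⟨u, by simp [hu], rfl⟩
    obtain ⟨u, hu, rfl⟩ := hy'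
    unfold entryOk at he
    rw [List.all_eq_true] at he
    have h1 := List.elem_iff.1 (he u hu)
    rw [hσ] at h1
    rw [← decode_actC, toFin, List.mem_toFinset]
    exact List.mem_map_of_mem h1
  · refine (toFin_card_le d _).trans ?_
    rw [hlen _ (hlook t), Finset.card_image_of_injective _ (actV_injective _),
      Finset.card_insert_of_notMem hv, hrk]

end Pool.Agent.Lib.MP_727085_co
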