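import Pool.Agent.Lib.MP_727085_co.Build
import Pool.Agent.Lib.MP_727085_co.Data

set_option autoImplicit false

namespace Pool.Agent.Lib.MP_727085_co

open Finset Topology

/-- the points with the given codes -/
noncomputable def ptsF (d : ℕ) (l : List ℕ) : Finset (Fin d → ℝ) := by
  classical exact (toFin d l).image toPt

theorem mem_ptsF {d : ℕ} (l : List ℕ) (x : Fin d → ℝ) :
    x ∈ ptsF d l ↔ ∃ u ∈ l, toPt (decode d u) = x := by
  classical
  unfold ptsF
  rw [Finset.mem_image]
  constructor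
  · rintro ⟨v, hv, rfl⟩
    rw [toFin, List.mem_toFinset] at hv
    obtain ⟨u, hu, rfl⟩ := List.mem_map.1 hv
    exact ⟨u, hu, rfl⟩
  · rintro ⟨u, hu, rfl⟩
    exact ⟨decode d u, by rw [toFin, List.mem_toFinset]; exact List.mem_map_of_mem hu, rfl⟩

theorem decode_inj {d n m : ℕ} (hn : n < 2 ^ d) (hm : m < 2 ^ d) (h : decode d n = decode d m) :
    n = m := by
  apply Nat.eq_of_testBit_eq
  intro i
  by_cases hi : i < d
  · exact congrFun h ⟨i, hi⟩
  · have h1 : 2 ^ d ≤ 2 ^ i := Nat.pow_le_pow_right (by norm_num) (by omega)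
    rw [Nat.testBit_lt_two_pow (lt_of_lt_of_le hn h1), Nat.testBit_lt_two_pow (lt_of_lt_of_le hm h1)]

/-- the form separates the two simplices up to their common vertices -/
def sepOk (d : ℕ) (s t : List ℕ) (F : List (ℕ × ℕ) × ℕ) : Bool :=
  s.all (fun u => bif t.elem u then Nat.beq (vform d F.1 u) F.2 else Nat.blt F.2 (vform d F.1 u)) &&
  t.all (fun u => bif s.elem u then true else Nat.blt (vform d F.1 u) F.2)

theorem sep_spec {d : ℕ} (s t : List ℕ) (F : List (ℕ × ℕ) × ℕ) (h : sepOk d s t F = true) :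
    convexHull ℝ (ptsF d s : Set (Fin d → ℝ)) ∩ convexHull ℝ (ptsF d t : Set (Fin d → ℝ)) ⊆
      convexHull ℝ ((ptsF d s : Set (Fin d → ℝ)) ∩ (ptsF d t : Set (Fin d → ℝ))) := by
  unfold sepOk at h
  rw [Bool.and_eq_true, List.all_eq_true, List.all_eq_true] at h
  obtain ⟨h1, h2⟩ := h
  set C : Set (Fin d → ℝ) := (ptsF d s : Set (Fin d → ℝ)) ∩ (ptsF d t : Set (Fin d → ℝ)) with hC
  set D : Set (Fin d → ℝ) := {z | ∃ u ∈ s, u ∈ t ∧ toPt (decode d u) = z} with hD
  have hDC : D ⊆ C := by
    rintro z ⟨u, hu, hu', rfl⟩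
    exact ⟨Finset.mem_coe.2 ((mem_ptsF _ _).2 ⟨u, hu, rfl⟩),
      Finset.mem_coe.2 ((mem_ptsF _ _).2 ⟨u, hu', rfl⟩)⟩
  have hDc : ∀ z ∈ convexHull ℝ D, rform F.1 z = F.2 := by
    have hconv : Convex ℝ {z : Fin d → ℝ | rform F.1 z = F.2} := by
      intro x hx y hy a b ha hb hab
      have hx' : rform F.1 x = F.2 := hx
      have hy' : rform F.1 y = F.2 := hy
      show rform F.1 (a • x + b • y) = F.2
      rw [rform_combo _ _ _ _ _ hab, hx', hy', ← add_mul, hab, one_mul]
    intro z hz
    refine convexHull_min ?_ hconv hz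
    rintro z ⟨u, hu, hu', rfl⟩
    show rform F.1 (toPt (decode d u)) = F.2
    have h3 := h1 u hu
    rw [List.elem_iff.2 hu', cond_true] at h3
    rw [rform_toPt, Nat.eq_of_beq_eq_true h3]
  have hs : convexHull ℝ (ptsF d s : Set (Fin d → ℝ)) ⊆
      convexHull ℝ D ∪ {z | (F.2 : ℝ) < rform F.1 z} := by
    apply convexHull_min
    · intro x hx
      obtain ⟨u, hu, rfl⟩ := (mem_ptsF _ _).1 (Finset.mem_coe.1 hx)
      by_cases hut : u ∈ t
      · exact Or.inl (subset_convexHull ℝ _ ⟨u, hu, hut, rfl⟩)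
      · right
        have h3 := h1 u hu
        have h4 : t.elem u = false := by
          rw [Bool.eq_false_iff]; intro h5; exact hut (List.elem_iff.1 h5)
        rw [h4, cond_false] at h3
        show (F.2 : ℝ) < rform F.1 (toPt (decode d u))
        rw [rform_toPt]
        exact_mod_cast Nat.le_of_ble_eq_true h3
    · intro x hx y hy a b ha hb hab
      rcases eq_or_lt_of_le ha with ha0 | ha0
      · rw [← ha0] at hab ⊢
        have : b = 1 := by linarith
        rw [this]; simpa using hy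
      rcases eq_or_lt_of_le hb with hb0 | hb0
      · rw [← hb0] at hab ⊢
        have : a = 1 := by linarith
        rw [this]; simpa using hx
      have e := rform_combo F.1 x y a b hab
      rcases hx with hx | hx <;> rcases hy with hy | hy
      · exact Or.inl ((convex_convexHull ℝ D) hx hy ha hb hab)
      · right
        have h5 := hDc x hx
        have h6 : (F.2 : ℝ) < rform F.1 y := hy
        show (F.2 : ℝ) < rform F.1 (a • x + b • y)
        rw [e, h5]
        have h7 := mul_lt_mul_of_pos_left h6 hb0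
        have h8 : (F.2 : ℝ) = a * F.2 + b * F.2 := by rw [← add_mul, hab, one_mul]
        linarith
      · right
        have h5 := hDc y hy
        have h6 : (F.2 : ℝ) < rform F.1 x := hx
        show (F.2 : ℝ) < rform F.1 (a • x + b • y)
        rw [e, h5]
        have h7 := mul_lt_mul_of_pos_left h6 ha0
        have h8 : (F.2 : ℝ) = a * F.2 + b * F.2 := by rw [← add_mul, hab, one_mul]
        linarith
      · right
        have h5 : (F.2 : ℝ) < rform F.1 y := hy
        have h6 : (F.2 : ℝ) < rform F.1 x := hx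
        show (F.2 : ℝ) < rform F.1 (a • x + b • y)
        rw [e]
        have h7 := mul_lt_mul_of_pos_left h6 ha0
        have h9 := mul_lt_mul_of_pos_left h5 hb0
        have h8 : (F.2 : ℝ) = a * F.2 + b * F.2 := by rw [← add_mul, hab, one_mul]
        linarith
  have ht : convexHull ℝ (ptsF d t : Set (Fin d → ℝ)) ⊆ {z | rform F.1 z ≤ (F.2 : ℝ)} := by
    apply convexHull_min
    · intro x hx
      obtain ⟨u, hu, rfl⟩ := (mem_ptsF _ _).1 (Finset.mem_coe.1 hx)
      show rform F.1 (toPt (decode d u)) ≤ (F.2 : ℝ)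
      rw [rform_toPt]
      by_cases hus : u ∈ s
      · have h3 := h1 u hus
        rw [List.elem_iff.2 hu, cond_true] at h3
        rw [Nat.eq_of_beq_eq_true h3]
      · have h3 := h2 u hu
        have h4 : s.elem u = false := by
          rw [Bool.eq_false_iff]; intro h5; exact hus (List.elem_iff.1 h5)
        rw [h4, cond_false] at h3
        have h5 : vform d F.1 u < F.2 := Nat.le_of_ble_eq_true h3
        exact_mod_cast h5.le
    · intro x hx y hy a b ha hb hab
      have h5 : rform F.1 x ≤ (F.2 : ℝ) := hx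
      have h6 : rform F.1 y ≤ (F.2 : ℝ) := hy
      show rform F.1 (a • x + b • y) ≤ (F.2 : ℝ)
      rw [rform_combo F.1 x y a b hab]
      have h7 := mul_le_mul_of_nonneg_left h5 ha
      have h9 := mul_le_mul_of_nonneg_left h6 hb
      have h8 : (F.2 : ℝ) = a * F.2 + b * F.2 := by rw [← add_mul, hab, one_mul]
      linarith
  rintro z ⟨hz1, hz2⟩
  rcases hs hz1 with h3 | h3
  · exact convexHull_mono hDC h3
  · have h4 : rform F.1 z ≤ (F.2 : ℝ) := ht hz2
    have h5 : (F.2 : ℝ) < rform F.1 z := h3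
    linarith

/-- separation of one simplex from a list -/
def rowOk (d : ℕ) (s : List ℕ) : List (List ℕ) → List (List (ℕ × ℕ) × ℕ) → Bool
  | [], _ => true
  | _ :: _, [] => false
  | t :: L, F :: Fs => sepOk d s t F && rowOk d s L Fs

/-- separation of all pairs -/
def pairsOk (d : ℕ) : List (List ℕ) → List ℕ → Bool
  | [], _ => true
  | _ :: _, [] => false
  | s :: L, N :: Ns => rowOk d s L (forms d L.length N) && pairsOk d L Ns

/-- face to face -/
def FF (d : ℕ) (s t : List ℕ) : Prop :=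
  convexHull ℝ (ptsF d s : Set (Fin d → ℝ)) ∩ convexHull ℝ (ptsF d t : Set (Fin d → ℝ)) ⊆
      convexHull ℝ ((ptsF d s : Set (Fin d → ℝ)) ∩ (ptsF d t : Set (Fin d → ℝ)))

theorem FF.symm {d : ℕ} {s t : List ℕ} (h : FF d s t) : FF d t s := by
  unfold FF at h ⊢
  rw [Set.inter_comm, Set.inter_comm (ptsF d t : Set (Fin d → ℝ))]
  exact h

theorem row_spec {d : ℕ} (s : List ℕ) (L : List (List ℕ)) (Fs : List (List (ℕ × ℕ) × ℕ))
    (h : rowOk d s L Fs = true) : ∀ t ∈ L, FF d s t := by
  induction L generalizing Fs with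
  | nil => intro t ht; simp at ht
  | cons a L ih =>
    cases Fs with
    | nil => simp [rowOk] at h
    | cons F Fs =>
      rw [rowOk, Bool.and_eq_true] at h
      intro t ht
      rcases List.mem_cons.1 ht with rfl | ht
      · exact sep_spec s t F h.1
      · exact ih Fs h.2 t ht

theorem pairs_spec {d : ℕ} (L : List (List ℕ)) (Ns : List ℕ) (h : pairsOk d L Ns = true) :
    ∀ s ∈ L, ∀ t ∈ L, s ≠ t → FF d s t := by
  induction L generalizing Ns with
  | nil => intro s hs; simp at hs
  | cons a L ih =>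
    cases Ns with
    | nil => simp [pairsOk] at h
    | cons N Ns =>
      rw [pairsOk, Bool.and_eq_true] at h
      have hr := row_spec a L _ h.1
      intro s hs t ht hst
      rcases List.mem_cons.1 hs with hsa | hs'
      · rcases List.mem_cons.1 ht with hta | ht'
        · exact absurd (hsa.trans hta.symm) hst
        · rw [hsa]; exact hr t ht'
      · rcases List.mem_cons.1 ht with hta | ht'
        · rw [hta]; exact (hr s hs').symm
        · exact ih Ns h.2 s hs' t ht' hst

/-- the codes describe a nondegenerate simplex -/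
def simplexOk (d : ℕ) (l : List ℕ) (N : ℕ) : Bool :=
  Nat.beq l.length (d + 1) && decide l.Nodup && l.all (fun u => Nat.blt u (2 ^ d)) &&
  l.all (fun u => (forms d (d + 1) N).any (fun F => Nat.blt F.2 (vform d F.1 u) &&
    l.all (fun v => Nat.beq v u || Nat.beq (vform d F.1 v) F.2)))

theorem simplex_card {d : ℕ} {l : List ℕ} (h1 : l.length = d + 1) (h2 : l.Nodup)
    (h3 : ∀ u ∈ l, u < 2 ^ d) : (ptsF d l).card = d + 1 := by
  classical
  unfold ptsF
  rw [Finset.card_image_of_injective _ toPt_injective, toFin, List.toFinset_card_of_nodup,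
    List.length_map, h1]
  apply List.Nodup.map_on _ h2
  intro x hx y hy hxy
  exact decode_inj (h3 x hx) (h3 y hy) hxy

theorem rform_dep {d : ℕ} {ι : Type*} (s : Finset ι) (w : ι → ℝ) (p : ι → Fin d → ℝ)
    (h0 : ∑ e ∈ s, w e = 0) (h1 : ∑ e ∈ s, w e • p e = 0) (F : List (ℕ × ℕ)) :
    ∑ e ∈ s, w e * rform F (p e) = 0 := by
  have hc : ∀ j, ∑ e ∈ s, w e * p e j = 0 := by
    intro j
    have := congrFun h1 j
    simpa [Finset.sum_apply] using this
  have hrc : ∀ i, ∑ e ∈ s, w e * rc i (p e) = 0 := by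
    intro i
    unfold rc
    split_ifs with a1 a2 a3
    · exact hc _
    · simp only [mul_sub, mul_one]
      rw [Finset.sum_sub_distrib, h0, hc, sub_zero]
    · simp
    · simp
  induction F with
  | nil => simp [rform]
  | cons a F ih =>
    have h2 : ∀ e, rform (a :: F) (p e) = (a.2 : ℝ) * rc a.1 (p e) + rform F (p e) := by
      intro e; simp [rform]
    simp only [h2, mul_add]
    rw [Finset.sum_add_distrib, ih, add_zero]
    have h3 : ∀ e, w e * ((a.2 : ℝ) * rc a.1 (p e)) = (a.2 : ℝ) * (w e * rc a.1 (p e)) := by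
      intro e; ring
    simp only [h3]
    rw [← Finset.mul_sum, hrc, mul_zero]

theorem simplex_indep {d : ℕ} {l : List ℕ}
    (h : ∀ u ∈ l, ∃ F : List (ℕ × ℕ) × ℕ, F.2 < vform d F.1 u ∧
      ∀ v ∈ l, v ≠ u → vform d F.1 v = F.2) :
    AffineIndependent ℝ (fun x : ptsF d l => (x : Fin d → ℝ)) := by
  classical
  rw [affineIndependent_iff]
  intro s w h0 h1 e he
  obtain ⟨u, hu, hue⟩ := (mem_ptsF l _).1 e.2
  obtain ⟨F, hF1, hF2⟩ := h u hu
  have h2 := rform_dep s w (fun x => (x : Fin d → ℝ)) h0 h1 F.1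
  have h3 : ∑ x ∈ s, w x * (rform F.1 (x : Fin d → ℝ) - F.2) = 0 := by
    simp only [mul_sub]
    rw [Finset.sum_sub_distrib, h2, ← Finset.sum_mul, h0]; simp
  rw [Finset.sum_eq_single e] at h3
  · rw [← hue, rform_toPt] at h3
    rcases mul_eq_zero.1 h3 with h4 | h4
    · exact h4
    · exfalso
      have h5 : ((vform d F.1 u : ℕ) : ℝ) = (F.2 : ℕ) := by linarith
      have h6 : vform d F.1 u = F.2 := by exact_mod_cast h5
      omega
  · intro x _ hxe
    obtain ⟨v, hv, hvx⟩ := (mem_ptsF l _).1 x.2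
    have hvu : v ≠ u := by
      rintro rfl
      apply hxe
      apply Subtype.ext
      rw [← hvx, ← hue]
    rw [← hvx, rform_toPt, hF2 v hv hvu, sub_self, mul_zero]
  · intro hne; exact absurd he hne

/-- the facet opposite to `u` is on the boundary or shared -/
def facetOk (d : ℕ) (L : List (List ℕ)) (s : List ℕ) (u : ℕ) : Bool :=
  (List.range d).any (fun j => s.all (fun v => Nat.beq v u || Nat.beq ((v >>> j) % 2) 0)) ||
  ((List.range d).any (fun j => s.all (fun v => Nat.beq v u || Nat.beq ((v >>> j) % 2) 1)) ||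
  L.any (fun t => t.any (fun x => !(s.elem x)) && s.all (fun v => Nat.beq v u || t.elem v)))

theorem facet_spec {d : ℕ} {L : List (List ℕ)} (hL : ∀ l ∈ L, ∀ u ∈ l, u < 2 ^ d) {s : List ℕ}
    (hs : s ∈ L) {u : ℕ} (h : facetOk d L s u = true) :
    (∃ j, ∀ x ∈ (ptsF d s).erase (toPt (decode d u)), x j = 0) ∨
    (∃ j, ∀ x ∈ (ptsF d s).erase (toPt (decode d u)), x j = 1) ∨
    ∃ t ∈ L, ptsF d t ≠ ptsF d s ∧ (ptsF d s).erase (toPt (decode d u)) ⊆ ptsF d t := by
  unfold facetOk at h
  rw [Bool.or_eq_true, Bool.or_eq_true] at h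
  have hbit : ∀ (c : ℕ) (j : ℕ) (hj : j < d),
      s.all (fun v => Nat.beq v u || Nat.beq ((v >>> j) % 2) c) = true →
      ∀ x ∈ (ptsF d s).erase (toPt (decode d u)), x ⟨j, hj⟩ = (c : ℝ) := by
    intro c j hj hall x hx
    rw [Finset.mem_erase] at hx
    obtain ⟨v, hv, rfl⟩ := (mem_ptsF s _).1 hx.2
    rw [List.all_eq_true] at hall
    have h1 := hall v hv
    rw [Bool.or_eq_true] at h1
    rcases h1 with h1 | h1
    · exact absurd (by rw [Nat.eq_of_beq_eq_true h1]) hx.1
    · rw [toPt_decode]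
      simp only
      rw [Nat.eq_of_beq_eq_true h1]
  rcases h with h | h | h
  · left
    rw [List.any_eq_true] at h
    obtain ⟨j, hj, hall⟩ := h
    refine ⟨⟨j, List.mem_range.1 hj⟩, ?_⟩
    intro x hx
    have := hbit 0 j (List.mem_range.1 hj) hall x hx
    simpa using this
  · right; left
    rw [List.any_eq_true] at h
    obtain ⟨j, hj, hall⟩ := h
    refine ⟨⟨j, List.mem_range.1 hj⟩, ?_⟩
    intro x hx
    have := hbit 1 j (List.mem_range.1 hj) hall x hx
    simpa using this
  · right; right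
    rw [List.any_eq_true] at h
    obtain ⟨t, ht, h2⟩ := h
    rw [Bool.and_eq_true, List.any_eq_true, List.all_eq_true] at h2
    refine ⟨t, ht, ?_, ?_⟩
    · intro heq
      obtain ⟨x, hx, hxs⟩ := h2.1
      have h3 : toPt (decode d x) ∈ ptsF d s := by
        rw [← heq]; exact (mem_ptsF t _).2 ⟨x, hx, rfl⟩
      obtain ⟨y, hy, hyx⟩ := (mem_ptsF s _).1 h3
      have h4 := decode_inj (hL s hs y hy) (hL t ht x hx) (toPt_injective hyx)
      rw [h4] at hy
      rw [List.elem_iff.2 hy] at hxs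
      exact absurd hxs (by decide)
    · intro x hx
      rw [Finset.mem_erase] at hx
      obtain ⟨v, hv, rfl⟩ := (mem_ptsF s _).1 hx.2
      have h3 := h2.2 v hv
      rw [Bool.or_eq_true] at h3
      rcases h3 with h3 | h3
      · exact absurd (by rw [Nat.eq_of_beq_eq_true h3]) hx.1
      · exact (mem_ptsF t _).2 ⟨v, List.elem_iff.1 h3, rfl⟩

/-- simplices with their data are nondegenerate -/
def allOk (d : ℕ) : List (List ℕ) → List ℕ → Bool
  | [], _ => true
  | _ :: _, [] => false
  | s :: L, N :: Ns => simplexOk d s N && allOk d L Ns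

theorem allOk_spec {d : ℕ} (L : List (List ℕ)) (Ns : List ℕ) (h : allOk d L Ns = true) :
    ∀ l ∈ L, ∃ N, simplexOk d l N = true := by
  induction L generalizing Ns with
  | nil => intro l hl; simp at hl
  | cons a L ih =>
    cases Ns with
    | nil => simp [allOk] at h
    | cons N Ns =>
      rw [allOk, Bool.and_eq_true] at h
      intro l hl
      rcases List.mem_cons.1 hl with rfl | hl
      · exact ⟨N, h.1⟩
      · exact ih Ns h.2 l hl

theorem simplexOk_spec {d : ℕ} {l : List ℕ} {N : ℕ} (h : simplexOk d l N = true) :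
    (∀ u ∈ l, u < 2 ^ d) ∧ (ptsF d l).card = d + 1 ∧
      AffineIndependent ℝ (fun x : ptsF d l => (x : Fin d → ℝ)) := by
  unfold simplexOk at h
  rw [Bool.and_eq_true, Bool.and_eq_true, Bool.and_eq_true, List.all_eq_true, List.all_eq_true,
    decide_eq_true_eq] at h
  obtain ⟨⟨⟨h1, h2⟩, h3⟩, h4⟩ := h
  have h3' : ∀ u ∈ l, u < 2 ^ d := fun u hu => Nat.le_of_ble_eq_true (h3 u hu)
  refine ⟨h3', simplex_card (Nat.eq_of_beq_eq_true h1) h2 h3', simplex_indep ?_⟩
  intro u hu
  have h5 := h4 u hu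
  rw [List.any_eq_true] at h5
  obtain ⟨F, -, hF⟩ := h5
  rw [Bool.and_eq_true, List.all_eq_true] at hF
  refine ⟨F, Nat.le_of_ble_eq_true hF.1, ?_⟩
  intro v hv hvu
  have h6 := hF.2 v hv
  rw [Bool.or_eq_true] at h6
  rcases h6 with h6 | h6
  · exact absurd (Nat.eq_of_beq_eq_true h6) hvu
  · exact Nat.eq_of_beq_eq_true h6

open Classical in
/-- A checked list of vertex sets is a triangulation of the cube. -/
theorem triang_of_check {d : ℕ} (L : List (List ℕ)) (Ms Ns : List ℕ) (hne : L ≠ [])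
    (h1 : allOk d L Ms = true) (h2 : pairsOk d L Ns = true)
    (h3 : L.all (fun s => s.all (facetOk d L s)) = true) :
    IsTriangulation d (L.map (ptsF d)).toFinset := by
  have hsp : ∀ l ∈ L, (∀ u ∈ l, u < 2 ^ d) ∧ (ptsF d l).card = d + 1 ∧
      AffineIndependent ℝ (fun x : ptsF d l => (x : Fin d → ℝ)) := by
    intro l hl
    obtain ⟨N, hN⟩ := allOk_spec L Ms h1 l hl
    exact simplexOk_spec hN
  have hmem : ∀ s ∈ (L.map (ptsF d)).toFinset, ∃ l ∈ L, ptsF d l = s := by
    intro s hs
    rw [List.mem_toFinset] at hs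
    exact List.mem_map.1 hs
  have hmem' : ∀ l ∈ L, ptsF d l ∈ (L.map (ptsF d)).toFinset := by
    intro l hl
    rw [List.mem_toFinset]
    exact List.mem_map_of_mem hl
  have hcard : ∀ s ∈ (L.map (ptsF d)).toFinset, s.card = d + 1 := by
    intro s hs
    obtain ⟨l, hl, rfl⟩ := hmem s hs
    exact (hsp l hl).2.1
  have hind : ∀ s ∈ (L.map (ptsF d)).toFinset,
      AffineIndependent ℝ (fun x : s => (x : Fin d → ℝ)) := by
    intro s hs
    obtain ⟨l, hl, rfl⟩ := hmem s hs
    exact (hsp l hl).2.2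
  have hcube : ∀ s ∈ (L.map (ptsF d)).toFinset, ∀ x ∈ s, x ∈ Set.Icc (0 : Fin d → ℝ) 1 := by
    intro s hs x hx
    obtain ⟨l, hl, rfl⟩ := hmem s hs
    obtain ⟨u, hu, rfl⟩ := (mem_ptsF l x).1 hx
    constructor
    · intro j
      simp only [toPt, Pi.zero_apply]
      split_ifs <;> norm_num
    · intro j
      simp only [toPt, Pi.one_apply]
      split_ifs <;> norm_num
  have hff : ∀ s ∈ (L.map (ptsF d)).toFinset, ∀ t ∈ (L.map (ptsF d)).toFinset, s ≠ t →
      convexHull ℝ (s : Set (Fin d → ℝ)) ∩ convexHull ℝ (t : Set (Fin d → ℝ)) ⊆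
        convexHull ℝ ((s : Set (Fin d → ℝ)) ∩ t) := by
    intro s hs t ht hst
    obtain ⟨l, hl, rfl⟩ := hmem s hs
    obtain ⟨m, hm, rfl⟩ := hmem t ht
    exact pairs_spec L Ns h2 l hl m hm (fun h => hst (by rw [h]))
  have hdeg : ∀ s ∈ (L.map (ptsF d)).toFinset, ∀ u ∈ s, (∃ j, ∀ x ∈ s.erase u, x j = 0) ∨
      (∃ j, ∀ x ∈ s.erase u, x j = 1) ∨
      ∃ t ∈ (L.map (ptsF d)).toFinset, t ≠ s ∧ s.erase u ⊆ t := by
    intro s hs u hu
    obtain ⟨l, hl, rfl⟩ := hmem s hs
    obtain ⟨n, hn, rfl⟩ := (mem_ptsF l u).1 hu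
    rw [List.all_eq_true] at h3
    have h4 := h3 l hl
    rw [List.all_eq_true] at h4
    rcases facet_spec (fun l hl => (hsp l hl).1) hl (h4 n hn) with h | h | ⟨t, ht, h⟩
    · exact Or.inl h
    · exact Or.inr (Or.inl h)
    · exact Or.inr (Or.inr ⟨ptsF d t, hmem' t ht, h⟩)
  have hne' : (L.map (ptsF d)).toFinset.Nonempty := by
    obtain ⟨l, hl⟩ := List.exists_mem_of_ne_nil L hne
    exact ⟨_, hmem' l hl⟩
  have hcov := cube_covered hne' hcard hind hcube hff hdeg
  refine ⟨⟨hcard, hind, ?_, ?_⟩, ?_⟩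
  · apply Set.Subset.antisymm
    · intro x hx
      obtain ⟨s, hs, hxs⟩ := Set.mem_iUnion₂.1 hx
      exact convexHull_min (fun y hy => hcube s hs y hy) (convex_Icc _ _) hxs
    · exact hcov
  · intro s hs t ht hst
    rw [Set.disjoint_iff_inter_eq_empty, ← interior_inter]
    by_contra hcon
    have hno : (interior (convexHull ℝ (s : Set (Fin d → ℝ)) ∩
        convexHull ℝ (t : Set (Fin d → ℝ)))).Nonempty := Set.nonempty_iff_ne_empty.2 hcon
    have hpos := isOpen_interior.measure_pos MeasureTheory.volume hno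
    have hc : (s ∩ t).card ≤ d := by
      have h2 : (s ∩ t).card < s.card := by
        apply Finset.card_lt_card
        refine ⟨Finset.inter_subset_left, ?_⟩
        intro h
        apply hst
        apply Finset.eq_of_subset_of_card_le (fun x hx => (Finset.mem_inter.1 (h hx)).2)
        rw [hcard s hs, hcard t ht]
      rw [hcard s hs] at h2
      omega
    have hz := hull_null (s ∩ t) hc
    rw [Finset.coe_inter] at hz
    have hz2 : MeasureTheory.volume (interior (convexHull ℝ (s : Set (Fin d → ℝ)) ∩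
        convexHull ℝ (t : Set (Fin d → ℝ)))) = 0 :=
      MeasureTheory.measure_mono_null (interior_subset.trans (hff s hs t ht hst)) hz
    exact hpos.ne' hz2
  · intro s hs t ht
    apply Set.Subset.antisymm
    · by_cases hst : s = t
      · subst hst
        rw [Set.inter_self, Set.inter_self]
      · exact hff s hs t ht hst
    · exact Set.subset_inter (convexHull_mono Set.inter_subset_left)
        (convexHull_mono Set.inter_subset_right)

end Pool.Agent.Lib.MP_727085_co
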